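import Pool.Agent.Lib.MP_904cf4_co.Basic

/-! A lower bound for off-diagonal Ramsey numbers from the anti-flag graph, uniform in the
clique size. -/

set_option autoImplicit false

namespace Pool.Agent.Lib.MP_904cf4_co.AF

open Finset

variable {F : Type} [Field F] [Fintype F] [DecidableEq F] {τ : ℕ}

lemma split (S : Finset (Fin τ → F)) (b a0 : Fin τ → F) (h0 : a0 ⬝ᵥ b = 1)
    (hS : ∀ x ∈ S, ∀ c : F, x + c • a0 ∈ S) :
    S.card = Fintype.card F * (S.filter (fun x => x ⬝ᵥ b = 0)).card := by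
  rw [← Finset.card_univ, ← Finset.card_product]
  refine Finset.card_nbij' (fun x => (x ⬝ᵥ b, x + (-(x ⬝ᵥ b)) • a0)) (fun y => y.2 + y.1 • a0)
    (fun x hx => ?_) (fun y hy => ?_) (fun x _ => ?_) (fun y hy => ?_)
  · refine Finset.mem_coe.2 (Finset.mem_product.2 ⟨Finset.mem_univ _, Finset.mem_filter.2
      ⟨hS x hx _, ?_⟩⟩)
    simp only [add_dotProduct, smul_dotProduct, h0, smul_eq_mul, mul_one, add_neg_cancel]
  · exact hS _ (Finset.mem_filter.1 (Finset.mem_product.1 (Finset.mem_coe.1 hy)).2).1 _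
  · simp only [neg_smul, neg_add_cancel_right]
  · have h := (Finset.mem_filter.1 (Finset.mem_product.1 (Finset.mem_coe.1 hy)).2).2
    simp only [add_dotProduct, smul_dotProduct, h0, smul_eq_mul, mul_one, h, zero_add, neg_smul,
      add_neg_cancel_right]

omit [Fintype F] [DecidableEq F] in
lemma ex_one {b : Fin τ → F} (hb : b ≠ 0) : ∃ a0, a0 ⬝ᵥ b = 1 := by
  obtain ⟨i, hi⟩ := Function.ne_iff.1 hb
  exact ⟨Pi.single i (b i)⁻¹, by rw [single_dotProduct]; exact inv_mul_cancel₀ hi⟩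

omit [Fintype F] [DecidableEq F] in
lemma ex_two {b b' : Fin τ → F} (hb : b ≠ 0) (h : ¬ ∃ c : F, c • b = b') :
    ∃ a0, a0 ⬝ᵥ b = 0 ∧ a0 ⬝ᵥ b' = 1 := by
  obtain ⟨i, hi⟩ := Function.ne_iff.1 hb
  have hi' : b i ≠ 0 := hi
  by_contra hc
  refine h ⟨b' i / b i, funext fun j => ?_⟩
  have h1 : (Pi.single j (b i) - Pi.single i (b j) : Fin τ → F) ⬝ᵥ b = 0 := by
    rw [sub_dotProduct, single_dotProduct, single_dotProduct]
    ring
  have h2 : (Pi.single j (b i) - Pi.single i (b j) : Fin τ → F) ⬝ᵥ b' = 0 := by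
    by_contra h3
    refine hc ⟨((Pi.single j (b i) - Pi.single i (b j) : Fin τ → F) ⬝ᵥ b')⁻¹ •
      (Pi.single j (b i) - Pi.single i (b j)), ?_, ?_⟩
    · rw [smul_dotProduct, h1, smul_zero]
    · rw [smul_dotProduct, smul_eq_mul, inv_mul_cancel₀ h3]
  rw [sub_dotProduct, single_dotProduct, single_dotProduct] at h2
  rw [Pi.smul_apply, smul_eq_mul]
  field_simp
  linear_combination -h2

lemma n_one {b : Fin τ → F} (hb : b ≠ 0) :
    ((univ.filter (fun a : Fin τ → F => a ⬝ᵥ b = 0)).card : ℝ) =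
      Fintype.card (Fin τ → F) / Fintype.card F := by
  obtain ⟨a0, h0⟩ := ex_one hb
  have h := split univ b a0 h0 (fun _ _ _ => mem_univ _)
  have hp : (0 : ℝ) < Fintype.card F := by exact_mod_cast Fintype.card_pos
  rw [← Finset.card_univ (α := Fin τ → F), h]
  push_cast
  field_simp

lemma n_two {b b' : Fin τ → F} (hb : b ≠ 0) (h : ¬ ∃ c : F, c • b = b') :
    ((univ.filter (fun a : Fin τ → F => a ⬝ᵥ b = 0 ∧ a ⬝ᵥ b' = 0)).card : ℝ) =
      Fintype.card (Fin τ → F) / Fintype.card F ^ 2 := by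
  obtain ⟨a0, h0, h1⟩ := ex_two hb h
  have h2 := split (univ.filter (fun a : Fin τ → F => a ⬝ᵥ b = 0)) b' a0 h1 (fun x hx c => by
    refine mem_filter.2 ⟨mem_univ _, ?_⟩
    rw [add_dotProduct, smul_dotProduct, h0, (mem_filter.1 hx).2, smul_zero, add_zero])
  have hp : (0 : ℝ) < Fintype.card F := by exact_mod_cast Fintype.card_pos
  have h3 := n_one hb
  rw [h2, Finset.filter_filter] at h3
  push_cast at h3
  rw [eq_div_iff (by positivity)] at h3 ⊢
  linear_combination h3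

lemma cheb (B : Finset (Fin τ → F)) (hB : 0 ∉ B) :
    ((univ.filter (fun a : Fin τ → F => 2 * (Fintype.card F : ℝ) *
      (B.filter (fun b => a ⬝ᵥ b = 0)).card < B.card)).card : ℝ) * B.card ≤
      4 * Fintype.card F ^ 2 * Fintype.card (Fin τ → F) := by
  set p : ℝ := (Fintype.card F : ℝ) with hpd
  set Q : ℝ := (Fintype.card (Fin τ → F) : ℝ) with hQ
  have hp : 0 < p := by rw [hpd]; exact_mod_cast Fintype.card_pos
  have hQ0 : 0 ≤ Q := Nat.cast_nonneg _
  have hne : ∀ b ∈ B, b ≠ 0 := fun b hb e => hB (e ▸ hb)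
  let X : (Fin τ → F) → ℝ := fun a => (B.filter (fun b => a ⬝ᵥ b = 0)).card
  have hX : ∀ a, X a = ∑ b ∈ B, if a ⬝ᵥ b = 0 then (1 : ℝ) else 0 := fun a => by
    rw [Finset.sum_boole]
  have s1 : ∑ a, X a = B.card * (Q / p) := by
    simp only [hX]
    rw [Finset.sum_comm, Finset.sum_congr rfl fun b hb => (Finset.sum_boole _ _).trans
      (n_one (hne b hb)), Finset.sum_const, nsmul_eq_mul]
  have s2 : ∑ a, X a ^ 2 ≤ B.card * (B.card * (Q / p ^ 2) + Q) := by
    have e : ∀ a, X a ^ 2 = ∑ b ∈ B, ∑ b' ∈ B,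
        if a ⬝ᵥ b = 0 ∧ a ⬝ᵥ b' = 0 then (1 : ℝ) else 0 := fun a => by
      rw [sq, hX, Finset.sum_mul_sum]
      refine Finset.sum_congr rfl fun b _ => Finset.sum_congr rfl fun b' _ => ?_
      by_cases h1 : a ⬝ᵥ b = 0 <;> by_cases h2 : a ⬝ᵥ b' = 0 <;> simp [h1, h2]
    simp only [e]
    rw [Finset.sum_comm, ← nsmul_eq_mul, ← Finset.sum_const]
    refine Finset.sum_le_sum fun b hb => ?_
    rw [Finset.sum_comm]
    have t : ∀ b' ∈ B, (∑ a : Fin τ → F, if a ⬝ᵥ b = 0 ∧ a ⬝ᵥ b' = 0 then (1 : ℝ) else 0) ≤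
        Q / p ^ 2 + (if b' ∈ univ.image (fun c : F => c • b) then (1 : ℝ) else 0) * (Q / p) := by
      intro b' _
      rw [Finset.sum_boole]
      split_ifs with h
      · have h1 : ((univ.filter (fun a : Fin τ → F => a ⬝ᵥ b = 0 ∧ a ⬝ᵥ b' = 0)).card : ℝ) ≤
            (univ.filter (fun a : Fin τ → F => a ⬝ᵥ b = 0)).card := by
          exact Nat.cast_le.2 (Finset.card_le_card fun a ha =>
            mem_filter.2 ⟨mem_univ _, (mem_filter.1 ha).2.1⟩)
        rw [n_one (hne b hb)] at h1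
        have : 0 ≤ Q / p ^ 2 := by positivity
        linarith
      · rw [n_two (hne b hb) fun ⟨c, hc⟩ => h (mem_image.2 ⟨c, mem_univ _, hc⟩), zero_mul, add_zero]
    refine (Finset.sum_le_sum t).trans ?_
    rw [Finset.sum_add_distrib, Finset.sum_const, nsmul_eq_mul, ← Finset.sum_mul, Finset.sum_boole]
    have h2 : ((B.filter (fun b' => b' ∈ univ.image (fun c : F => c • b))).card : ℝ) ≤ p := by
      rw [hpd]
      exact_mod_cast (Finset.card_le_card fun x hx => (mem_filter.1 hx).2).trans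
        (Finset.card_image_le.trans Finset.card_univ.le)
    have h3 := mul_le_mul_of_nonneg_right h2 (div_nonneg hQ0 hp.le)
    rw [mul_div_cancel₀ _ hp.ne'] at h3
    linarith
  have s3 : ∑ a, (X a - B.card / p) ^ 2 ≤ B.card * Q := by
    have e : ∀ a, (X a - B.card / p) ^ 2 =
        X a ^ 2 - 2 * (B.card / p) * X a + (B.card / p) ^ 2 := fun a => by ring
    simp only [e]
    rw [Finset.sum_add_distrib, Finset.sum_sub_distrib, ← Finset.mul_sum, s1, Finset.sum_const,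
      nsmul_eq_mul, Finset.card_univ, ← hQ]
    have : (B.card : ℝ) * (B.card * (Q / p ^ 2) + Q) - 2 * (B.card / p) * (B.card * (Q / p)) +
        Q * (B.card / p) ^ 2 = B.card * Q := by
      field_simp
      ring
    linarith
  set A := univ.filter (fun a : Fin τ → F => 2 * p * (B.filter (fun b => a ⬝ᵥ b = 0)).card < B.card)
  have s4 : (A.card : ℝ) * (B.card / (2 * p)) ^ 2 ≤ ∑ a, (X a - B.card / p) ^ 2 := by
    rw [← nsmul_eq_mul, ← Finset.sum_const]
    refine (Finset.sum_le_sum fun a ha => ?_).trans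
      (Finset.sum_le_sum_of_subset_of_nonneg (Finset.subset_univ A) fun _ _ _ => sq_nonneg _)
    have h1 : X a < B.card / (2 * p) := by
      rw [lt_div_iff₀ (by positivity), mul_comm]
      exact (mem_filter.1 ha).2
    have h2 : (B.card : ℝ) / p = 2 * (B.card / (2 * p)) := by field_simp
    have h3 : (0 : ℝ) ≤ B.card / (2 * p) := by positivity
    rw [h2]
    nlinarith
  rcases Nat.eq_zero_or_pos B.card with h | h
  · rw [h, Nat.cast_zero, mul_zero]
    positivity
  · have hb : (0 : ℝ) < B.card := by exact_mod_cast h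
    have h5 := s4.trans s3
    rw [div_pow, ← mul_div_assoc, div_le_iff₀ (by positivity)] at h5
    refine le_of_mul_le_mul_right ?_ hb
    nlinarith

lemma step (B : Finset (Fin τ → F)) (hB : 0 ∉ B) (θ : ℕ)
    (hθ : (1 - 1 / (2 * (Fintype.card F : ℝ))) ^ θ * Fintype.card (Fin τ → F) ≤ 1) :
    (B.card : ℝ) * ∑ a : Fin τ → F, ((B.filter (fun b => a ⬝ᵥ b ≠ 0)).card : ℝ) ^ θ ≤
      5 * Fintype.card F ^ 2 * Fintype.card (Fin τ → F) * (B.card : ℝ) ^ θ := by
  have hc := cheb B hB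
  set p : ℝ := (Fintype.card F : ℝ) with hpd
  set Q : ℝ := (Fintype.card (Fin τ → F) : ℝ) with hQ
  have hp : 1 ≤ p := by rw [hpd]; exact_mod_cast Fintype.card_pos
  have hQ0 : 0 ≤ Q := Nat.cast_nonneg _
  have hBQ : (B.card : ℝ) ≤ Q := by rw [hQ]; exact_mod_cast Finset.card_le_univ B
  have hB0 : (0 : ℝ) ≤ B.card := Nat.cast_nonneg _
  have hP : (0 : ℝ) ≤ (B.card : ℝ) ^ θ := by positivity
  have h0 : 0 ≤ 1 - 1 / (2 * p) := by
    rw [sub_nonneg, div_le_one (by linarith)]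
    linarith
  have t : ∀ a : Fin τ → F, ((B.filter (fun b => a ⬝ᵥ b ≠ 0)).card : ℝ) ^ θ ≤
      (if 2 * p * (B.filter (fun b => a ⬝ᵥ b = 0)).card < B.card then (1 : ℝ) else 0) *
        (B.card : ℝ) ^ θ + (1 - 1 / (2 * p)) ^ θ * (B.card : ℝ) ^ θ := by
    intro a
    split_ifs with h
    · have h1 : ((B.filter (fun b => a ⬝ᵥ b ≠ 0)).card : ℝ) ≤ B.card := by
        exact_mod_cast Finset.card_filter_le _ _
      have h2 := pow_le_pow_left₀ (Nat.cast_nonneg _) h1 θ
      have h3 := mul_nonneg (pow_nonneg h0 θ) hP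
      linarith
    · rw [zero_mul, zero_add, ← mul_pow]
      refine pow_le_pow_left₀ (Nat.cast_nonneg _) ?_ θ
      have h1 : ((B.filter (fun b => a ⬝ᵥ b = 0)).card : ℝ) +
          (B.filter (fun b => a ⬝ᵥ b ≠ 0)).card = B.card := by
        exact_mod_cast Finset.card_filter_add_card_filter_not (s := B) (fun b => a ⬝ᵥ b = 0)
      have h2 : 1 / (2 * p) * B.card ≤ (B.filter (fun b => a ⬝ᵥ b = 0)).card := by
        rw [one_div, inv_mul_le_iff₀ (by linarith)]
        exact not_lt.1 h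
      linarith
  have s := Finset.sum_le_sum fun a (_ : a ∈ univ) => t a
  rw [Finset.sum_add_distrib, ← Finset.sum_mul, Finset.sum_boole, Finset.sum_const, nsmul_eq_mul,
    Finset.card_univ, ← hQ] at s
  refine (mul_le_mul_of_nonneg_left s hB0).trans ?_
  have h4 := mul_le_mul_of_nonneg_right hc hP
  have h5 : (B.card : ℝ) * ((1 - 1 / (2 * p)) ^ θ * Q) ≤ Q * 1 :=
    mul_le_mul hBQ hθ (mul_nonneg (pow_nonneg h0 θ) hQ0) hQ0
  have h6 := mul_le_mul_of_nonneg_right h5 hP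
  have h7 : Q * (B.card : ℝ) ^ θ ≤ p ^ 2 * (Q * (B.card : ℝ) ^ θ) :=
    le_mul_of_one_le_left (mul_nonneg hQ0 hP) (one_le_pow₀ hp)
  nlinarith

/-- number of subsequences of length `k` that are independent and have second entries in `B` -/
def cnt : List ((Fin τ → F) × (Fin τ → F)) → ℕ → Finset (Fin τ → F) → ℕ
  | [], k, _ => if k = 0 then 1 else 0
  | _ :: _, 0, _ => 1
  | x :: l, k + 1, B => cnt l (k + 1) B +
      if x.2 ∈ B then cnt l k (B.filter (fun b => x.1 ⬝ᵥ b ≠ 0)) else 0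

omit [Fintype F] in
lemma cnt_zero (l : List ((Fin τ → F) × (Fin τ → F))) (B : Finset (Fin τ → F)) :
    cnt l 0 B = 1 := by
  cases l <;> rfl

omit [Fintype F] in
lemma cnt_pos {l' l : List ((Fin τ → F) × (Fin τ → F))} (h : l'.Sublist l) :
    ∀ B : Finset (Fin τ → F), (∀ y ∈ l', y.2 ∈ B) →
      l'.Pairwise (fun x y => x.1 ⬝ᵥ y.2 ≠ 0) → 1 ≤ cnt l l'.length B := by
  induction h with
  | slnil => intro B _ _; exact (cnt_zero _ _).ge
  | @cons l₁ l₂ x _ ih =>
    intro B h1 h2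
    have := ih B h1 h2
    rcases hk : l₁.length with _ | k
    · exact (cnt_zero _ _).ge
    · rw [hk] at this
      exact this.trans (Nat.le_add_right _ _)
  | @cons_cons l₁ l₂ x _ ih =>
    intro B h1 h2
    rw [List.pairwise_cons] at h2
    have := ih (B.filter (fun b => x.1 ⬝ᵥ b ≠ 0)) (fun y hy =>
      mem_filter.2 ⟨h1 y (List.mem_cons_of_mem _ hy), h2.1 y hy⟩) h2.2
    rw [List.length_cons, cnt, if_pos (h1 x List.mem_cons_self)]
    exact this.trans (Nat.le_add_left _ _)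

/-- sum over all lists of length `n` with entries in `D` -/
def tot {X : Type} (D : Finset X) : ℕ → (List X → ℝ) → ℝ
  | 0, g => g []
  | n + 1, g => ∑ x ∈ D, tot D n (fun l => g (x :: l))

lemma tot_add {X : Type} (D : Finset X) (n : ℕ) : ∀ g g' : List X → ℝ,
    tot D n (fun l => g l + g' l) = tot D n g + tot D n g' := by
  induction n with
  | zero => intro g g'; rfl
  | succ n ih =>
    intro g g'
    simp only [tot]
    rw [← Finset.sum_add_distrib]
    exact Finset.sum_congr rfl fun x _ => ih _ _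

lemma tot_const {X : Type} (D : Finset X) (c : ℝ) (n : ℕ) :
    tot D n (fun _ => c) = c * (D.card : ℝ) ^ n := by
  induction n with
  | zero => simp [tot]
  | succ n ih =>
    simp only [tot, ih]
    rw [Finset.sum_const, nsmul_eq_mul]
    ring

lemma tot_ex {X : Type} (D : Finset X) (n : ℕ) : ∀ g : List X → ℝ, tot D n g < (D.card : ℝ) ^ n →
    ∃ l : List X, l.length = n ∧ (∀ x ∈ l, x ∈ D) ∧ g l < 1 := by
  induction n with
  | zero => intro g h; exact ⟨[], rfl, by simp, by simpa [tot] using h⟩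
  | succ n ih =>
    intro g h
    have h1 : ∑ x ∈ D, tot D n (fun l => g (x :: l)) < ∑ _x ∈ D, (D.card : ℝ) ^ n := by
      rw [Finset.sum_const, nsmul_eq_mul, ← pow_succ']
      exact h
    obtain ⟨x, hx, h2⟩ := Finset.exists_lt_of_sum_lt h1
    obtain ⟨l, h3, h4, h5⟩ := ih _ h2
    refine ⟨x :: l, by rw [List.length_cons, h3], fun y hy => ?_, h5⟩
    rcases List.mem_cons.1 hy with rfl | hy
    · exact hx
    · exact h4 y hy

lemma tot_cnt (D : Finset ((Fin τ → F) × (Fin τ → F))) (hD : ∀ x ∈ D, x.1 ⬝ᵥ x.2 ≠ 0) (θ : ℕ)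
    (hθ : (1 - 1 / (2 * (Fintype.card F : ℝ))) ^ θ * Fintype.card (Fin τ → F) ≤ 1) (ρ : ℝ)
    (hρ0 : 0 ≤ ρ) (hρ : 5 * (Fintype.card F : ℝ) ^ 2 * Fintype.card (Fin τ → F) ≤ ρ * D.card)
    (n : ℕ) : ∀ (k : ℕ) (B : Finset (Fin τ → F)), B.Nonempty → 0 ∉ B →
      tot D n (fun l => (cnt l k B : ℝ)) ≤
        n.choose k * ρ ^ k * (D.card : ℝ) ^ n * (B.card : ℝ) ^ θ := by
  have one : ∀ B : Finset (Fin τ → F), B.Nonempty → (1 : ℝ) ≤ (B.card : ℝ) ^ θ := fun B hB =>
    one_le_pow₀ (by exact_mod_cast hB.card_pos)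
  have z : ∀ (n : ℕ) (B : Finset (Fin τ → F)), B.Nonempty → tot D n (fun l => (cnt l 0 B : ℝ)) ≤
      n.choose 0 * ρ ^ 0 * (D.card : ℝ) ^ n * (B.card : ℝ) ^ θ := by
    intro n B hB
    simp only [cnt_zero, tot_const, Nat.choose_zero_right, Nat.cast_one, pow_zero, one_mul]
    exact le_mul_of_one_le_right (by positivity) (one B hB)
  induction n with
  | zero =>
    intro k B hB _
    rcases k with _ | k
    · exact z 0 B hB
    · simp [tot, cnt]
  | succ n ih =>
    intro k B hB h0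
    rcases k with _ | k
    · exact z _ B hB
    have t : ∀ x ∈ D, tot D n (fun l => (cnt (x :: l) (k + 1) B : ℝ)) ≤
        n.choose (k + 1) * ρ ^ (k + 1) * (D.card : ℝ) ^ n * (B.card : ℝ) ^ θ +
        n.choose k * ρ ^ k * (D.card : ℝ) ^ n * (if x.2 ∈ B then
          ((B.filter (fun b => x.1 ⬝ᵥ b ≠ 0)).card : ℝ) ^ θ else 0) := by
      intro x hx
      simp only [cnt, Nat.cast_add]
      rw [tot_add]
      refine add_le_add (ih _ B hB h0) ?_
      by_cases h : x.2 ∈ B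
      · simp only [if_pos h]
        exact ih k _ ⟨x.2, mem_filter.2 ⟨h, hD x hx⟩⟩ fun h1 => h0 (mem_filter.1 h1).1
      · simp only [if_neg h, Nat.cast_zero, tot_const, zero_mul, mul_zero, le_refl]
    have s : ∑ x ∈ D, (if x.2 ∈ B then ((B.filter (fun b => x.1 ⬝ᵥ b ≠ 0)).card : ℝ) ^ θ else 0) ≤
        ρ * D.card * (B.card : ℝ) ^ θ := by
      refine (Finset.sum_le_sum_of_subset_of_nonneg (Finset.subset_univ D) fun x _ _ => ?_).trans ?_
      · split_ifs <;> positivity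
      · rw [Fintype.sum_prod_type]
        simp only [Finset.sum_ite_mem, Finset.univ_inter, Finset.sum_const, nsmul_eq_mul]
        rw [← Finset.mul_sum]
        exact (step B h0 θ hθ).trans (mul_le_mul_of_nonneg_right hρ (by positivity))
    refine (Finset.sum_le_sum t).trans ?_
    rw [Finset.sum_add_distrib, Finset.sum_const, nsmul_eq_mul, ← Finset.mul_sum,
      Nat.choose_succ_succ', Nat.cast_add]
    have h1 := mul_le_mul_of_nonneg_left s
      (by positivity : (0 : ℝ) ≤ n.choose k * ρ ^ k * (D.card : ℝ) ^ n)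
    have e : ((n.choose k : ℝ) + n.choose (k + 1)) * ρ ^ (k + 1) * (D.card : ℝ) ^ (n + 1) *
        (B.card : ℝ) ^ θ = D.card * (n.choose (k + 1) * ρ ^ (k + 1) * (D.card : ℝ) ^ n *
        (B.card : ℝ) ^ θ) + n.choose k * ρ ^ k * (D.card : ℝ) ^ n *
        (ρ * D.card * (B.card : ℝ) ^ θ) := by ring
    rw [e]
    linarith

lemma card_D (hτ : 1 ≤ τ) : (Fintype.card (Fin τ → F) : ℝ) ^ 2 / 4 ≤
    (univ.filter (fun x : (Fin τ → F) × (Fin τ → F) => x.1 ⬝ᵥ x.2 ≠ 0)).card := by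
  set Q : ℝ := (Fintype.card (Fin τ → F) : ℝ) with hQ
  have hp : (2 : ℝ) ≤ Fintype.card F := by exact_mod_cast Fintype.one_lt_card
  have : Nonempty (Fin τ) := ⟨⟨0, hτ⟩⟩
  have hQ2 : (2 : ℝ) ≤ Q := by rw [hQ]; exact_mod_cast Fintype.one_lt_card
  rw [← Finset.sum_boole, Fintype.sum_prod_type_right]
  have t : ∀ b ∈ (univ : Finset (Fin τ → F)).erase 0,
      Q / 2 ≤ ∑ a : Fin τ → F, if a ⬝ᵥ b ≠ 0 then (1 : ℝ) else 0 := by
    intro b hb
    rw [Finset.sum_boole]
    have h1 : ((univ.filter (fun a : Fin τ → F => a ⬝ᵥ b = 0)).card : ℝ) +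
        (univ.filter (fun a : Fin τ → F => a ⬝ᵥ b ≠ 0)).card = Q := by
      rw [hQ, ← Finset.card_univ]
      exact_mod_cast Finset.card_filter_add_card_filter_not (s := univ)
        (fun a : Fin τ → F => a ⬝ᵥ b = 0)
    rw [n_one (Finset.ne_of_mem_erase hb), ← hQ] at h1
    have h2 : Q / Fintype.card F ≤ Q / 2 := div_le_div_of_nonneg_left (by linarith) two_pos hp
    linarith
  have s := Finset.sum_le_sum t
  rw [Finset.sum_const, nsmul_eq_mul, Finset.cast_card_erase_of_mem (mem_univ _),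
    Finset.card_univ, ← hQ] at s
  refine le_trans ?_ (s.trans (Finset.sum_le_sum_of_subset_of_nonneg (Finset.subset_univ _)
    fun b _ _ => Finset.sum_nonneg fun a _ => by split_ifs <;> norm_num))
  nlinarith

theorem lower (hτ : 1 ≤ τ) (θ n k : ℕ)
    (hθ : (1 - 1 / (2 * (Fintype.card F : ℝ))) ^ θ * (Fintype.card F : ℝ) ^ τ ≤ 1)
    (h : (n.choose k : ℝ) * (20 * (Fintype.card F : ℝ) ^ 2 / (Fintype.card F : ℝ) ^ τ) ^ k *
      ((Fintype.card F : ℝ) ^ τ) ^ θ < 1) : n < ramsey (τ + 1) k := by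
  have eQ : (Fintype.card (Fin τ → F) : ℝ) = (Fintype.card F : ℝ) ^ τ := by
    rw [Fintype.card_fun, Fintype.card_fin, Nat.cast_pow]
  rw [← eQ] at hθ h
  have hD := card_D (F := F) hτ
  set D := univ.filter (fun x : (Fin τ → F) × (Fin τ → F) => x.1 ⬝ᵥ x.2 ≠ 0)
  set Q : ℝ := (Fintype.card (Fin τ → F) : ℝ) with hQ
  have hQ0 : 0 < Q := by rw [hQ]; exact_mod_cast Fintype.card_pos
  have hD0 : (0 : ℝ) < D.card := lt_of_lt_of_le (by positivity) hD
  have : Nonempty (Fin τ) := ⟨⟨0, hτ⟩⟩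
  have hρ0 : 0 ≤ 20 * (Fintype.card F : ℝ) ^ 2 / Q := by positivity
  have hB : ((univ : Finset (Fin τ → F)).erase 0).Nonempty := by
    obtain ⟨b, hb⟩ := exists_ne (0 : Fin τ → F)
    exact ⟨b, mem_erase.2 ⟨hb, mem_univ _⟩⟩
  have h1 := tot_cnt D (fun x hx => (mem_filter.1 hx).2) θ hθ _ hρ0 (by
    refine le_trans (le_of_eq ?_) (mul_le_mul_of_nonneg_left hD hρ0)
    rw [← hQ]
    field_simp
    ring) n k _ hB (Finset.notMem_erase _ _)
  have h2 : ((((univ : Finset (Fin τ → F)).erase 0).card : ℕ) : ℝ) ^ θ ≤ Q ^ θ :=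
    pow_le_pow_left₀ (Nat.cast_nonneg _) (by rw [hQ]; exact_mod_cast Finset.card_le_univ _) θ
  obtain ⟨l, rfl, hl, h3⟩ := tot_ex D n _ (h1.trans_lt (by
    have h4 := mul_le_mul_of_nonneg_left h2 (by positivity :
      (0 : ℝ) ≤ n.choose k * (20 * (Fintype.card F : ℝ) ^ 2 / Q) ^ k * (D.card : ℝ) ^ n)
    have h5 := mul_lt_mul_of_pos_right h (pow_pos hD0 n)
    linarith))
  let G : SimpleGraph (Fin l.length) := SimpleGraph.fromRel fun i j => i < j ∧ l[i].1 ⬝ᵥ l[j].2 = 0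
  have hG : ∀ i j : Fin l.length, i < j → (G.Adj i j ↔ l[i].1 ⬝ᵥ l[j].2 = 0) := by
    intro i j hij
    rw [SimpleGraph.fromRel_adj]
    exact ⟨fun h => h.2.elim (fun h => h.2) fun h => absurd h.1 (not_lt.2 hij.le),
      fun h => ⟨hij.ne, Or.inl ⟨hij, h⟩⟩⟩
  have := ramsey_set G (τ + 1) k univ (fun K _ hK => ?_) (fun K _ hK => ?_)
  · rwa [Finset.card_univ, Fintype.card_fin] at this
  · have li : LinearIndependent F (fun i : K => l[i.1].1) := by
      rw [linearIndependent_iff']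
      intro s g hg i hi
      by_contra h0
      obtain ⟨j, hj, hmax⟩ := Finset.exists_max_image (s.filter fun i => g i ≠ 0) (fun i => i.1)
        ⟨i, mem_filter.2 ⟨hi, h0⟩⟩
      have h4 := congrArg (fun v => v ⬝ᵥ l[j.1].2) hg
      simp only [sum_dotProduct, smul_dotProduct, zero_dotProduct, smul_eq_mul] at h4
      rw [Finset.sum_eq_single_of_mem j (mem_filter.1 hj).1] at h4
      · exact mul_ne_zero (mem_filter.1 hj).2 (mem_filter.1 (hl _ (List.getElem_mem _))).2 h4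
      · intro i' hi' hne
        by_cases h5 : g i' = 0
        · rw [h5, zero_mul]
        · have h6 : i'.1 ≠ j.1 := fun e => hne (Subtype.ext e)
          rw [(hG _ _ (lt_of_le_of_ne (hmax i' (mem_filter.2 ⟨hi', h5⟩)) h6)).1
            (hK.1 i'.2 j.2 h6), mul_zero]
    have h4 := li.fintype_card_le_finrank
    rw [Fintype.card_coe, hK.2, Module.finrank_fin_fun] at h4
    omega
  · have hs : (K.sort (· ≤ ·)).Pairwise (· < ·) := (Finset.sortedLT_sort K).pairwise
    have h4 := cnt_pos (List.map_getElem_sublist hs) ((univ : Finset (Fin τ → F)).erase 0)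
      (fun y hy => ?_) ?_
    · rw [List.length_map, Finset.length_sort, hK.2] at h4
      have h5 : (1 : ℝ) ≤ cnt l k ((univ : Finset (Fin τ → F)).erase 0) := by exact_mod_cast h4
      linarith
    · obtain ⟨i, _, rfl⟩ := List.mem_map.1 hy
      refine mem_erase.2 ⟨fun e => (mem_filter.1 (hl _ (List.getElem_mem i.2))).2 ?_, mem_univ _⟩
      exact (congrArg (fun v => l[i].1 ⬝ᵥ v) e).trans (dotProduct_zero _)
    · rw [List.pairwise_map]
      refine hs.imp_of_mem fun {i j} hi hj hij e => ?_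
      exact (hK.1 ((Finset.mem_sort _).1 hi) ((Finset.mem_sort _).1 hj) hij.ne).2
        ((hG i j hij).2 e)

end Pool.Agent.Lib.MP_904cf4_co.AF
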