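import Mathlib

set_option autoImplicit false

namespace Pool.Agent.Lib.MP_904cf4_co

open SimpleGraph

/-- `G → H`: for every 2-colouring of the edges of `G` (red graph `R`, blue graph `G \ R`) there is
a monochromatic copy of `H`. -/
def Arrows {V W : Type} (G : SimpleGraph V) (H : SimpleGraph W) : Prop :=
  ∀ R : SimpleGraph V, R ≤ G → H.IsContained R ∨ H.IsContained (G \ R)

/-- Ramsey-equivalence -/
def RamseyEquiv {W₁ W₂ : Type} (H₁ : SimpleGraph W₁) (H₂ : SimpleGraph W₂) : Prop :=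
  ∀ (V : Type) [Fintype V] (G : SimpleGraph V), Arrows G H₁ ↔ Arrows G H₂

/-- `K_k + f • K_t` -/
def cliquePlus (k f t : ℕ) : SimpleGraph (Fin k ⊕ Fin f × Fin t) :=
  (⊤ : SimpleGraph (Fin k)).sum ((⊥ : SimpleGraph (Fin f)).boxProd (⊤ : SimpleGraph (Fin t)))

/-- `f(k,t)` -/
noncomputable def fkt (k t : ℕ) : ℕ :=
  sSup {f | RamseyEquiv (⊤ : SimpleGraph (Fin k)) (cliquePlus k f t)}

/-- the two-colour Ramsey number -/
noncomputable def ramsey (a b : ℕ) : ℕ :=
  sInf {n | ∀ G : SimpleGraph (Fin n), ¬ G.CliqueFree a ∨ ¬ Gᶜ.CliqueFree b}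

end Pool.Agent.Lib.MP_904cf4_co
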