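import Mathlib
import Pool.Agent.Lib.MP_904cf4_co.Defs

set_option autoImplicit false

namespace Pool.Agent.Lib.MP_904cf4_co

open SimpleGraph

lemma es_bound {V : Type} (G : SimpleGraph V) : ∀ (n a b : ℕ), a + b = n → ∀ A : Finset V,
    (a + b).choose a ≤ A.card → ¬ G.CliqueFreeOn A (a + 1) ∨ ¬ Gᶜ.CliqueFreeOn A (b + 1) := by
  classical
  intro n
  induction n with
  | zero =>
    intro a b hab A hA
    have ha : a = 0 := by omega
    have hb : b = 0 := by omega
    subst ha hb
    obtain ⟨v, hv⟩ : A.Nonempty := Finset.card_pos.1 (by simpa using hA)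
    exact Or.inl (fun h => h (t := {v}) (by simpa using hv) (by simp))
  | succ n ih =>
    intro a b hab A hA
    have hpos : 0 < (a + b).choose a := Nat.choose_pos (by omega)
    obtain ⟨v, hv⟩ : A.Nonempty := Finset.card_pos.1 (by omega)
    rcases a with _ | a
    · exact Or.inl (fun h => h (t := {v}) (by simpa using hv) (by simp))
    rcases b with _ | b
    · exact Or.inr (fun h => h (t := {v}) (by simpa using hv) (by simp))
    by_contra hcon
    push Not at hcon
    obtain ⟨h1, h2⟩ := hcon
    have h3 := CliqueFreeOn.of_succ _ h1 (a := v) (by simpa using hv)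
    have h4 := CliqueFreeOn.of_succ _ h2 (a := v) (by simpa using hv)
    set A1 := A.filter (fun u => G.Adj v u) with hA1
    set A2 := A.filter (fun u => Gᶜ.Adj v u) with hA2
    have c1 : A1.card < (a + (b + 1)).choose a := by
      by_contra hc
      rcases ih a (b + 1) (by omega) A1 (by omega) with h | h
      · exact h (CliqueFreeOn.subset _ (fun u hu => by simpa [hA1] using hu) h3)
      · exact h (CliqueFreeOn.subset _
          (fun u hu => (Finset.mem_filter.1 (Finset.mem_coe.1 hu)).1) h2)
    have c2 : A2.card < (a + 1 + b).choose (a + 1) := by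
      by_contra hc
      rcases ih (a + 1) b (by omega) A2 (by omega) with h | h
      · exact h (CliqueFreeOn.subset _
          (fun u hu => (Finset.mem_filter.1 (Finset.mem_coe.1 hu)).1) h1)
      · exact h (CliqueFreeOn.subset _ (fun u hu => by
          have := Finset.mem_filter.1 (Finset.mem_coe.1 hu)
          exact ⟨this.1, this.2⟩) h4)
    have c3 : A ⊆ insert v (A1 ∪ A2) := by
      intro u hu
      by_cases e : u = v
      · simp [e]
      · by_cases h : G.Adj v u
        · simp [hA1, hu, h]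
        · simp [hA2, hu, h, Ne.symm e]
    have c4 := Finset.card_le_card c3
    have c5 := Finset.card_insert_le v (A1 ∪ A2)
    have c6 := Finset.card_union_le A1 A2
    have c7 : (a + 1 + (b + 1)).choose (a + 1) =
        (a + (b + 1)).choose a + (a + 1 + b).choose (a + 1) := by
      rw [show a + 1 + (b + 1) = (a + (b + 1)) + 1 by ring, Nat.choose_succ_succ',
        show a + 1 + b = a + (b + 1) by ring]
    omega

lemma ramsey_mem_of_choose (a b : ℕ) : (a + b).choose a ∈
    {n | ∀ G : SimpleGraph (Fin n), ¬ G.CliqueFree (a + 1) ∨ ¬ Gᶜ.CliqueFree (b + 1)} := by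
  intro G
  rcases es_bound G _ a b rfl Finset.univ (by simp) with h | h
  · exact Or.inl (fun h' => h h'.cliqueFreeOn)
  · exact Or.inr (fun h' => h h'.cliqueFreeOn)

lemma ramsey_le_choose (a b : ℕ) : ramsey (a + 1) (b + 1) ≤ (a + b).choose a :=
  Nat.sInf_le (ramsey_mem_of_choose a b)

lemma ramsey_nonempty (a b : ℕ) :
    {n | ∀ G : SimpleGraph (Fin n), ¬ G.CliqueFree a ∨ ¬ Gᶜ.CliqueFree b}.Nonempty := by
  rcases a with _ | a
  · exact ⟨0, fun G => Or.inl (by simp)⟩
  rcases b with _ | b
  · exact ⟨0, fun G => Or.inr (by simp)⟩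
  exact ⟨_, ramsey_mem_of_choose a b⟩

lemma ramsey_set {V : Type} (G : SimpleGraph V) (a b : ℕ) (A : Finset V)
    (h1 : G.CliqueFreeOn A a) (h2 : Gᶜ.CliqueFreeOn A b) : A.card < ramsey a b := by
  classical
  by_contra hcon
  obtain ⟨B, hB, hc⟩ := Finset.exists_subset_card_eq (not_lt.1 hcon)
  let e : Fin (ramsey a b) ↪ V :=
    ((B.equivFinOfCardEq hc).symm.toEmbedding).trans (Function.Embedding.subtype _)
  have he : ∀ i, e i ∈ A := fun i => hB ((B.equivFinOfCardEq hc).symm i).2
  have key : ∀ (H : SimpleGraph V) (c : ℕ), H.CliqueFreeOn A c → (H.comap e).CliqueFree c := by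
    intro H c hH K hK
    refine hH (t := K.map e) ?_ ⟨?_, by rw [Finset.card_map]; exact hK.2⟩
    · intro v hv
      obtain ⟨i, -, rfl⟩ := Finset.mem_map.1 (Finset.mem_coe.1 hv)
      exact he i
    · intro u hu v hv huv
      obtain ⟨i, hi, rfl⟩ := Finset.mem_map.1 (Finset.mem_coe.1 hu)
      obtain ⟨j, hj, rfl⟩ := Finset.mem_map.1 (Finset.mem_coe.1 hv)
      exact hK.1 hi hj (fun e' => huv (by rw [e']))
  rcases Nat.sInf_mem (ramsey_nonempty a b) (G.comap e) with h | h
  · exact h (key G a h1)
  · refine h ((key Gᶜ b h2).anti ?_)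
    intro i j hij
    exact ⟨fun e' => hij.1 (e.injective e'), hij.2⟩

lemma exists_good_on {V : Type} (a b : ℕ) (A : Finset V) (h : A.card < ramsey a b) :
    ∃ P : SimpleGraph V, P.CliqueFreeOn A a ∧ Pᶜ.CliqueFreeOn A b := by
  classical
  have h1 := Nat.notMem_of_lt_sInf h
  simp only [Set.mem_ofPred_eq, not_forall, not_or, not_not] at h1
  obtain ⟨Γ, h2, h3⟩ := h1
  let e : Fin A.card ↪ V := (A.equivFin.symm.toEmbedding).trans (Function.Embedding.subtype _)
  have he : ∀ v ∈ A, ∃ i, e i = v := fun v hv => ⟨A.equivFin ⟨v, hv⟩, by simp [e]⟩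
  have key : ∀ K : Finset V, (K : Set V) ⊆ A → (K.preimage e e.injective.injOn).card = K.card := by
    intro K hK
    rw [Finset.card_preimage, Finset.filter_true_of_mem]
    intro v hv
    exact he v (hK hv)
  refine ⟨Γ.map e, ?_, ?_⟩
  · intro K hK hc
    refine h2 (K.preimage e e.injective.injOn) ⟨?_, by rw [key K hK]; exact hc.2⟩
    intro i hi j hj hij
    have := hc.1 (Finset.mem_preimage.1 hi) (Finset.mem_preimage.1 hj) (e.injective.ne hij)
    exact SimpleGraph.map_adj_apply.1 this
  · intro K hK hc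
    refine h3 (K.preimage e e.injective.injOn) ⟨?_, by rw [key K hK]; exact hc.2⟩
    intro i hi j hj hij
    have := hc.1 (Finset.mem_preimage.1 hi) (Finset.mem_preimage.1 hj) (e.injective.ne hij)
    exact ⟨hij, fun h => this.2 (SimpleGraph.map_adj_apply.2 h)⟩

lemma card_lt_of_clique {V : Type} {G : SimpleGraph V} {A : Set V} {a : ℕ}
    (h : G.CliqueFreeOn A a) {K : Finset V} (hK : (K : Set V) ⊆ A) (hc : G.IsClique K) :
    K.card < a := by
  by_contra hcon
  exact (CliqueFreeOn.mono _ (not_lt.1 hcon) h) hK ⟨hc, rfl⟩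

lemma ramsey_mono {a a' b b' : ℕ} (ha : a ≤ a') (hb : b ≤ b') : ramsey a b ≤ ramsey a' b' := by
  refine Nat.sInf_le (fun G => ?_)
  rcases Nat.sInf_mem (ramsey_nonempty a' b') G with h | h
  · exact Or.inl (fun h' => h (h'.mono ha))
  · exact Or.inr (fun h' => h (h'.mono hb))

lemma ramsey_comm (a b : ℕ) : ramsey a b = ramsey b a := by
  have key : ∀ a b, ramsey a b ≤ ramsey b a := by
    intro a b
    refine Nat.sInf_le (fun G => ?_)
    rcases Nat.sInf_mem (ramsey_nonempty b a) Gᶜ with h | h
    · exact Or.inr h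
    · rw [compl_compl] at h; exact Or.inl h
  exact le_antisymm (key a b) (key b a)

end Pool.Agent.Lib.MP_904cf4_co
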