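import Pool.Agent.Lib.MP_904cf4_co.AntiFlag

/-! A lower bound for off-diagonal Ramsey numbers from the flag graph (Bradac), uniform in the
clique size. -/

set_option autoImplicit false

namespace Pool.Agent.Lib.MP_904cf4_co.FL

open Finset

section Generic

variable {X σ : Type}

/-- number of valid subsequences of length `k` from the state `A` -/
def cnt (ok : X → σ → Bool) (upd : X → σ → σ) : List X → ℕ → σ → ℕ
  | [], k, _ => if k = 0 then 1 else 0
  | _ :: _, 0, _ => 1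
  | x :: l, k + 1, A => cnt ok upd l (k + 1) A + if ok x A then cnt ok upd l k (upd x A) else 0

lemma cnt_zero (ok : X → σ → Bool) (upd : X → σ → σ) (l : List X) (A : σ) :
    cnt ok upd l 0 A = 1 := by
  cases l <;> rfl

lemma cnt_pos (ok : X → σ → Bool) (upd : X → σ → σ) (r : X → X → Prop)
    (hr : ∀ x y A, r x y → ok y A = true → ok y (upd x A) = true) {l' l : List X}
    (h : l'.Sublist l) : ∀ A : σ, (∀ y ∈ l', ok y A = true) → l'.Pairwise r →
      1 ≤ cnt ok upd l l'.length A := by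
  induction h with
  | slnil => intro A _ _; exact (cnt_zero _ _ _ _).ge
  | @cons l₁ l₂ x _ ih =>
    intro A h1 h2
    have := ih A h1 h2
    rcases hk : l₁.length with _ | k
    · exact (cnt_zero _ _ _ _).ge
    · rw [hk] at this
      exact this.trans (Nat.le_add_right _ _)
  | @cons_cons l₁ l₂ x _ ih =>
    intro A h1 h2
    rw [List.pairwise_cons] at h2
    have := ih (upd x A) (fun y hy =>
      hr x y A (h2.1 y hy) (h1 y (List.mem_cons_of_mem _ hy))) h2.2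
    rw [List.length_cons, cnt, if_pos (h1 x List.mem_cons_self)]
    exact this.trans (Nat.le_add_left _ _)

lemma tot_cnt (ok : X → σ → Bool) (upd : X → σ → σ) (D : Finset X) (I : σ → Prop) (Φ : σ → ℝ)
    (ρ : ℝ) (hρ0 : 0 ≤ ρ) (hI : ∀ x A, I A → I (upd x A)) (one : ∀ A, 1 ≤ Φ A)
    (hs : ∀ A, I A → ∑ x ∈ D, (if ok x A then Φ (upd x A) else 0) ≤ ρ * D.card * Φ A)
    (n : ℕ) : ∀ (k : ℕ) (A : σ), I A → AF.tot D n (fun l => (cnt ok upd l k A : ℝ)) ≤
      n.choose k * ρ ^ k * (D.card : ℝ) ^ n * Φ A := by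
  have z : ∀ (n : ℕ) (A : σ), AF.tot D n (fun l => (cnt ok upd l 0 A : ℝ)) ≤
      n.choose 0 * ρ ^ 0 * (D.card : ℝ) ^ n * Φ A := by
    intro n A
    simp only [cnt_zero, AF.tot_const, Nat.choose_zero_right, Nat.cast_one, pow_zero, one_mul]
    exact le_mul_of_one_le_right (by positivity) (one A)
  induction n with
  | zero =>
    intro k A _
    rcases k with _ | k
    · exact z 0 A
    · simp [AF.tot, cnt]
  | succ n ih =>
    intro k A hA
    rcases k with _ | k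
    · exact z _ A
    have t : ∀ x ∈ D, AF.tot D n (fun l => (cnt ok upd (x :: l) (k + 1) A : ℝ)) ≤
        n.choose (k + 1) * ρ ^ (k + 1) * (D.card : ℝ) ^ n * Φ A +
        n.choose k * ρ ^ k * (D.card : ℝ) ^ n * (if ok x A then Φ (upd x A) else 0) := by
      intro x _
      simp only [cnt, Nat.cast_add]
      rw [AF.tot_add]
      refine add_le_add (ih _ A hA) ?_
      by_cases h : ok x A = true
      · simp only [if_pos h]
        exact ih k _ (hI x A hA)
      · simp only [if_neg h, Nat.cast_zero, AF.tot_const, zero_mul, mul_zero, le_refl]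
    refine (Finset.sum_le_sum t).trans ?_
    rw [Finset.sum_add_distrib, Finset.sum_const, nsmul_eq_mul, ← Finset.mul_sum,
      Nat.choose_succ_succ', Nat.cast_add]
    have h1 := mul_le_mul_of_nonneg_left (hs A hA)
      (by positivity : (0 : ℝ) ≤ n.choose k * ρ ^ k * (D.card : ℝ) ^ n)
    have e : ((n.choose k : ℝ) + n.choose (k + 1)) * ρ ^ (k + 1) * (D.card : ℝ) ^ (n + 1) *
        Φ A = D.card * (n.choose (k + 1) * ρ ^ (k + 1) * (D.card : ℝ) ^ n * Φ A) +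
        n.choose k * ρ ^ k * (D.card : ℝ) ^ n * (ρ * D.card * Φ A) := by ring
    rw [e]
    linarith

end Generic

variable {F : Type} [Field F] [Fintype F] [DecidableEq F] {τ : ℕ}

/-- the dimension of a subspace given as a finite set -/
def lev (S : Finset (Fin τ → F)) : ℕ := Nat.log (Fintype.card F) S.card

/-- subspaces as finite sets -/
def Cl (S : Finset (Fin τ → F)) : Prop :=
  0 ∈ S ∧ (∀ x ∈ S, ∀ y ∈ S, ∀ c : F, x + c • y ∈ S) ∧ S.card = Fintype.card F ^ lev S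

omit [DecidableEq F] in
lemma cl_univ : Cl (univ : Finset (Fin τ → F)) := by
  refine ⟨mem_univ _, fun _ _ _ _ _ => mem_univ _, ?_⟩
  rw [lev, card_univ, Fintype.card_fun, Fintype.card_fin, Nat.log_pow Fintype.one_lt_card]

lemma split' {S : Finset (Fin τ → F)} (hS : Cl S) {b : Fin τ → F} (h : ¬ ∀ x ∈ S, x ⬝ᵥ b = 0) :
    S.card = Fintype.card F * (S.filter (fun x => x ⬝ᵥ b = 0)).card := by
  push Not at h
  obtain ⟨x, hx, hb⟩ := h
  refine AF.split S b ((x ⬝ᵥ b)⁻¹ • x) ?_ fun y hy c => ?_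
  · rw [smul_dotProduct, smul_eq_mul, inv_mul_cancel₀ hb]
  · rw [smul_smul]
    exact hS.2.1 y hy x hx _

lemma cut {S : Finset (Fin τ → F)} (hS : Cl S) (b : Fin τ → F) :
    Cl (S.filter (fun x => x ⬝ᵥ b = 0)) ∧ lev (S.filter (fun x => x ⬝ᵥ b = 0)) ≤ lev S ∧
      ((¬ ∀ x ∈ S, x ⬝ᵥ b = 0) → lev (S.filter (fun x => x ⬝ᵥ b = 0)) + 1 = lev S) := by
  by_cases h : ∀ x ∈ S, x ⬝ᵥ b = 0
  · rw [filter_true_of_mem h]
    exact ⟨hS, le_rfl, fun h' => absurd h h'⟩
  have h1 := split' hS h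
  have hq : 1 < Fintype.card F := Fintype.one_lt_card
  have h2 := hS.2.2
  have h3 : lev S ≠ 0 := by
    intro e
    rw [e, pow_zero, h1] at h2
    have := Nat.eq_one_of_mul_eq_one_right h2
    omega
  obtain ⟨j, hj⟩ := Nat.exists_eq_succ_of_ne_zero h3
  have h4 : (S.filter (fun x => x ⬝ᵥ b = 0)).card = Fintype.card F ^ j := by
    rw [hj, h1, pow_succ'] at h2
    exact Nat.eq_of_mul_eq_mul_left (by omega) h2
  have h5 : lev (S.filter (fun x => x ⬝ᵥ b = 0)) = j := by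
    rw [lev, h4, Nat.log_pow hq]
  refine ⟨⟨mem_filter.2 ⟨hS.1, zero_dotProduct _⟩, fun x hx y hy c => mem_filter.2
    ⟨hS.2.1 x (mem_filter.1 hx).1 y (mem_filter.1 hy).1 c, ?_⟩, by rw [h5, h4]⟩, by omega,
    fun _ => by omega⟩
  rw [add_dotProduct, smul_dotProduct, (mem_filter.1 hx).2, (mem_filter.1 hy).2, smul_zero,
    add_zero]

omit [DecidableEq F] in
lemma lev_le (S : Finset (Fin τ → F)) : lev S ≤ τ := by
  have h : lev S ≤ Nat.log (Fintype.card F) (Fintype.card (Fin τ → F)) :=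
    Nat.log_mono_right (card_le_univ S)
  rwa [Fintype.card_fun, Fintype.card_fin, Nat.log_pow Fintype.one_lt_card] at h

lemma ann {S : Finset (Fin τ → F)} (hS : Cl S) :
    ((univ.filter (fun b : Fin τ → F => ∀ x ∈ S, x ⬝ᵥ b = 0)).card : ℝ) * S.card =
      Fintype.card (Fin τ → F) := by
  set p : ℝ := (Fintype.card F : ℝ) with hpd
  set Q : ℝ := (Fintype.card (Fin τ → F) : ℝ) with hQ
  have hp : 2 ≤ p := by rw [hpd]; exact_mod_cast Fintype.one_lt_card
  have e1 : ∑ b : Fin τ → F, ∑ x ∈ S, (if x ⬝ᵥ b = 0 then (1 : ℝ) else 0) =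
      ∑ b : Fin τ → F, (S.card / p +
        (if ∀ x ∈ S, x ⬝ᵥ b = 0 then (1 : ℝ) else 0) * (S.card - S.card / p)) := by
    refine Finset.sum_congr rfl fun b _ => ?_
    rw [Finset.sum_boole]
    split_ifs with h
    · rw [filter_true_of_mem h]
      ring
    · have h1 : (S.card : ℝ) = p * (S.filter (fun x => x ⬝ᵥ b = 0)).card := by
        rw [hpd]
        exact_mod_cast split' hS h
      rw [zero_mul, add_zero, eq_div_iff (by linarith)]
      linarith
  have e2 : ∑ x ∈ S, ∑ b : Fin τ → F, (if x ⬝ᵥ b = 0 then (1 : ℝ) else 0) =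
      ∑ x ∈ S, (Q / p + (if x = 0 then (1 : ℝ) else 0) * (Q - Q / p)) := by
    refine Finset.sum_congr rfl fun x _ => ?_
    rw [Finset.sum_boole]
    split_ifs with h
    · rw [filter_true_of_mem fun b _ => by rw [h, zero_dotProduct], card_univ]
      ring
    · rw [zero_mul, add_zero, ← AF.n_one h]
      simp only [dotProduct_comm x]
  rw [Finset.sum_comm, e2, Finset.sum_add_distrib, Finset.sum_add_distrib, ← Finset.sum_mul,
    ← Finset.sum_mul, Finset.sum_boole, Finset.sum_boole, Finset.sum_const, Finset.sum_const,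
    nsmul_eq_mul, nsmul_eq_mul, card_univ, ← hQ, filter_eq', if_pos hS.1, card_singleton] at e1
  have h1 : (p - 1) * (((univ.filter (fun b : Fin τ → F => ∀ x ∈ S, x ⬝ᵥ b = 0)).card : ℝ) *
      S.card) = (p - 1) * Q := by
    field_simp at e1
    push_cast at e1
    linear_combination -e1
  exact mul_left_cancel₀ (by linarith) h1

/-- update of the state after the flag `x` -/
def upd (x : (Fin τ → F) × (Fin τ → F)) (A : (Fin τ → F) → Finset (Fin τ → F)) :
    (Fin τ → F) → Finset (Fin τ → F) :=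
  fun y => if x.1 ⬝ᵥ y = 0 then (A y).filter (fun z => z ⬝ᵥ x.2 = 0) else A y

/-- points of level at least `j` -/
def Z (A : (Fin τ → F) → Finset (Fin τ → F)) (j : ℕ) : Finset (Fin τ → F) :=
  (univ.erase 0).filter (fun y => j ≤ lev (A y))

/-- potential of level `j` -/
def psi (A : (Fin τ → F) → Finset (Fin τ → F)) (j : ℕ) : ℕ :=
  ∑ y ∈ univ.erase 0, (lev (A y) + 1 - j)

/-- the invariant -/
def Inv (A : (Fin τ → F) → Finset (Fin τ → F)) : Prop :=
  ∀ y, Cl (A y) ∧ ∀ x ∈ A y, x ⬝ᵥ y = 0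

lemma inv_upd (x : (Fin τ → F) × (Fin τ → F)) (A : (Fin τ → F) → Finset (Fin τ → F))
    (h : Inv A) : Inv (upd x A) := by
  intro y
  unfold upd
  split_ifs
  · exact ⟨(cut (h y).1 _).1, fun z hz => (h y).2 z (mem_filter.1 hz).1⟩
  · exact h y

lemma lev_upd (x : (Fin τ → F) × (Fin τ → F)) {A : (Fin τ → F) → Finset (Fin τ → F)}
    (h : Inv A) (y : Fin τ → F) : lev (upd x A y) ≤ lev (A y) := by
  unfold upd
  split_ifs
  · exact (cut (h y).1 _).2.1
  · exact le_rfl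

lemma psi_drop (x : (Fin τ → F) × (Fin τ → F)) {A : (Fin τ → F) → Finset (Fin τ → F)}
    (h : Inv A) (j : ℕ) : psi (upd x A) j + ((Z A j).filter
      (fun y => x.1 ⬝ᵥ y = 0 ∧ ¬ ∀ z ∈ A y, z ⬝ᵥ x.2 = 0)).card ≤ psi A j := by
  rw [Z, filter_filter, card_filter, psi, psi, ← Finset.sum_add_distrib]
  refine Finset.sum_le_sum fun y _ => ?_
  split_ifs with h1
  · have h2 := (cut (h y).1 x.2).2.2 h1.2.2
    have h3 : upd x A y = (A y).filter (fun z => z ⬝ᵥ x.2 = 0) := if_pos h1.2.1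
    rw [h3]
    omega
  · have := lev_upd x h y
    omega

lemma psi_le (A : (Fin τ → F) → Finset (Fin τ → F)) {j : ℕ} (hj : 1 ≤ j) :
    psi A j ≤ τ * (Z A j).card := by
  rw [Z, card_filter, psi, Finset.mul_sum]
  refine Finset.sum_le_sum fun y _ => ?_
  have := lev_le (A y)
  split_ifs <;> omega

/-- a step that is neither poor nor popular decreases the potential -/
lemma rich (x : (Fin τ → F) × (Fin τ → F)) {A : (Fin τ → F) → Finset (Fin τ → F)}
    (h : Inv A) {j : ℕ} (hj : 1 ≤ j) (hx : x.2 ∈ Z A j)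
    (h1 : ¬ 2 * (Fintype.card F : ℝ) * ((Z A j).filter (fun y => x.1 ⬝ᵥ y = 0)).card <
      (Z A j).card)
    (h2 : ¬ ((Z A j).card : ℝ) ≤ 4 * Fintype.card F *
      ((Z A j).filter (fun y => ∀ z ∈ A y, z ⬝ᵥ x.2 = 0)).card) :
    (psi (upd x A) j : ℝ) + 1 ≤ (1 - 1 / (8 * Fintype.card F * τ)) * (psi A j + 1) := by
  set p : ℝ := (Fintype.card F : ℝ) with hpd
  have hp : 2 ≤ p := by rw [hpd]; exact_mod_cast Fintype.one_lt_card
  have hτ : (1 : ℝ) ≤ τ := by exact_mod_cast hj.trans ((mem_filter.1 hx).2.trans (lev_le _))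
  have h3 : ((Z A j).filter (fun y => x.1 ⬝ᵥ y = 0)).card ≤ ((Z A j).filter
      (fun y => x.1 ⬝ᵥ y = 0 ∧ ¬ ∀ z ∈ A y, z ⬝ᵥ x.2 = 0)).card +
      ((Z A j).filter (fun y => ∀ z ∈ A y, z ⬝ᵥ x.2 = 0)).card := by
    refine le_trans (card_le_card fun y hy => ?_) (card_union_le _ _)
    by_cases e : ∀ z ∈ A y, z ⬝ᵥ x.2 = 0
    · exact mem_union_right _ (mem_filter.2 ⟨(mem_filter.1 hy).1, e⟩)
    · exact mem_union_left _ (mem_filter.2 ⟨(mem_filter.1 hy).1, (mem_filter.1 hy).2, e⟩)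
  have h4 : 1 ≤ psi A j := by
    have h5 := Finset.single_le_sum (f := fun y => lev (A y) + 1 - j) (fun _ _ => Nat.zero_le _)
      (mem_filter.1 hx).1
    have h6 := (mem_filter.1 hx).2
    unfold psi
    omega
  have h3' := (Nat.cast_le (α := ℝ)).2 h3
  have h4' := (Nat.cast_le (α := ℝ)).2 h4
  have h5 := (Nat.cast_le (α := ℝ)).2 (psi_drop x h j)
  have h6 := (Nat.cast_le (α := ℝ)).2 (psi_le A hj)
  push_cast at h3' h4' h5 h6
  set m : ℝ := (((Z A j).filter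
      (fun y => x.1 ⬝ᵥ y = 0 ∧ ¬ ∀ z ∈ A y, z ⬝ᵥ x.2 = 0)).card : ℝ)
  have h7 : ((Z A j).card : ℝ) ≤ 4 * p * m := by
    have := mul_le_mul_of_nonneg_left h3' (by linarith : 0 ≤ 4 * p)
    linarith [not_lt.1 h1, not_le.1 h2]
  have h8 : (psi A j : ℝ) + 1 ≤ 8 * p * τ * m := by
    have := mul_le_mul_of_nonneg_left h7 (by linarith : (0 : ℝ) ≤ τ)
    linarith
  have h9 : 1 / (8 * p * τ) * (psi A j + 1) ≤ m := by
    rw [one_div, inv_mul_le_iff₀ (by positivity)]
    exact h8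
  linarith

lemma poor (B : Finset (Fin τ → F)) (hB : 0 ∉ B) :
    (((univ : Finset ((Fin τ → F) × (Fin τ → F))).filter (fun x => x.2 ∈ B ∧ x.1 ⬝ᵥ x.2 = 0 ∧
      2 * (Fintype.card F : ℝ) * (B.filter (fun y => x.1 ⬝ᵥ y = 0)).card < B.card)).card : ℝ) ≤
      2 * Fintype.card F * Fintype.card (Fin τ → F) := by
  have hc := AF.cheb B hB
  set p : ℝ := (Fintype.card F : ℝ) with hpd
  have hp : 2 ≤ p := by rw [hpd]; exact_mod_cast Fintype.one_lt_card
  rw [← Finset.sum_boole, Fintype.sum_prod_type]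
  have t : ∀ a : Fin τ → F, ∑ b : Fin τ → F, (if b ∈ B ∧ a ⬝ᵥ b = 0 ∧
      2 * p * (B.filter (fun y => a ⬝ᵥ y = 0)).card < B.card then (1 : ℝ) else 0) ≤
      (if 2 * p * (B.filter (fun y => a ⬝ᵥ y = 0)).card < B.card then (1 : ℝ) else 0) *
        (B.card / (2 * p)) := by
    intro a
    rw [Finset.sum_boole]
    split_ifs with h
    · rw [one_mul, le_div_iff₀ (by linarith)]
      have h1 : (univ.filter (fun b : Fin τ → F => b ∈ B ∧ a ⬝ᵥ b = 0 ∧
          2 * p * (B.filter (fun y => a ⬝ᵥ y = 0)).card < B.card)).card ≤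
          (B.filter (fun y => a ⬝ᵥ y = 0)).card := card_le_card fun b hb =>
        mem_filter.2 ⟨(mem_filter.1 hb).2.1, (mem_filter.1 hb).2.2.1⟩
      have h2 := mul_le_mul_of_nonneg_left ((Nat.cast_le (α := ℝ)).2 h1) (by linarith : 0 ≤ 2 * p)
      linarith
    · rw [filter_false_of_mem fun b _ hb => h hb.2.2]
      simp
  refine (Finset.sum_le_sum fun a _ => t a).trans ?_
  rw [← Finset.sum_mul, Finset.sum_boole, ← mul_div_assoc, div_le_iff₀ (by linarith)]
  linarith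

lemma popular {A : (Fin τ → F) → Finset (Fin τ → F)} (h : Inv A) (j : ℕ) :
    (((univ : Finset ((Fin τ → F) × (Fin τ → F))).filter (fun x => x.2 ∈ Z A j ∧
      lev (A x.2) = j ∧ x.1 ∈ A x.2 ∧ ((Z A j).card : ℝ) ≤ 4 * Fintype.card F *
      ((Z A j).filter (fun y => ∀ z ∈ A y, z ⬝ᵥ x.2 = 0)).card)).card : ℝ) ≤
      4 * Fintype.card F * Fintype.card (Fin τ → F) := by
  set p : ℝ := (Fintype.card F : ℝ) with hpd
  set Q : ℝ := (Fintype.card (Fin τ → F) : ℝ) with hQ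
  have hp : 2 ≤ p := by rw [hpd]; exact_mod_cast Fintype.one_lt_card
  have hQ0 : 0 ≤ Q := Nat.cast_nonneg _
  rcases (Z A j).eq_empty_or_nonempty with e | e
  · rw [filter_false_of_mem fun x _ hx => by simpa [e] using hx.1]
    simp only [card_empty, Nat.cast_zero]
    positivity
  have hZ : (0 : ℝ) < (Z A j).card := by exact_mod_cast e.card_pos
  rw [← Finset.sum_boole, Fintype.sum_prod_type_right]
  have t : ∀ b : Fin τ → F, (∑ a : Fin τ → F, (if b ∈ Z A j ∧ lev (A b) = j ∧ a ∈ A b ∧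
      ((Z A j).card : ℝ) ≤ 4 * p * ((Z A j).filter (fun y => ∀ z ∈ A y, z ⬝ᵥ b = 0)).card
      then (1 : ℝ) else 0)) * (Z A j).card ≤
      4 * p * p ^ j * ∑ y ∈ Z A j, (if ∀ z ∈ A y, z ⬝ᵥ b = 0 then (1 : ℝ) else 0) := by
    intro b
    rw [Finset.sum_boole, Finset.sum_boole]
    by_cases h1 : lev (A b) = j ∧
      ((Z A j).card : ℝ) ≤ 4 * p * ((Z A j).filter (fun y => ∀ z ∈ A y, z ⬝ᵥ b = 0)).card
    · have h2 : (univ.filter (fun a : Fin τ → F => b ∈ Z A j ∧ lev (A b) = j ∧ a ∈ A b ∧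
          ((Z A j).card : ℝ) ≤ 4 * p *
          ((Z A j).filter (fun y => ∀ z ∈ A y, z ⬝ᵥ b = 0)).card)).card ≤ (A b).card :=
        card_le_card fun a ha => (mem_filter.1 ha).2.2.2.1
      have h2' : (A b).card = Fintype.card F ^ j := by rw [(h b).1.2.2, h1.1]
      rw [h2'] at h2
      have h3 := (Nat.cast_le (α := ℝ)).2 h2
      rw [Nat.cast_pow, ← hpd] at h3
      have h4 := mul_le_mul h3 h1.2 hZ.le (by positivity)
      linarith
    · rw [filter_false_of_mem fun a _ ha => h1 ⟨ha.2.1, ha.2.2.2⟩]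
      simp only [card_empty, Nat.cast_zero, zero_mul]
      positivity
  have s := Finset.sum_le_sum fun b (_ : b ∈ univ) => t b
  rw [← Finset.sum_mul, ← Finset.mul_sum, Finset.sum_comm (s := univ) (t := Z A j),
    mul_assoc (4 * p), Finset.mul_sum] at s
  have u : ∀ y ∈ Z A j, p ^ j * ∑ b : Fin τ → F,
      (if ∀ z ∈ A y, z ⬝ᵥ b = 0 then (1 : ℝ) else 0) ≤ Q := by
    intro y hy
    rw [Finset.sum_boole, hQ, ← ann (h y).1, mul_comm, (h y).1.2.2, Nat.cast_pow, ← hpd]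
    exact mul_le_mul_of_nonneg_left (pow_le_pow_right₀ (by linarith) (mem_filter.1 hy).2)
      (Nat.cast_nonneg _)
  have s' := Finset.sum_le_sum u
  rw [Finset.sum_const, nsmul_eq_mul] at s'
  refine le_of_mul_le_mul_right (s.trans ?_) hZ
  have := mul_le_mul_of_nonneg_left s' (by linarith : 0 ≤ 4 * p)
  linarith

/-- the potential -/
noncomputable def Phi (θ : ℕ) (A : (Fin τ → F) → Finset (Fin τ → F)) : ℝ :=
  (∏ j ∈ Icc 1 τ, ((psi A j : ℝ) + 1)) ^ θ

lemma one_le_Phi (θ : ℕ) (A : (Fin τ → F) → Finset (Fin τ → F)) : 1 ≤ Phi θ A :=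
  one_le_pow₀ (Finset.prod_induction _ (fun x : ℝ => 1 ≤ x) (fun _ _ => one_le_mul_of_one_le_of_one_le)
    le_rfl fun _ _ => le_add_of_nonneg_left (Nat.cast_nonneg _))

lemma Phi_upd (θ : ℕ) (x : (Fin τ → F) × (Fin τ → F)) {A : (Fin τ → F) → Finset (Fin τ → F)}
    (h : Inv A) {j : ℕ} (hj : j ∈ Icc 1 τ) (c : ℝ)
    (hc : (psi (upd x A) j : ℝ) + 1 ≤ c * (psi A j + 1)) : Phi θ (upd x A) ≤ c ^ θ * Phi θ A := by
  unfold Phi
  rw [← mul_pow, ← Finset.mul_prod_erase _ _ hj, ← Finset.mul_prod_erase _ _ hj, ← mul_assoc]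
  refine pow_le_pow_left₀ (by positivity) (mul_le_mul hc (Finset.prod_le_prod
    (fun _ _ => by positivity) fun i _ => ?_) (by positivity) (le_trans (by positivity) hc)) θ
  have h1 := (Nat.le_add_right _ _).trans (psi_drop x h i)
  have h2 := (Nat.cast_le (α := ℝ)).2 h1
  linarith

lemma step (θ : ℕ) (hτ : 1 ≤ τ)
    (hθ : (1 - 1 / (8 * (Fintype.card F : ℝ) * τ)) ^ θ * Fintype.card (Fin τ → F) ≤ 1)
    (D : Finset ((Fin τ → F) × (Fin τ → F))) (hD : ∀ x ∈ D, x.1 ≠ 0 ∧ x.2 ≠ 0)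
    {A : (Fin τ → F) → Finset (Fin τ → F)} (h : Inv A) :
    ∑ x ∈ D, (if decide (x.1 ∈ A x.2) then Phi θ (upd x A) else 0) ≤
      7 * τ * Fintype.card F * Fintype.card (Fin τ → F) * Phi θ A := by
  set p : ℝ := (Fintype.card F : ℝ) with hpd
  set Q : ℝ := (Fintype.card (Fin τ → F) : ℝ) with hQ
  have hp : 2 ≤ p := by rw [hpd]; exact_mod_cast Fintype.one_lt_card
  have hQ0 : 0 ≤ Q := Nat.cast_nonneg _
  have hτ' : (1 : ℝ) ≤ τ := by exact_mod_cast hτ
  have hP : 0 ≤ Phi θ A := zero_le_one.trans (one_le_Phi θ A)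
  have h0 : 0 ≤ 1 - 1 / (8 * p * τ) := by
    rw [sub_nonneg, div_le_one (by positivity)]
    nlinarith
  have hκ := mul_nonneg (pow_nonneg h0 θ) hP
  have t : ∀ x ∈ D, (if decide (x.1 ∈ A x.2) then Phi θ (upd x A) else 0) ≤
      (∑ j ∈ Icc 1 τ, ((if x.2 ∈ Z A j ∧ x.1 ⬝ᵥ x.2 = 0 ∧
        2 * p * ((Z A j).filter (fun y => x.1 ⬝ᵥ y = 0)).card < (Z A j).card then (1 : ℝ) else 0) +
        (if x.2 ∈ Z A j ∧ lev (A x.2) = j ∧ x.1 ∈ A x.2 ∧ ((Z A j).card : ℝ) ≤ 4 * p *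
        ((Z A j).filter (fun y => ∀ z ∈ A y, z ⬝ᵥ x.2 = 0)).card then (1 : ℝ) else 0))) *
        Phi θ A + (1 - 1 / (8 * p * τ)) ^ θ * Phi θ A := by
    intro x hx
    have nn : ∀ j ∈ Icc 1 τ, 0 ≤ ((if x.2 ∈ Z A j ∧ x.1 ⬝ᵥ x.2 = 0 ∧
        2 * p * ((Z A j).filter (fun y => x.1 ⬝ᵥ y = 0)).card < (Z A j).card then (1 : ℝ) else 0) +
        (if x.2 ∈ Z A j ∧ lev (A x.2) = j ∧ x.1 ∈ A x.2 ∧ ((Z A j).card : ℝ) ≤ 4 * p *
        ((Z A j).filter (fun y => ∀ z ∈ A y, z ⬝ᵥ x.2 = 0)).card then (1 : ℝ) else 0)) := by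
      intro j _
      split_ifs <;> norm_num
    have n2 := mul_nonneg (Finset.sum_nonneg nn) hP
    by_cases hv : x.1 ∈ A x.2
    swap
    · rw [if_neg (by simpa using hv)]
      linarith
    rw [if_pos (by simpa using hv)]
    have h1 : 1 ≤ lev (A x.2) := by
      by_contra e
      have h2 := (h x.2).1.2.2
      rw [show lev (A x.2) = 0 by omega, pow_zero] at h2
      exact (hD x hx).1 (card_le_one.1 h2.le _ hv _ (h x.2).1.1)
    have hj : lev (A x.2) ∈ Icc 1 τ := mem_Icc.2 ⟨h1, lev_le _⟩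
    have hz : x.2 ∈ Z A (lev (A x.2)) :=
      mem_filter.2 ⟨mem_erase.2 ⟨(hD x hx).2, mem_univ _⟩, le_rfl⟩
    have n3 := mul_le_mul_of_nonneg_right (Finset.single_le_sum nn hj) hP
    have n4 : Phi θ (upd x A) ≤ Phi θ A := by
      have h2 := (Nat.le_add_right _ _).trans (psi_drop x h (lev (A x.2)))
      have h3 := (Nat.cast_le (α := ℝ)).2 h2
      simpa using Phi_upd θ x h hj 1 (by linarith)
    by_cases c1 : 2 * p * ((Z A (lev (A x.2))).filter (fun y => x.1 ⬝ᵥ y = 0)).card <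
        (Z A (lev (A x.2))).card
    · rw [if_pos ⟨hz, (h x.2).2 _ hv, c1⟩] at n3
      split_ifs at n3 <;> linarith
    by_cases c2 : ((Z A (lev (A x.2))).card : ℝ) ≤ 4 * p *
        ((Z A (lev (A x.2))).filter (fun y => ∀ z ∈ A y, z ⬝ᵥ x.2 = 0)).card
    · rw [if_neg fun e => c1 e.2.2, if_pos ⟨hz, rfl, hv, c2⟩] at n3
      linarith
    have := Phi_upd θ x h hj _ (rich x h h1 hz c1 c2)
    linarith
  refine (Finset.sum_le_sum t).trans ?_
  rw [Finset.sum_add_distrib, ← Finset.sum_mul, Finset.sum_const, nsmul_eq_mul, Finset.sum_comm]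
  have u : ∀ j ∈ Icc 1 τ, ∑ x ∈ D, ((if x.2 ∈ Z A j ∧ x.1 ⬝ᵥ x.2 = 0 ∧
        2 * p * ((Z A j).filter (fun y => x.1 ⬝ᵥ y = 0)).card < (Z A j).card then (1 : ℝ) else 0) +
        (if x.2 ∈ Z A j ∧ lev (A x.2) = j ∧ x.1 ∈ A x.2 ∧ ((Z A j).card : ℝ) ≤ 4 * p *
        ((Z A j).filter (fun y => ∀ z ∈ A y, z ⬝ᵥ x.2 = 0)).card then (1 : ℝ) else 0)) ≤
        6 * p * Q := by
    intro j _
    refine (Finset.sum_le_sum_of_subset_of_nonneg (subset_univ D) fun x _ _ => ?_).trans ?_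
    · split_ifs <;> norm_num
    rw [Finset.sum_add_distrib, Finset.sum_boole, Finset.sum_boole]
    have h1 := poor (Z A j) fun e => (mem_erase.1 (mem_filter.1 e).1).1 rfl
    have h2 := popular h j
    rw [← hpd, ← hQ] at h1 h2
    linarith
  have s := Finset.sum_le_sum u
  rw [Finset.sum_const, nsmul_eq_mul, Nat.card_Icc, Nat.add_sub_cancel] at s
  have h1 := mul_le_mul_of_nonneg_right s hP
  have h2 : (D.card : ℝ) ≤ Q * Q := by
    rw [hQ, ← Nat.cast_mul, ← Fintype.card_prod]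
    exact_mod_cast card_le_univ D
  have h3 := mul_le_mul_of_nonneg_right h2 hκ
  have h4 := mul_le_mul_of_nonneg_right hθ (mul_nonneg hQ0 hP)
  have h5 : Q * Phi θ A ≤ τ * p * (Q * Phi θ A) :=
    le_mul_of_one_le_left (mul_nonneg hQ0 hP) (by nlinarith)
  linarith

lemma card_D (hτ : 2 ≤ τ) : (Fintype.card (Fin τ → F) : ℝ) ^ 2 / (4 * Fintype.card F) ≤
    (univ.filter (fun x : (Fin τ → F) × (Fin τ → F) =>
      x.1 ≠ 0 ∧ x.2 ≠ 0 ∧ x.1 ⬝ᵥ x.2 = 0)).card := by
  set p : ℝ := (Fintype.card F : ℝ) with hpd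
  set Q : ℝ := (Fintype.card (Fin τ → F) : ℝ) with hQ
  have hp : 2 ≤ p := by rw [hpd]; exact_mod_cast Fintype.one_lt_card
  have hQ2 : p * p ≤ Q := by
    rw [hQ, Fintype.card_fun, Fintype.card_fin, Nat.cast_pow, ← hpd, ← sq]
    exact pow_le_pow_right₀ (by linarith) hτ
  rw [← Finset.sum_boole, Fintype.sum_prod_type_right]
  have t : ∀ b ∈ (univ : Finset (Fin τ → F)).erase 0,
      Q / (2 * p) ≤ ∑ a : Fin τ → F, if a ≠ 0 ∧ b ≠ 0 ∧ a ⬝ᵥ b = 0 then (1 : ℝ) else 0 := by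
    intro b hb
    rw [Finset.sum_boole]
    have h1 : (univ.filter (fun a : Fin τ → F => a ⬝ᵥ b = 0)).card ≤
        (univ.filter (fun a : Fin τ → F => a ≠ 0 ∧ b ≠ 0 ∧ a ⬝ᵥ b = 0)).card + 1 := by
      refine le_trans (card_le_card fun a ha => ?_) (card_insert_le 0 _)
      by_cases e : a = 0
      · exact mem_insert.2 (Or.inl e)
      · exact mem_insert_of_mem (mem_filter.2
          ⟨mem_univ _, e, ne_of_mem_erase hb, (mem_filter.1 ha).2⟩)
    have h2 := (Nat.cast_le (α := ℝ)).2 h1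
    rw [AF.n_one (ne_of_mem_erase hb), ← hQ, ← hpd] at h2
    push_cast at h2
    have h3 : p ≤ Q / p := (le_div_iff₀ (by linarith)).2 hQ2
    have h4 : Q / (2 * p) = Q / p / 2 := by rw [div_div, mul_comm]
    linarith
  have s := Finset.sum_le_sum t
  rw [Finset.sum_const, nsmul_eq_mul, Finset.cast_card_erase_of_mem (mem_univ _),
    Finset.card_univ, ← hQ] at s
  refine le_trans ?_ (s.trans (Finset.sum_le_sum_of_subset_of_nonneg (Finset.subset_univ _)
    fun b _ _ => Finset.sum_nonneg fun a _ => by split_ifs <;> norm_num))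
  have h5 : Q ^ 2 / (4 * p) = Q / 2 * (Q / (2 * p)) := by
    field_simp
    ring
  rw [h5]
  exact mul_le_mul_of_nonneg_right (by nlinarith) (div_nonneg (by nlinarith) (by linarith))

theorem lower (hτ : 2 ≤ τ) (θ n k : ℕ)
    (hθ : (1 - 1 / (8 * (Fintype.card F : ℝ) * τ)) ^ θ * (Fintype.card F : ℝ) ^ τ ≤ 1)
    (h : (n.choose k : ℝ) * (28 * τ * (Fintype.card F : ℝ) ^ 2 / (Fintype.card F : ℝ) ^ τ) ^ k *
      ((τ * (Fintype.card F : ℝ) ^ τ + 1) ^ τ) ^ θ < 1) : n < ramsey τ k := by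
  have eQ : (Fintype.card (Fin τ → F) : ℝ) = (Fintype.card F : ℝ) ^ τ := by
    rw [Fintype.card_fun, Fintype.card_fin, Nat.cast_pow]
  rw [← eQ] at hθ h
  have hD := card_D (F := F) hτ
  set D := univ.filter (fun x : (Fin τ → F) × (Fin τ → F) => x.1 ≠ 0 ∧ x.2 ≠ 0 ∧ x.1 ⬝ᵥ x.2 = 0)
  have st := fun A => step (A := A) θ (by omega) hθ D
    fun x hx => ⟨(mem_filter.1 hx).2.1, (mem_filter.1 hx).2.2.1⟩
  set Q : ℝ := (Fintype.card (Fin τ → F) : ℝ) with hQ
  have hp : (0 : ℝ) < Fintype.card F := by exact_mod_cast Fintype.card_pos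
  have hQ0 : 0 < Q := by rw [hQ]; exact_mod_cast Fintype.card_pos
  have hD0 : (0 : ℝ) < D.card := lt_of_lt_of_le (by positivity) hD
  have hρ0 : 0 ≤ 28 * τ * (Fintype.card F : ℝ) ^ 2 / Q := by positivity
  let A0 : (Fin τ → F) → Finset (Fin τ → F) := fun y => univ.filter (fun x => x ⬝ᵥ y = 0)
  have hA : Inv A0 := fun y => ⟨(cut cl_univ y).1, fun x hx => (mem_filter.1 hx).2⟩
  have h1 := tot_cnt (fun x A => decide (x.1 ∈ A x.2)) upd D Inv (Phi θ) _ hρ0 inv_upd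
    (one_le_Phi θ) (fun A hA => (st A hA).trans (mul_le_mul_of_nonneg_right (by
      refine le_trans (le_of_eq ?_) (mul_le_mul_of_nonneg_left hD hρ0)
      field_simp
      ring) (zero_le_one.trans (one_le_Phi θ A)))) n k A0 hA
  have h2 : Phi θ A0 ≤ ((τ * Q + 1) ^ τ) ^ θ := by
    refine pow_le_pow_left₀ (by positivity) ?_ θ
    refine (Finset.prod_le_prod (g := fun _ => τ * Q + 1) (fun _ _ => by positivity)
      fun j hj => ?_).trans ?_
    · have h3 := (psi_le A0 (mem_Icc.1 hj).1).trans (Nat.mul_le_mul_left τ (card_le_univ _))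
      have h4 := (Nat.cast_le (α := ℝ)).2 h3
      rw [Nat.cast_mul, ← hQ] at h4
      linarith
    · rw [Finset.prod_const, Nat.card_Icc, Nat.add_sub_cancel]
  obtain ⟨l, rfl, hl, h3⟩ := AF.tot_ex D n _ (h1.trans_lt (by
    have h4 := mul_le_mul_of_nonneg_left h2 (by positivity :
      (0 : ℝ) ≤ n.choose k * (28 * τ * (Fintype.card F : ℝ) ^ 2 / Q) ^ k * (D.card : ℝ) ^ n)
    have h5 := mul_lt_mul_of_pos_right h (pow_pos hD0 n)
    linarith))
  have hl' : ∀ i : Fin l.length, l[i].1 ≠ 0 ∧ l[i].2 ≠ 0 ∧ l[i].1 ⬝ᵥ l[i].2 = 0 := fun i =>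
    (mem_filter.1 (hl _ (List.getElem_mem i.2))).2
  let G : SimpleGraph (Fin l.length) := SimpleGraph.fromRel fun i j =>
    i < j ∧ l[i].1 ⬝ᵥ l[j].2 = 0 ∧ l[j].1 ⬝ᵥ l[i].2 ≠ 0
  have hG : ∀ i j : Fin l.length, i < j →
      (G.Adj i j ↔ l[i].1 ⬝ᵥ l[j].2 = 0 ∧ l[j].1 ⬝ᵥ l[i].2 ≠ 0) := by
    intro i j hij
    rw [SimpleGraph.fromRel_adj]
    exact ⟨fun h => h.2.elim (fun h => h.2) fun h => absurd h.1 (not_lt.2 hij.le),
      fun h => ⟨hij.ne, Or.inl ⟨hij, h⟩⟩⟩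
  have := ramsey_set G τ k univ (fun K _ hK => ?_) (fun K _ hK => ?_)
  · rwa [Finset.card_univ, Fintype.card_fin] at this
  · have up : ∀ i ∈ K, ∀ j ∈ K, i ≤ j → l[i].1 ⬝ᵥ l[j].2 = 0 := by
      intro i hi j hj hij
      rcases hij.eq_or_lt with rfl | hij
      · exact (hl' i).2.2
      · exact ((hG i j hij).1 (hK.1 hi hj hij.ne)).1
    have li : LinearIndependent F (fun i : K => l[i.1].2) := by
      rw [linearIndependent_iff']
      intro s g hg i hi
      by_contra h0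
      obtain ⟨j, hj, hmin⟩ := Finset.exists_min_image (s.filter fun i => g i ≠ 0) (fun i => i.1)
        ⟨i, mem_filter.2 ⟨hi, h0⟩⟩
      obtain ⟨a, ha1, ha2⟩ : ∃ a : Fin τ → F, a ⬝ᵥ l[j.1].2 ≠ 0 ∧
          ∀ i ∈ K, j.1 < i → a ⬝ᵥ l[i].2 = 0 := by
        rcases (K.filter fun i => j.1 < i).eq_empty_or_nonempty with e | e
        · obtain ⟨a, ha⟩ := AF.ex_one (hl' j.1).2.1
          refine ⟨a, by rw [ha]; exact one_ne_zero, fun i hi hji => ?_⟩
          exact absurd (mem_filter.2 ⟨hi, hji⟩) (by rw [e]; exact notMem_empty _)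
        · obtain ⟨m, hm, hm'⟩ := Finset.exists_min_image _ (fun i => i) e
          have h4 := (mem_filter.1 hm).2
          exact ⟨l[m].1, ((hG _ _ h4).1 (hK.1 j.2 (mem_filter.1 hm).1 h4.ne)).2, fun i hi hji =>
            up m (mem_filter.1 hm).1 i hi (hm' i (mem_filter.2 ⟨hi, hji⟩))⟩
      have h4 := congrArg (fun v => a ⬝ᵥ v) hg
      simp only [dotProduct_sum, dotProduct_smul, dotProduct_zero, smul_eq_mul] at h4
      rw [Finset.sum_eq_single_of_mem j (mem_filter.1 hj).1] at h4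
      · exact mul_ne_zero (mem_filter.1 hj).2 ha1 h4
      · intro i' hi' hne
        by_cases h5 : g i' = 0
        · rw [h5, zero_mul]
        · have h6 : j.1 ≠ i'.1 := fun e => hne (Subtype.ext e.symm)
          rw [ha2 _ i'.2 (lt_of_le_of_ne (hmin i' (mem_filter.2 ⟨hi', h5⟩)) h6), mul_zero]
    obtain ⟨m, hm, hm'⟩ := Finset.exists_min_image K (fun i => i)
      (card_pos.1 (by rw [hK.2]; omega))
    have : Nonempty K := ⟨⟨m, hm⟩⟩
    have h4 := li.span_eq_top_of_card_eq_finrank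
      (by rw [Fintype.card_coe, hK.2, Module.finrank_fin_fun])
    obtain ⟨c, hc⟩ := AF.ex_one (hl' m).1
    have h5 : ∀ v ∈ Submodule.span F (Set.range fun i : K => l[i.1].2), l[m].1 ⬝ᵥ v = 0 := by
      intro v hv
      induction hv using Submodule.span_induction with
      | mem v hv =>
        obtain ⟨i, rfl⟩ := hv
        exact up m hm i.1 i.2 (hm' _ i.2)
      | zero => exact dotProduct_zero _
      | add u v _ _ h1 h2 => rw [dotProduct_add, h1, h2, add_zero]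
      | smul c v _ h1 => rw [dotProduct_smul, h1, smul_zero]
    have h6 := h5 c (by rw [h4]; exact Submodule.mem_top)
    rw [dotProduct_comm, hc] at h6
    exact one_ne_zero h6
  · have hs : (K.sort (· ≤ ·)).Pairwise (· < ·) := (Finset.sortedLT_sort K).pairwise
    have h4 := cnt_pos (fun x A => decide (x.1 ∈ A x.2)) upd
      (fun x y : (Fin τ → F) × (Fin τ → F) => x.1 ⬝ᵥ y.2 = 0 → y.1 ⬝ᵥ x.2 = 0)
      (fun x y A hr hy => ?_) (List.map_getElem_sublist hs) A0 (fun y hy => ?_) ?_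
    · rw [List.length_map, Finset.length_sort, hK.2] at h4
      have h5 := (Nat.cast_le (α := ℝ)).2 h4
      rw [Nat.cast_one] at h5
      linarith
    · rw [decide_eq_true_eq] at hy ⊢
      unfold upd
      split_ifs with e
      · exact mem_filter.2 ⟨hy, hr e⟩
      · exact hy
    · obtain ⟨i, _, rfl⟩ := List.mem_map.1 hy
      rw [decide_eq_true_eq]
      exact mem_filter.2 ⟨mem_univ _, (hl' i).2.2⟩
    · rw [List.pairwise_map]
      refine hs.imp_of_mem fun {i j} hi hj hij e => ?_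
      by_contra e'
      exact (hK.1 ((Finset.mem_sort _).1 hi) ((Finset.mem_sort _).1 hj) hij.ne).2
        ((hG i j hij).2 ⟨e, e'⟩)

end Pool.Agent.Lib.MP_904cf4_co.FL
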