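import Pool.Agent.Lib.MP_904cf4_co.Basic

/-! Spread independent sets and the cross colouring of two Ramsey graphs. -/

set_option autoImplicit false

namespace Pool.Agent.Lib.MP_904cf4_co.EXA

open Finset

/-- closed neighbourhood relation -/
def nb {W : Type} (H : SimpleGraph W) (u v : W) : Prop := u = v ∨ H.Adj u v

lemma nb_comm {W : Type} {H : SimpleGraph W} {u v : W} (h : nb H u v) : nb H v u :=
  h.elim (fun e => Or.inl e.symm) fun e => Or.inr e.symm

open Classical in
/-- every index set of size at most `m` maps onto an independent set meeting every closed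
neighbourhood fewer than `ρ` times -/
def Spr {W : Type} (H : SimpleGraph W) (ρ m : ℕ) : Prop :=
  ∀ (ι : Type) (Z : Finset ι), Z.card ≤ m → ∃ j : ι → W,
    (∀ z ∈ Z, ∀ z' ∈ Z, z ≠ z' → ¬ nb H (j z) (j z')) ∧
    ∀ u, (Z.filter fun z => nb H u (j z)).card < ρ

lemma box {ι W : Type} [Fintype ι] [DecidableEq ι] [Fintype W] [DecidableEq W] (S : Finset ι)
    (t : ι → Finset W) : (univ.filter fun j : ι → W => ∀ i ∈ S, j i ∈ t i).card *
      Fintype.card W ^ S.card = (∏ i ∈ S, (t i).card) * Fintype.card W ^ Fintype.card ι := by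
  have e : (univ.filter fun j : ι → W => ∀ i ∈ S, j i ∈ t i) =
      Fintype.piFinset fun i => if i ∈ S then t i else univ := by
    ext j
    rw [mem_filter, Fintype.mem_piFinset]
    refine ⟨fun h i => ?_, fun h => ⟨mem_univ _, fun i hi => ?_⟩⟩
    · split_ifs with hi
      · exact h.2 i hi
      · exact mem_univ _
    · have := h i
      rwa [if_pos hi] at this
  rw [e, Fintype.card_piFinset, ← Finset.prod_mul_prod_compl S, ← card_add_card_compl S, pow_add,
    Finset.prod_congr rfl fun i hi => by rw [if_pos hi],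
    Finset.prod_congr (s₁ := Sᶜ) rfl fun i hi => by rw [if_neg (mem_compl.1 hi)],
    Finset.prod_const, card_univ]
  ring

lemma spread {W : Type} [Fintype W] (H : SimpleGraph W) (D ρ m : ℕ)
    (hD : ∀ (u : W) (X : Finset W), (∀ v ∈ X, nb H u v) → X.card ≤ D)
    (h1 : 2 * (m ^ 2 * D) < Fintype.card W)
    (h2 : 2 * (Fintype.card W * (m * D) ^ ρ) < Fintype.card W ^ ρ) : Spr H ρ m := by
  classical
  intro ι Z hZ
  set n := Fintype.card W with hn
  have hn0 : 0 < n := by omega
  have hW : Nonempty W := Fintype.card_pos_iff.1 hn0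
  suffices h : ∃ j : Z → W, (∀ z z', z ≠ z' → ¬ nb H (j z) (j z')) ∧
      ∀ u, (univ.filter fun z => nb H u (j z)).card < ρ by
    obtain ⟨j, j1, j2⟩ := h
    refine ⟨fun i => if h : i ∈ Z then j ⟨i, h⟩ else Classical.arbitrary W,
      fun z hz z' hz' hne => ?_, fun u => lt_of_le_of_lt ?_ (j2 u)⟩
    · simp only [dif_pos hz, dif_pos hz']
      exact j1 _ _ fun e => hne (congrArg Subtype.val e)
    · rw [← card_map (Function.Embedding.subtype _) (s := univ.filter fun z => nb H u (j z))]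
      refine card_le_card fun z hz => ?_
      obtain ⟨h3, h4⟩ := mem_filter.1 hz
      simp only [dif_pos h3] at h4
      exact mem_map.2 ⟨⟨z, h3⟩, mem_filter.2 ⟨mem_univ _, h4⟩, rfl⟩
  have hM : Fintype.card Z ≤ m := by rwa [Fintype.card_coe]
  set M := Fintype.card Z with hMd
  by_contra hcon
  let N : W → Finset W := fun u => univ.filter fun v => nb H u v
  have hN : ∀ u, (N u).card ≤ D := fun u => hD u _ fun v hv => (mem_filter.1 hv).2
  let B1 : (Z × Z) × W → Finset (Z → W) := fun x => univ.filter fun j =>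
    ∀ i ∈ ({x.1.1, x.1.2} : Finset Z), j i ∈ (if i = x.1.1 then {x.2} else N x.2)
  let B2 : Finset Z × W → Finset (Z → W) := fun x => univ.filter fun j => ∀ i ∈ x.1, j i ∈ N x.2
  have cov : (univ : Finset (Z → W)) ⊆ (univ.offDiag ×ˢ univ).biUnion B1 ∪
      (powersetCard ρ univ ×ˢ univ).biUnion B2 := by
    intro j _
    by_cases c : ∀ z z', z ≠ z' → ¬ nb H (j z) (j z')
    · have c2 : ¬ ∀ u, (univ.filter fun z => nb H u (j z)).card < ρ := fun h => hcon ⟨j, c, h⟩
      obtain ⟨u, hu⟩ := not_forall.1 c2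
      obtain ⟨S, hS1, hS2⟩ := exists_subset_card_eq (not_lt.1 hu)
      exact mem_union_right _ (mem_biUnion.2 ⟨(S, u), mem_product.2
        ⟨mem_powersetCard.2 ⟨subset_univ _, hS2⟩, mem_univ _⟩, mem_filter.2 ⟨mem_univ _,
        fun i hi => mem_filter.2 ⟨mem_univ _, (mem_filter.1 (hS1 hi)).2⟩⟩⟩)
    · push Not at c
      obtain ⟨z, z', hne, hz⟩ := c
      refine mem_union_left _ (mem_biUnion.2 ⟨((z, z'), j z), mem_product.2
        ⟨mem_offDiag.2 ⟨mem_univ _, mem_univ _, hne⟩, mem_univ _⟩, mem_filter.2 ⟨mem_univ _,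
        fun i hi => ?_⟩⟩)
      rcases mem_insert.1 hi with rfl | hi
      · rw [if_pos rfl]
        exact mem_singleton_self _
      · rw [mem_singleton.1 hi, if_neg hne.symm]
        exact mem_filter.2 ⟨mem_univ _, hz⟩
  have b1 : ∀ x ∈ (univ.offDiag ×ˢ univ : Finset ((Z × Z) × W)),
      (B1 x).card * n ^ 2 ≤ D * n ^ M := by
    intro x hx
    have hne := (mem_offDiag.1 (mem_product.1 hx).1).2.2
    have := box ({x.1.1, x.1.2} : Finset Z) fun i => if i = x.1.1 then {x.2} else N x.2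
    rw [card_pair hne, prod_pair hne, if_pos rfl, if_neg hne.symm, card_singleton, one_mul] at this
    exact this.trans_le (Nat.mul_le_mul_right _ (hN _))
  have b2 : ∀ x ∈ (powersetCard ρ univ ×ˢ univ : Finset (Finset Z × W)),
      (B2 x).card * n ^ ρ ≤ D ^ ρ * n ^ M := by
    intro x hx
    have hc := (mem_powersetCard.1 (mem_product.1 hx).1).2
    have := box x.1 fun _ => N x.2
    rw [prod_const, hc] at this
    exact this.trans_le (Nat.mul_le_mul_right _ (Nat.pow_le_pow_left (hN _) _))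
  have s1 := sum_le_sum b1
  have s2 := sum_le_sum b2
  rw [← sum_mul, sum_const, smul_eq_mul, card_product, card_univ, ← hn] at s1 s2
  have c1 : (univ.offDiag : Finset (Z × Z)).card ≤ m ^ 2 := by
    rw [offDiag_card, card_univ, sq]
    exact (Nat.sub_le _ _).trans (Nat.mul_le_mul hM hM)
  have c2 : (powersetCard ρ (univ : Finset Z)).card ≤ m ^ ρ := by
    rw [card_powersetCard, card_univ]
    exact (Nat.choose_le_pow _ _).trans (Nat.pow_le_pow_left hM _)
  have c3 := (card_le_card cov).trans ((card_union_le _ _).trans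
    (Nat.add_le_add card_biUnion_le card_biUnion_le))
  rw [card_univ, Fintype.card_fun, ← hn, ← hMd] at c3
  have p0 : 0 < n ^ M := pow_pos hn0 _
  have d1 : 2 * ∑ x ∈ (univ.offDiag ×ˢ univ : Finset ((Z × Z) × W)), (B1 x).card < n ^ M := by
    refine lt_of_mul_lt_mul_right (a := n ^ 2) ?_ (Nat.zero_le _)
    calc _ ≤ 2 * (m ^ 2 * n * (D * n ^ M)) := by
          rw [mul_assoc]
          exact Nat.mul_le_mul_left _ (s1.trans (by gcongr))
      _ = 2 * (m ^ 2 * D) * (n * n ^ M) := by ring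
      _ < n * (n * n ^ M) := by gcongr
      _ = _ := by ring
  have d2 : 2 * ∑ x ∈ (powersetCard ρ univ ×ˢ univ : Finset (Finset Z × W)), (B2 x).card <
      n ^ M := by
    refine lt_of_mul_lt_mul_right (a := n ^ ρ) ?_ (Nat.zero_le _)
    calc _ ≤ 2 * (m ^ ρ * n * (D ^ ρ * n ^ M)) := by
          rw [mul_assoc]
          exact Nat.mul_le_mul_left _ (s2.trans (by gcongr))
      _ = 2 * (n * (m * D) ^ ρ) * n ^ M := by ring
      _ < n ^ ρ * n ^ M := by gcongr
      _ = _ := by ring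
  omega

lemma ind_union {W : Type} {H : SimpleGraph W} {k : ℕ} (hH : Hᶜ.CliqueFree k) {X J : Finset W}
    (hX : ∀ u ∈ X, ∀ v ∈ X, ¬ H.Adj u v) (hJ : ∀ u ∈ J, ∀ v ∈ J, ¬ H.Adj u v)
    (h : ∀ u ∈ X, ∀ v ∈ J, ¬ nb H u v) : X.card + J.card < k := by
  classical
  rw [← card_union_of_disjoint (disjoint_left.2 fun u h1 h2 => h u h1 u h2 (Or.inl rfl))]
  refine card_lt_of_clique (hH.cliqueFreeOn (s := Set.univ)) (Set.subset_univ _) ?_
  intro u hu v hv hne
  refine ⟨hne, fun e => ?_⟩
  rcases mem_union.1 (mem_coe.1 hu) with hu | hu <;> rcases mem_union.1 (mem_coe.1 hv) with hv | hv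
  · exact hX u hu v hv e
  · exact h u hu v hv (Or.inr e)
  · exact h v hv u hu (Or.inr e.symm)
  · exact hJ u hu v hv e

/-- families of independent sets such that every vertex is close to few of them -/
lemma family {W : Type} {H : SimpleGraph W} {k r m σ : ℕ} (hH : Hᶜ.CliqueFree k)
    (hS : Spr H (r + 1) m) (ι : Type) [Fintype ι] (hm : Fintype.card ι * σ ≤ m) :
    ∃ T : W → Finset ι, (∀ u, (T u).card ≤ r) ∧ ∀ (i : ι) (X : Finset W),
      (∀ u ∈ X, ∀ v ∈ X, ¬ H.Adj u v) → (∀ u ∈ X, i ∉ T u) → X.card + σ < k := by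
  classical
  obtain ⟨j, j1, j2⟩ := hS (ι × Fin σ) univ (by simpa using hm)
  refine ⟨fun u => (univ.filter fun z => nb H u (j z)).image Prod.fst,
    fun u => card_image_le.trans (Nat.le_of_lt_succ (j2 u)), fun i X hX h => ?_⟩
  have hc : ((univ : Finset (Fin σ)).image fun a => j (i, a)).card = σ := by
    rw [card_image_of_injective, card_univ, Fintype.card_fin]
    intro a b e
    by_contra hne
    exact j1 _ (mem_univ (i, a)) _ (mem_univ (i, b)) (fun e' => hne (congrArg Prod.snd e'))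
      (Or.inl e)
  rw [← hc]
  refine ind_union hH hX (fun u hu v hv e => ?_) fun u hu v hv e => ?_
  · obtain ⟨a, _, rfl⟩ := mem_image.1 hu
    obtain ⟨b, _, rfl⟩ := mem_image.1 hv
    exact j1 _ (mem_univ (i, a)) _ (mem_univ (i, b)) (fun e' => e.ne (by rw [e'])) (Or.inr e)
  · obtain ⟨a, _, rfl⟩ := mem_image.1 hv
    exact h u hu (mem_image.2 ⟨(i, a), mem_filter.2 ⟨mem_univ _, e⟩, rfl⟩)

/-- the cross colouring -/
lemma cross {W : Type} {H : SimpleGraph W} {k r m σ : ℕ} (hH : Hᶜ.CliqueFree k)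
    (hS : Spr H (r + 1) m) (hr : 1 ≤ r) (hm : (r * r + 1) ^ r * σ ≤ m) :
    ∃ c : W → W → Prop, (∀ (v : W) (X : Finset W), (∀ u ∈ X, ∀ u' ∈ X, ¬ H.Adj u u') →
      (∀ u ∈ X, c v u) → X.card + σ < k) ∧ ∀ (u : W) (X : Finset W),
      (∀ v ∈ X, ∀ v' ∈ X, ¬ H.Adj v v') → (∀ v ∈ X, ¬ c v u) → X.card + σ < k := by
  classical
  obtain ⟨T, T1, T2⟩ := family (σ := σ) hH hS (Fin (r * r + 1)) (by
    rw [Fintype.card_fin]
    exact (Nat.mul_le_mul_right _ (Nat.le_self_pow (by omega) _)).trans hm)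
  obtain ⟨I, I1, I2⟩ := family (σ := σ) hH hS (Fin r → Fin (r * r + 1)) (by
    rwa [Fintype.card_fun, Fintype.card_fin, Fintype.card_fin])
  have ha : ∀ v, ∃ x : Fin r → Fin (r * r + 1), ∀ y ∈ T v, ∃ i, x i = y := by
    intro v
    refine ⟨fun i => (T v).toList.getD i 0, fun y hy => ?_⟩
    obtain ⟨i, hi, e⟩ := List.getElem_of_mem (mem_toList.2 hy)
    refine ⟨⟨i, lt_of_lt_of_le hi (by rw [length_toList]; exact T1 v)⟩, ?_⟩
    rw [← e]
    exact List.getD_eq_getElem _ _ hi
  have hb : ∀ u, ∃ y : Fin (r * r + 1), ∀ x ∈ I u, ∀ i, x i ≠ y := by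
    intro u
    have h1 : ((I u).biUnion fun x => univ.image x).card < (univ : Finset (Fin (r * r + 1))).card := by
      rw [card_univ, Fintype.card_fin]
      refine Nat.lt_succ_of_le ((card_biUnion_le_card_mul _ _ r fun x _ => ?_).trans
        (Nat.mul_le_mul_right _ (I1 u)))
      exact card_image_le.trans (by rw [card_univ, Fintype.card_fin])
    obtain ⟨y, _, hy⟩ := exists_mem_notMem_of_card_lt_card h1
    exact ⟨y, fun x hx i e => hy (mem_biUnion.2 ⟨x, hx, mem_image.2 ⟨i, mem_univ _, e⟩⟩)⟩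
  choose a ha using ha
  choose b hb using hb
  refine ⟨fun v u => b u ∈ T v, fun v X hX h => I2 (a v) X hX fun u hu e => ?_,
    fun u X hX h => T2 (b u) X hX h⟩
  obtain ⟨i, hi⟩ := ha v _ (h u hu)
  exact hb u _ e i hi

end Pool.Agent.Lib.MP_904cf4_co.EXA
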