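import Pool.Agent.Lib.MP_904cf4_co.Struct
import Pool.Agent.Lib.MP_904cf4_co.Spread

/-! The two recolourings. -/

set_option autoImplicit false

namespace Pool.Agent.Lib.MP_904cf4_co.EXA

open Finset SimpleGraph

variable {V W : Type} [DecidableEq V]

lemma glue (A B : Finset V) (hd : Disjoint A B) (rA rB rU : SimpleGraph V) (c a b : V → V → Prop) :
    ∃ C : SimpleGraph V, (∀ x ∈ A, ∀ y ∈ A, C.Adj x y ↔ rA.Adj x y) ∧
      (∀ x ∈ B, ∀ y ∈ B, C.Adj x y ↔ rB.Adj x y) ∧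
      (∀ x ∉ A, x ∉ B → ∀ y ∉ A, y ∉ B → (C.Adj x y ↔ rU.Adj x y)) ∧
      (∀ x ∈ A, ∀ y ∈ B, C.Adj x y ↔ c x y) ∧ (∀ x ∈ A, ∀ y ∉ A, y ∉ B → (C.Adj x y ↔ a x y)) ∧
      (∀ x ∈ B, ∀ y ∉ A, y ∉ B → (C.Adj x y ↔ b x y)) := by
  have n1 : ∀ x ∈ A, x ∉ B := fun x hx => disjoint_left.1 hd hx
  have n2 : ∀ x ∈ B, x ∉ A := fun x hx => disjoint_right.1 hd hx
  refine ⟨SimpleGraph.fromRel fun x y => if x ∈ A then (if y ∈ A then rA.Adj x y else
    if y ∈ B then c x y else a x y) else if x ∈ B then (if y ∈ A then False else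
    if y ∈ B then rB.Adj x y else b x y) else (if y ∈ A ∨ y ∈ B then False else rU.Adj x y),
    fun x hx y hy => ?_, fun x hx y hy => ?_, fun x hx hx' y hy hy' => ?_, fun x hx y hy => ?_,
    fun x hx y hy hy' => ?_, fun x hx y hy hy' => ?_⟩ <;> rw [SimpleGraph.fromRel_adj]
  · simp only [if_pos hx, if_pos hy]
    exact ⟨fun h => h.2.elim id fun h => h.symm, fun h => ⟨h.ne, Or.inl h⟩⟩
  · simp only [if_neg (n2 x hx), if_neg (n2 y hy), if_pos hx, if_pos hy]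
    exact ⟨fun h => h.2.elim id fun h => h.symm, fun h => ⟨h.ne, Or.inl h⟩⟩
  · simp only [if_neg hx, if_neg hx', if_neg hy, if_neg hy', if_neg (not_or.2 ⟨hx, hx'⟩),
      if_neg (not_or.2 ⟨hy, hy'⟩)]
    exact ⟨fun h => h.2.elim id fun h => h.symm, fun h => ⟨h.ne, Or.inl h⟩⟩
  · simp only [if_pos hx, if_neg (n2 y hy), if_pos hy, or_false]
    exact ⟨fun h => h.2, fun h => ⟨fun e => n1 x hx (e ▸ hy), h⟩⟩
  · simp only [if_pos hx, if_neg hy, if_neg hy', if_pos (Or.inl hx : x ∈ A ∨ x ∈ B), or_false]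
    exact ⟨fun h => h.2, fun h => ⟨fun e => hy (e ▸ hx), h⟩⟩
  · simp only [if_pos hx, if_neg (n2 x hx), if_neg hy, if_neg hy',
      if_pos (Or.inr hx : x ∈ A ∨ x ∈ B), or_false]
    exact ⟨fun h => h.2, fun h => ⟨fun e => hy' (e ▸ hx), h⟩⟩

omit [DecidableEq V] in
lemma emb [Fintype W] [Nonempty W] (A : Finset V) (h : A.card ≤ Fintype.card W) :
    ∃ p : V → W, Set.InjOn p A := by
  rw [← Fintype.card_coe] at h
  obtain ⟨e⟩ := Function.Embedding.nonempty_of_card_le h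
  exact Set.exists_injOn_iff_injective.2 ⟨e, e.injective⟩

omit [DecidableEq V] in
lemma clique_img {H : SimpleGraph W} {s : ℕ} (hH : H.CliqueFree (s + 1)) (p : V → W)
    (X : Finset V) (h : ∀ x ∈ X, ∀ y ∈ X, x ≠ y → H.Adj (p x) (p y)) :
    X.card ≤ s ∧ ∀ w, (∀ x ∈ X, H.Adj w (p x)) → X.card + 1 ≤ s := by
  classical
  have hc : (X.image p).card = X.card := card_image_of_injOn fun x hx y hy e => by
    by_contra hne
    exact (h x hx y hy hne).ne e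
  have cl : H.IsClique (X.image p : Finset W) := by
    intro u hu v hv hne
    obtain ⟨x, hx, rfl⟩ := mem_image.1 (mem_coe.1 hu)
    obtain ⟨y, hy, rfl⟩ := mem_image.1 (mem_coe.1 hv)
    exact h x hx y hy fun e => hne (by rw [e])
  have lt := fun (K : Finset W) => card_lt_of_clique (K := K) (hH.cliqueFreeOn (s := Set.univ))
    (Set.subset_univ _)
  refine ⟨by have := lt _ cl; omega, fun w hw => ?_⟩
  have a : ∀ u ∈ X.image p, H.Adj w u := fun u hu => by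
    obtain ⟨x, hx, rfl⟩ := mem_image.1 hu
    exact hw x hx
  have := lt (insert w (X.image p)) (by
    rw [coe_insert]
    exact cl.insert fun u hu _ => a u (mem_coe.1 hu))
  rw [card_insert_of_notMem fun e => (a w e).ne rfl] at this
  omega

omit [DecidableEq V] in
lemma ind_img {H : SimpleGraph W} [DecidableEq W] (p : V → W) (X : Finset V)
    (h : ∀ x ∈ X, ∀ y ∈ X, x ≠ y → ¬ nb H (p x) (p y)) :
    (X.image p).card = X.card ∧ ∀ u ∈ X.image p, ∀ v ∈ X.image p, ¬ H.Adj u v := by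
  refine ⟨card_image_of_injOn fun x hx y hy e => ?_, fun u hu v hv e => ?_⟩
  · by_contra hne
    exact h x hx y hy hne (Or.inl e)
  · obtain ⟨x, hx, rfl⟩ := mem_image.1 hu
    obtain ⟨y, hy, rfl⟩ := mem_image.1 hv
    exact h x hx y hy (fun e' => e.ne (by rw [e'])) (Or.inr e)

open Classical in
/-- a clique that meets only the own side and the rest -/
lemma own {H : SimpleGraph W} {Γ : SimpleGraph V} {s t ρ : ℕ} (hH : H.CliqueFree (s + 1))
    {Y A0 Z : Finset V} (hP : PS Γ s t ρ Y A0 Z) (A : Finset V) (hA : A ⊆ A0) (p j : V → W)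
    (j1 : ∀ z ∈ Z, ∀ z' ∈ Z, z ≠ z' → ¬ nb H (j z) (j z'))
    (j2 : ∀ u, (Z.filter fun z => nb H u (j z)).card < ρ) (X : Finset V)
    (hU : ∀ x ∈ X, x ∉ A → x ∉ A0 ∧ x ∉ Y)
    (a1 : ∀ x ∈ X, x ∈ A → ∀ y ∈ X, y ∈ A → x ≠ y → H.Adj (p x) (p y))
    (a2 : ∀ x ∈ X, x ∈ A → ∀ z ∈ X, z ∉ A → z ∈ Z → nb H (p x) (j z))
    (a3 : ∀ x ∈ X, x ∉ A → ∀ y ∈ X, y ∉ A → x ≠ y → Γ.Adj x y) : X.card < s + t := by
  have c0 := card_sdiff_add_card_inter X A
  obtain ⟨p1, p2⟩ := hP (X \ A) (fun x hx y hy hne => a3 x (mem_sdiff.1 hx).1 (mem_sdiff.1 hx).2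
    y (mem_sdiff.1 hy).1 (mem_sdiff.1 hy).2 hne)
    (disjoint_right.2 fun x hx => (hU x (mem_sdiff.1 hx).1 (mem_sdiff.1 hx).2).2)
    (disjoint_right.2 fun x hx => (hU x (mem_sdiff.1 hx).1 (mem_sdiff.1 hx).2).1)
  rcases (X ∩ A).eq_empty_or_nonempty with e | ⟨v, hv⟩
  · rw [e, card_empty] at c0
    omega
  obtain ⟨p3, p4⟩ := p2 ⟨v, hA (mem_inter.1 hv).2⟩
  obtain ⟨q1, q2⟩ := clique_img hH p (X ∩ A) fun x hx y hy => a1 x (mem_inter.1 hx).1
    (mem_inter.1 hx).2 y (mem_inter.1 hy).1 (mem_inter.1 hy).2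
  have a4 : ∀ x ∈ X ∩ A, ∀ z ∈ (X \ A) ∩ Z, nb H (p x) (j z) := fun x hx z hz =>
    a2 x (mem_inter.1 hx).1 (mem_inter.1 hx).2 z (mem_sdiff.1 (mem_inter.1 hz).1).1
      (mem_sdiff.1 (mem_inter.1 hz).1).2 (mem_inter.1 hz).2
  by_contra hcon
  obtain ⟨z, hz, z', hz', hne⟩ := one_lt_card.1 (p3 (by omega))
  have q3 := q2 (j z) fun x hx => ((a4 x hx z hz).resolve_left fun e =>
    j1 z (mem_inter.1 hz).2 z' (mem_inter.1 hz').2 hne (e ▸ a4 x hx z' hz')).symm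
  have q4 : ((X \ A) ∩ Z).card ≤ (Z.filter fun z => nb H (p v) (j z)).card :=
    card_le_card fun z hz => mem_filter.2 ⟨(mem_inter.1 hz).2, a4 v hv z hz⟩
  have q5 := p4 (by omega)
  have q6 := j2 (p v)
  omega

/-- a clique that meets the other side and the rest only -/
lemma other {H : SimpleGraph W} {k : ℕ} (hH : Hᶜ.CliqueFree k) (B Z : Finset V) (q j : V → W)
    (j1 : ∀ z ∈ Z, ∀ z' ∈ Z, z ≠ z' → ¬ nb H (j z) (j z')) (X : Finset V) {v : V} (hv : v ∈ X)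
    (hv' : v ∈ B) (b1 : ∀ x ∈ X, x ∈ B → ∀ y ∈ X, y ∈ B → x ≠ y → ¬ nb H (q x) (q y))
    (b2 : ∀ x ∈ X, x ∈ B → ∀ z ∈ X, z ∉ B → z ∈ Z ∧ ¬ nb H (q x) (j z)) : X.card < k := by
  classical
  have c0 := card_sdiff_add_card_inter X B
  obtain ⟨p1, p2⟩ := ind_img q (X ∩ B) fun x hx y hy => b1 x (mem_inter.1 hx).1
    (mem_inter.1 hx).2 y (mem_inter.1 hy).1 (mem_inter.1 hy).2
  obtain ⟨p3, p4⟩ := ind_img j (X \ B) fun x hx y hy => j1 x
    (b2 v hv hv' x (mem_sdiff.1 hx).1 (mem_sdiff.1 hx).2).1 y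
    (b2 v hv hv' y (mem_sdiff.1 hy).1 (mem_sdiff.1 hy).2).1
  have := ind_union hH p2 p4 fun u hu w hw => by
    obtain ⟨x, hx, rfl⟩ := mem_image.1 hu
    obtain ⟨y, hy, rfl⟩ := mem_image.1 hw
    exact (b2 x (mem_inter.1 hx).1 (mem_inter.1 hx).2 y (mem_sdiff.1 hy).1 (mem_sdiff.1 hy).2).2
  omega

lemma card_three (X A B : Finset V) :
    X.card ≤ (X ∩ A).card + (X ∩ B).card + ((X \ A) \ B).card := by
  have c0 := card_sdiff_add_card_inter X A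
  have c1 := card_sdiff_add_card_inter (X \ A) B
  have c2 : ((X \ A) ∩ B).card ≤ (X ∩ B).card :=
    card_le_card (inter_subset_inter sdiff_subset Subset.rfl)
  omega

open Classical in
lemma half {H : SimpleGraph W} {Γ : SimpleGraph V} {s t ρ w : ℕ} (hH : H.CliqueFree (s + 1))
    (hH' : Hᶜ.CliqueFree (s + t)) {A0 Z : Finset V} (hP : PS Γ s t ρ ∅ A0 Z) (A B Z' : Finset V)
    (hA : A ⊆ A0) (hU : ∀ x ∉ A, x ∉ B → x ∉ A0) (hw : Z'.card ≤ w) (p q j j' : V → W)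
    (j1 : ∀ z ∈ Z, ∀ z' ∈ Z, z ≠ z' → ¬ nb H (j z) (j z'))
    (j2 : ∀ u, (Z.filter fun z => nb H u (j z)).card < ρ)
    (j3 : ∀ z ∈ Z', ∀ z' ∈ Z', z ≠ z' → ¬ nb H (j' z) (j' z')) (c : W → W → Prop)
    (hc : ∀ (v : W) (X : Finset W), (∀ u ∈ X, ∀ u' ∈ X, ¬ H.Adj u u') →
      (∀ u ∈ X, c v u) → X.card + (s + w) < s + t) (X : Finset V)
    (a1 : ∀ x ∈ X, x ∈ A → ∀ y ∈ X, y ∈ A → x ≠ y → H.Adj (p x) (p y))
    (a2 : ∀ x ∈ X, x ∈ A → ∀ z ∈ X, z ∉ A → z ∉ B → z ∈ Z → nb H (p x) (j z))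
    (a3 : ∀ x ∈ X, x ∉ A → x ∉ B → ∀ y ∈ X, y ∉ A → y ∉ B → x ≠ y → Γ.Adj x y)
    (b1 : ∀ x ∈ X, x ∈ B → ∀ y ∈ X, y ∈ B → x ≠ y → ¬ nb H (q x) (q y))
    (b2 : ∀ x ∈ X, x ∈ B → ∀ z ∈ X, z ∉ A → z ∉ B → z ∈ Z' ∧ ¬ nb H (q x) (j' z))
    (c1 : ∀ x ∈ X, x ∈ A → ∀ y ∈ X, y ∈ B → c (p x) (q y)) : X.card < s + t := by
  by_cases hB : ∀ x ∈ X, x ∉ B
  · exact own hH hP A hA p j j1 j2 X (fun x hx h => ⟨hU x h (hB x hx), notMem_empty _⟩) a1
      (fun x hx h z hz h' => a2 x hx h z hz h' (hB z hz))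
      fun x hx h y hy h' => a3 x hx h (hB x hx) y hy h' (hB y hy)
  push Not at hB
  obtain ⟨u, hu, hu'⟩ := hB
  by_cases hA' : ∀ x ∈ X, x ∉ A
  · exact other hH' B Z' q j' j3 X hu hu' b1 fun x hx h z hz h' => b2 x hx h z hz (hA' z hz) h'
  push Not at hA'
  obtain ⟨v, hv, hv'⟩ := hA'
  have q0 := card_three X A B
  have q1 := (clique_img hH p (X ∩ A) fun x hx y hy => a1 x (mem_inter.1 hx).1
    (mem_inter.1 hx).2 y (mem_inter.1 hy).1 (mem_inter.1 hy).2).1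
  obtain ⟨p1, p2⟩ := ind_img q (X ∩ B) fun x hx y hy => b1 x (mem_inter.1 hx).1
    (mem_inter.1 hx).2 y (mem_inter.1 hy).1 (mem_inter.1 hy).2
  have q2 := hc (p v) _ p2 fun y hy => by
    obtain ⟨x, hx, rfl⟩ := mem_image.1 hy
    exact c1 v hv hv' x (mem_inter.1 hx).1 (mem_inter.1 hx).2
  have q3 : ((X \ A) \ B).card ≤ Z'.card := card_le_card fun z hz =>
    (b2 u hu hu' z (mem_sdiff.1 (mem_sdiff.1 hz).1).1 (mem_sdiff.1 (mem_sdiff.1 hz).1).2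
      (mem_sdiff.1 hz).2).1
  omega

omit [DecidableEq V] in
lemma finish (G C : SimpleGraph V) (k : ℕ)
    (h1 : ∀ X : Finset V, (∀ x ∈ X, ∀ y ∈ X, x ≠ y → G.Adj x y ∧ C.Adj x y) → X.card < k)
    (h2 : ∀ X : Finset V, (∀ x ∈ X, ∀ y ∈ X, x ≠ y → G.Adj x y ∧ ¬ C.Adj x y) → X.card < k) :
    ¬ Arrows G (⊤ : SimpleGraph (Fin k)) := by
  intro hG
  rcases hG (G ⊓ C) inf_le_left with h | h
  · refine (not_cliqueFree_iff_top_isContained _).2 h fun X hX => ?_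
    exact (h1 X fun x hx y hy hne => hX.1 hx hy hne).ne hX.2
  · refine (not_cliqueFree_iff_top_isContained _).2 h fun X hX => ?_
    exact (h2 X fun x hx y hy hne => ⟨(hX.1 hx hy hne).1, fun e =>
      (hX.1 hx hy hne).2 ⟨(hX.1 hx hy hne).1, e⟩⟩).ne hX.2

lemma recolS [Fintype W] [Nonempty W] {H : SimpleGraph W} {s t r w m : ℕ}
    (hH : H.CliqueFree (s + 1)) (hH' : Hᶜ.CliqueFree (s + t)) (hS : Spr H (r + 1) m) (hr : 1 ≤ r)
    (hm : (r * r + 1) ^ r * (s + w) ≤ m) (G R : SimpleGraph V) {A Z B Z' : Finset V}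
    (hA : A.card ≤ Fintype.card W) (hB : B.card ≤ Fintype.card W) (hZ : Z.card ≤ w)
    (hZ' : Z'.card ≤ w) (h1 : PS R s t (r + 1) ∅ A Z) (h2 : PS (G \ R) s t (r + 1) ∅ B Z') :
    ¬ Arrows G (⊤ : SimpleGraph (Fin (s + t))) := by
  have hw : w ≤ m := le_trans (le_trans (Nat.le_add_left _ _)
    (Nat.le_mul_of_pos_left _ (by positivity))) hm
  obtain ⟨p, hp⟩ := emb A hA
  obtain ⟨q, hq⟩ := emb B hB
  obtain ⟨j, j1, j2⟩ := hS V Z (hZ.trans hw)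
  obtain ⟨j', j3, j4⟩ := hS V Z' (hZ'.trans hw)
  obtain ⟨c, c1, c2⟩ := cross hH' hS hr hm
  obtain ⟨C, g1, g2, g3, g4, g5, g6⟩ := glue A (B \ A) disjoint_sdiff (H.comap p) (H.comap q)ᶜ R
    (fun x y => c (p x) (q y)) (fun x z => z ∈ Z → nb H (p x) (j z))
    (fun x z => z ∈ Z' ∧ ¬ nb H (q x) (j' z))
  refine finish G C _ (fun X hX => ?_) fun X hX => ?_
  · refine half hH hH' h1 A (B \ A) Z' Subset.rfl (fun x h _ => h) hZ' p q j j' j1 j2 j3 c c1 X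
      (fun x hx h y hy h' hne => (g1 x h y h').1 (hX x hx y hy hne).2)
      (fun x hx h z hz h' h'' => (g5 x h z h' h'').1 (hX x hx z hz fun e => h' (e ▸ h)).2)
      (fun x hx h h' y hy i i' hne => (g3 x h h' y i i').1 (hX x hx y hy hne).2)
      (fun x hx h y hy h' hne e => ?_)
      (fun x hx h z hz h' h'' => (g6 x h z h' h'').1 (hX x hx z hz fun e => h'' (e ▸ h)).2)
      fun x hx h y hy h' => (g4 x h y h').1 (hX x hx y hy fun e => (mem_sdiff.1 h').2 (e ▸ h)).2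
    exact e.elim (fun e => hne (hq (mem_sdiff.1 h).1 (mem_sdiff.1 h').1 e))
      ((g2 x h y h').1 (hX x hx y hy hne).2).2
  · refine half hH hH' h2 (B \ A) A Z sdiff_subset
      (fun x h h' e => h (mem_sdiff.2 ⟨e, h'⟩)) hZ q p j' j j3 j4 j1 (fun u v => ¬ c v u) c2 X
      (fun x hx h y hy h' hne => ?_) (fun x hx h z hz h' h'' hz' => ?_)
      (fun x hx h h' y hy i i' hne => ⟨(hX x hx y hy hne).1, fun e =>
        (hX x hx y hy hne).2 ((g3 x h' h y i' i).2 e)⟩)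
      (fun x hx h y hy h' hne e => ?_) (fun x hx h z hz h' h'' => ?_)
      fun x hx h y hy h' e => (hX y hy x hx fun e => (mem_sdiff.1 h).2 (e ▸ h')).2
        ((g4 y h' x h).2 e)
    · by_contra e
      exact (hX x hx y hy hne).2 ((g2 x h y h').2 ⟨hne, e⟩)
    · by_contra e
      exact (hX x hx z hz fun e => h' (e ▸ h)).2 ((g6 x h z h'' h').2 ⟨hz', e⟩)
    · exact e.elim (fun e => hne (hp h h' e)) fun e => (hX x hx y hy hne).2 ((g1 x h y h').2 e)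
    · exact Classical.not_imp.1 fun e => (hX x hx z hz fun e => h'' (e ▸ h)).2
        ((g5 x h z h'' h').2 e)

lemma recolL [Fintype W] [Nonempty W] {H : SimpleGraph W} {s t ρ m β : ℕ}
    (hH : H.CliqueFree (s + 1)) (hH' : Hᶜ.CliqueFree (s + t)) (hS : Spr H ρ m)
    (G R : SimpleGraph V) {Y U B Z : Finset V} (hY : Y.card < ramsey 3 (t - β))
    (hB : B.card ≤ Fintype.card W) (hZ : Z.card ≤ m) (h1 : PL R (s + t) β Y U)
    (h2 : PS (G \ R) s t ρ Y B Z) : ¬ Arrows G (⊤ : SimpleGraph (Fin (s + t))) := by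
  obtain ⟨q, hq⟩ := emb B hB
  obtain ⟨j, j1, j2⟩ := hS V Z hZ
  obtain ⟨P, P1, P2⟩ := exists_good_on 3 (t - β) Y hY
  obtain ⟨C, g1, g2, g3, g4, g5, g6⟩ := glue Y (B \ Y) disjoint_sdiff P (H.comap q)ᶜ R
    (fun _ _ => False) (fun _ z => z ∉ U) (fun x z => z ∈ Z ∧ ¬ nb H (q x) (j z))
  refine finish G C _ (fun X hX => ?_) fun X hX => ?_
  · by_cases a : ∀ x ∈ X, x ∉ Y
    · by_cases b : ∀ x ∈ X, x ∉ B \ Y
      · exact (h1.1 X (fun x hx y hy hne => (g3 x (a x hx) (b x hx) y (a y hy) (b y hy)).1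
          (hX x hx y hy hne).2) (disjoint_right.2 a)).1
      push Not at b
      obtain ⟨u, hu, hu'⟩ := b
      refine other hH' (B \ Y) Z q j j1 X hu hu' (fun x hx h y hy h' hne e => ?_)
        fun x hx h z hz h' => (g6 x h z (a z hz) h').1 (hX x hx z hz fun e => h' (e ▸ h)).2
      exact e.elim (fun e => hne (hq (mem_sdiff.1 h).1 (mem_sdiff.1 h').1 e))
        ((g2 x h y h').1 (hX x hx y hy hne).2).2
    push Not at a
    obtain ⟨v, hv, hv'⟩ := a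
    have b : ∀ x ∈ X, x ∉ B \ Y := fun x hx h =>
      (g4 v hv' x h).1 (hX v hv x hx fun e => (mem_sdiff.1 h).2 (e ▸ hv')).2
    have c0 := card_sdiff_add_card_inter X Y
    have c1 := card_lt_of_clique P1 (K := X ∩ Y) (coe_subset.2 inter_subset_right)
      fun x hx y hy hne => (g1 x (mem_inter.1 hx).2 y (mem_inter.1 hy).2).1
        (hX x (mem_inter.1 hx).1 y (mem_inter.1 hy).1 hne).2
    have c2 := (h1.1 (X \ Y) (fun x hx y hy hne => (g3 x (mem_sdiff.1 hx).2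
      (b x (mem_sdiff.1 hx).1) y (mem_sdiff.1 hy).2 (b y (mem_sdiff.1 hy).1)).1
      (hX x (mem_sdiff.1 hx).1 y (mem_sdiff.1 hy).1 hne).2) disjoint_sdiff).2
      (disjoint_right.2 fun x hx => (g5 v hv' x (mem_sdiff.1 hx).2 (b x (mem_sdiff.1 hx).1)).1
        (hX v hv x (mem_sdiff.1 hx).1 fun e => (mem_sdiff.1 hx).2 (e ▸ hv')).2)
    omega
  · have a1 : ∀ x ∈ X, x ∈ B \ Y → ∀ y ∈ X, y ∈ B \ Y → x ≠ y → H.Adj (q x) (q y) := by
      intro x hx h y hy h' hne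
      by_contra e
      exact (hX x hx y hy hne).2 ((g2 x h y h').2 ⟨hne, e⟩)
    by_cases a : ∀ x ∈ X, x ∉ Y
    · refine own hH h2 (B \ Y) sdiff_subset q j j1 j2 X
        (fun x hx h => ⟨fun e => h (mem_sdiff.2 ⟨e, a x hx⟩), a x hx⟩) a1
        (fun x hx h z hz h' hz' => ?_) fun x hx h y hy h' hne => ⟨(hX x hx y hy hne).1, fun e =>
          (hX x hx y hy hne).2 ((g3 x (a x hx) h y (a y hy) h').2 e)⟩
      by_contra e
      exact (hX x hx z hz fun e => h' (e ▸ h)).2 ((g6 x h z (a z hz) h').2 ⟨hz', e⟩)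
    push Not at a
    obtain ⟨v, hv, hv'⟩ := a
    have c0 := card_three X Y (B \ Y)
    have c1 := card_lt_of_clique P2 (K := X ∩ Y) (coe_subset.2 inter_subset_right)
      fun x hx y hy hne => ⟨hne, fun e => (hX x (mem_inter.1 hx).1 y (mem_inter.1 hy).1 hne).2
        ((g1 x (mem_inter.1 hx).2 y (mem_inter.1 hy).2).2 e)⟩
    have c2 := (clique_img hH q (X ∩ (B \ Y)) fun x hx y hy => a1 x (mem_inter.1 hx).1
      (mem_inter.1 hx).2 y (mem_inter.1 hy).1 (mem_inter.1 hy).2).1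
    have m1 : ∀ x ∈ (X \ Y) \ (B \ Y), x ∈ X ∧ x ∉ Y ∧ x ∉ B \ Y := fun x hx =>
      ⟨(mem_sdiff.1 (mem_sdiff.1 hx).1).1, (mem_sdiff.1 (mem_sdiff.1 hx).1).2, (mem_sdiff.1 hx).2⟩
    have c3 := h1.2 ((X \ Y) \ (B \ Y)) (fun x hx => by
      by_contra e
      exact (hX v hv x (m1 x hx).1 fun e => (m1 x hx).2.1 (e ▸ hv')).2
        ((g5 v hv' x (m1 x hx).2.1 (m1 x hx).2.2).2 e)) fun x hx y hy e =>
      (hX x (m1 x hx).1 y (m1 y hy).1 e.ne).2
        ((g3 x (m1 x hx).2.1 (m1 x hx).2.2 y (m1 y hy).2.1 (m1 y hy).2.2).2 e)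
    omega

theorem equiv_exact [Fintype W] [Nonempty W] {H : SimpleGraph W} {s t e f β m : ℕ}
    (hH : H.CliqueFree (s + 1)) (hH' : Hᶜ.CliqueFree (s + t)) (hS : Spr H (2 * (e + 1)) m)
    (he : s = 2 ∧ e = 1 ∧ β = f ∨ 3 ≤ s ∧ e + 2 = s) (hst : s * (e + 1) ≤ t)
    (hm : ((2 * e + 1) * (2 * e + 1) + 1) ^ (2 * e + 1) * (s + s * (e + 1)) ≤ m)
    (hf : f * t ≤ Fintype.card W) (h3 : 2 * (s * (s + t)) < ramsey 3 (t - β)) :
    RamseyEquiv (⊤ : SimpleGraph (Fin (s + t))) (cliquePlus (s + t) f t) := by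
  classical
  intro V _ G
  have hw : s * (e + 1) ≤ m := le_trans (le_trans (Nat.le_add_left _ _)
    (Nat.le_mul_of_pos_left _ (by positivity))) hm
  constructor
  · intro hG R hR
    by_contra hcon
    obtain ⟨n1, n2⟩ := not_or.1 hcon
    rcases dichotomy R s t e f β he hst n1 with ⟨A, Z, a1, a2, a3⟩ | ⟨Y, U, a1, a2⟩ <;>
      rcases dichotomy (G \ R) s t e f β he hst n2 with ⟨B, Z', b1, b2, b3⟩ | ⟨Y', U', b1, b2⟩
    · exact recolS (r := 2 * e + 1) hH hH' hS (by omega) hm G R (a1.trans hf) (b1.trans hf)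
        a2 b2 a3 b3 hG
    · refine recolL hH hH' hS G (G \ R) (by omega) (a1.trans hf) (a2.trans hw) b2 ?_ hG
      rw [sdiff_sdiff_eq_self hR]
      exact fun X h _ => a3 X h (disjoint_empty_left _)
    · exact recolL hH hH' hS G R (by omega) (b1.trans hf) (b2.trans hw) a2
        (fun X h _ => b3 X h (disjoint_empty_left _)) hG
    · have c := card_union_le Y Y'
      exact recolL (Y := Y ∪ Y') (U := U) (B := ∅) (Z := ∅) (β := β) hH hH' hS G R (by omega)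
        (by simp) (by simp) ⟨fun X h h' => a2.1 X h (h'.mono_left subset_union_left), a2.2⟩
        (fun X h h' _ => ⟨(b2.1 X h (h'.mono_left subset_union_right)).1,
          fun h => absurd h (by simp)⟩) hG
  · intro hG R hR
    rcases hG R hR with h | h
    · exact Or.inl ((top_le_cliquePlus _ _ _).trans h)
    · exact Or.inr ((top_le_cliquePlus _ _ _).trans h)

end Pool.Agent.Lib.MP_904cf4_co.EXA
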