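import Pool.Agent.Lib.MP_904cf4_co.Final
import Pool.Agent.Lib.MP_904cf4_co.Flag
import Pool.Agent.Lib.MP_904cf4_co.Recol

/-! The exact value of `f(k, k - s)` for small `s`. -/

set_option autoImplicit false

namespace Pool.Agent.Lib.MP_904cf4_co.EXA

open Finset SimpleGraph

lemma lb_prime (τ p j k n : ℕ) (hτ : 2 ≤ τ) (hp : p.Prime) (hj : p ≤ 2 ^ j) (hk0 : 0 < k)
    (hk : 8 * p * τ ^ 4 * (j * (j + 1)) ≤ k) (hn : 168 * τ * n < k * p ^ (τ - 2)) :
    n < ramsey τ k := by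
  have := Fact.mk hp
  obtain ⟨r, rfl⟩ : ∃ r, τ = r + 2 := ⟨τ - 2, by omega⟩
  rw [Nat.add_sub_cancel] at hn
  have hp0 : (0 : ℝ) < p := by exact_mod_cast hp.pos
  have hpj : (p : ℝ) ≤ 2 ^ j := by exact_mod_cast hj
  have hk0' : (0 : ℝ) < k := by exact_mod_cast hk0
  refine FL.lower (F := ZMod p) hτ (8 * p * (r + 2) * (j * (r + 2))) n k ?_ ?_
  · rw [ZMod.card]
    have h0 : 1 ≤ 8 * p * (r + 2) := by
      have := hp.pos
      exact Nat.mul_pos (by omega) (by omega)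
    have h3 : (1 - 1 / (8 * (p : ℝ) * (r + 2 : ℕ))) ^ (8 * p * (r + 2)) ≤ 1 / 2 := by
      have h4 := Real.one_sub_div_pow_le_exp_neg (n := 8 * p * (r + 2)) (t := 1)
        (by exact_mod_cast h0)
      rw [Nat.cast_mul, Nat.cast_mul, Nat.cast_ofNat] at h4
      exact h4.trans Real.exp_neg_one_lt_half.le
    have h4 : 0 ≤ (1 - 1 / (8 * (p : ℝ) * (r + 2 : ℕ))) ^ (8 * p * (r + 2)) :=
      Even.pow_nonneg ⟨4 * p * (r + 2), by ring⟩ _
    rw [pow_mul]
    calc ((1 - 1 / (8 * (p : ℝ) * (r + 2 : ℕ))) ^ (8 * p * (r + 2))) ^ (j * (r + 2)) *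
          (p : ℝ) ^ (r + 2) ≤ (1 / 2) ^ (j * (r + 2)) * (2 ^ j) ^ (r + 2) := by gcongr
      _ = 1 := by rw [← pow_mul, ← mul_pow, one_div_mul_cancel two_ne_zero, one_pow]
  · rw [ZMod.card]
    have h1 : (n.choose k : ℝ) ≤ (3 * n / k) ^ k := by
      have hf : (0 : ℝ) < k.factorial := by exact_mod_cast k.factorial_pos
      have h3 : (k : ℝ) ^ k / k.factorial ≤ 3 ^ k := by
        refine (Real.pow_div_factorial_le_exp _ hk0'.le k).trans ?_
        rw [← Real.exp_one_pow]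
        exact pow_le_pow_left₀ (Real.exp_pos 1).le Real.exp_one_lt_three.le k
      calc (n.choose k : ℝ) ≤ (n : ℝ) ^ k / k.factorial := Nat.choose_le_pow_div k n
        _ = (n / k) ^ k * ((k : ℝ) ^ k / k.factorial) := by
          rw [div_pow]
          field_simp
        _ ≤ (n / k) ^ k * 3 ^ k := by gcongr
        _ = _ := by rw [← mul_pow, mul_comm, mul_div_assoc]
    have h2 : (r + 2) * p ^ (r + 2) + 1 ≤ 2 ^ ((j + 1) * (r + 2)) := by
      have h3 : r + 2 + 1 ≤ 2 ^ (r + 2) := Nat.lt_two_pow_self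
      have h4 : 1 ≤ p ^ (r + 2) := Nat.one_le_pow _ _ hp.pos
      calc _ ≤ (r + 2 + 1) * p ^ (r + 2) := by linarith
        _ ≤ 2 ^ (r + 2) * (2 ^ j) ^ (r + 2) := by gcongr
        _ = _ := by rw [← mul_pow, ← pow_succ', ← pow_mul]
    have h3 : ((((r + 2 : ℕ) : ℝ) * (p : ℝ) ^ (r + 2) + 1) ^ (r + 2)) ^
        (8 * p * (r + 2) * (j * (r + 2))) ≤ 2 ^ k := by
      have h4 : (((r + 2) * p ^ (r + 2) + 1) ^ (r + 2)) ^ (8 * p * (r + 2) * (j * (r + 2))) ≤
          2 ^ k := by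
        calc _ ≤ ((2 ^ ((j + 1) * (r + 2))) ^ (r + 2)) ^ (8 * p * (r + 2) * (j * (r + 2))) := by
              gcongr
          _ ≤ _ := by
            rw [← pow_mul, ← pow_mul]
            exact Nat.pow_le_pow_right two_pos (le_trans (le_of_eq (by ring)) hk)
      exact_mod_cast h4
    have h7 : 3 * (n : ℝ) / k * (28 * (r + 2 : ℕ) * (p : ℝ) ^ 2 / (p : ℝ) ^ (r + 2)) * 2 < 1 := by
      have e : 3 * (n : ℝ) / k * (28 * (r + 2 : ℕ) * (p : ℝ) ^ 2 / (p : ℝ) ^ (r + 2)) * 2 =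
          168 * (r + 2 : ℕ) * n / (k * p ^ r) := by
        field_simp
        ring
      rw [e, div_lt_one (by positivity)]
      exact_mod_cast hn
    refine lt_of_le_of_lt ?_ (pow_lt_one₀ (by positivity) h7 hk0.ne')
    rw [mul_pow _ _ k, mul_pow _ _ k]
    gcongr

/-- `R(s + 1, k) ≥ k ^ s / b ^ (7 s)` -/
lemma lb (u k b : ℕ) (hb : 16 ≤ b) (hk : k ≤ 2 ^ (b - 1)) (hs : u + 2 ≤ b) (h : b ^ 7 ≤ k) :
    k ^ (u + 1) ≤ b ^ (7 * (u + 1)) * ramsey (u + 2) k := by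
  obtain ⟨j, rfl⟩ : ∃ j, b = j + 1 := ⟨b - 1, by omega⟩
  rw [Nat.add_sub_cancel] at hk
  set x := 16 * (u + 2) ^ 4 * (j * (j + 1)) with hx
  have x0 : 0 < x := by
    have : 0 < j := by omega
    positivity
  have x1 : x ≤ (j + 1) ^ 7 := by
    calc x ≤ (j + 1) * (j + 1) ^ 4 * ((j + 1) * (j + 1)) := by
          rw [hx]
          gcongr
          omega
      _ = _ := by ring
  obtain ⟨p, hp, p1, p2⟩ := Nat.exists_prime_lt_and_le_two_mul (k / x)
    (Nat.div_pos (x1.trans h) x0).ne'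
  have p3 : k ≤ x * p := (Nat.lt_mul_div_succ k x0).le.trans (Nat.mul_le_mul_left _ p1)
  have p4 : 8 * p * (u + 2) ^ 4 * (j * (j + 1)) ≤ k := by
    have h1 := Nat.div_mul_le_self k x
    calc _ ≤ 8 * (2 * (k / x)) * (u + 2) ^ 4 * (j * (j + 1)) := by gcongr
      _ = k / x * x := by rw [hx]; ring
      _ ≤ k := h1
  have p5 : p ≤ 2 ^ j := by
    refine le_trans (le_trans ?_ p4) hk
    have : 0 < j := by omega
    calc p ≤ p * (8 * (u + 2) ^ 4 * (j * (j + 1))) := Nat.le_mul_of_pos_right _ (by positivity)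
      _ = _ := by ring
  have k0 : 0 < k := lt_of_lt_of_le (by positivity) h
  have p6 : k * p ^ u ≤ 168 * (u + 2) * ramsey (u + 2) k := by
    by_contra c
    exact lt_irrefl _ (lb_prime (u + 2) p j k _ (by omega) hp p5 k0 p4 (not_le.1 c))
  have p7 : 168 * (u + 2) ≤ (j + 1) ^ 7 := by
    calc _ ≤ 16 ^ 6 * (j + 1) := Nat.mul_le_mul (by norm_num) hs
      _ ≤ (j + 1) ^ 6 * (j + 1) := by gcongr
      _ = _ := by ring
  calc k ^ (u + 1) = k * k ^ u := pow_succ' _ _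
    _ ≤ k * (x * p) ^ u := by gcongr
    _ = x ^ u * (k * p ^ u) := by rw [mul_pow, mul_left_comm]
    _ ≤ ((j + 1) ^ 7) ^ u * ((j + 1) ^ 7 * ramsey (u + 2) k) :=
      Nat.mul_le_mul (Nat.pow_le_pow_left x1 u) (p6.trans (Nat.mul_le_mul_right _ p7))
    _ = _ := by rw [← mul_assoc, ← pow_succ, ← pow_mul]

lemma num_spread (k u B n m D ρ : ℕ) (hB : 2 ≤ B) (hk : B ^ 70 ≤ k) (hn : n ≤ k ^ (u + 1))
    (hn' : k ^ (u + 1) ≤ B ^ 8 * n) (hm : m ≤ B ^ 6) (hD : D ≤ k ^ u) (d : ℕ) (hd : 1 ≤ d)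
    (hρ : ρ = u + 1 + d) (hρ' : ρ ≤ 4 * d) :
    2 * (m ^ 2 * D) < n ∧ 2 * (n * (m * D) ^ ρ) < n ^ ρ := by
  have k0 : 0 < k := lt_of_lt_of_le (by positivity) hk
  constructor
  · refine lt_of_mul_lt_mul_left (a := B ^ 8) ?_ (Nat.zero_le _)
    calc B ^ 8 * (2 * (m ^ 2 * D)) ≤ B ^ 8 * (B * ((B ^ 6) ^ 2 * k ^ u)) := by gcongr
      _ = B ^ 21 * k ^ u := by ring
      _ < B ^ 70 * k ^ u := Nat.mul_lt_mul_of_pos_right (Nat.pow_lt_pow_right hB (by norm_num))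
        (by positivity)
      _ ≤ k * k ^ u := by gcongr
      _ = k ^ (u + 1) := (pow_succ' _ _).symm
      _ ≤ _ := hn'
  · refine lt_of_mul_lt_mul_left (a := (B ^ 8) ^ ρ) ?_ (Nat.zero_le _)
    calc (B ^ 8) ^ ρ * (2 * (n * (m * D) ^ ρ))
        ≤ (B ^ 8) ^ ρ * (B * (k ^ (u + 1) * (B ^ 6 * k ^ u) ^ ρ)) := by gcongr
      _ = B ^ (14 * ρ + 1) * (k ^ (u + 1) * (k ^ u) ^ ρ) := by ring
      _ < (B ^ 70) ^ d * (k ^ (u + 1) * (k ^ u) ^ ρ) := by
        rw [← pow_mul B]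
        exact Nat.mul_lt_mul_of_pos_right (Nat.pow_lt_pow_right hB (by omega)) (by positivity)
      _ ≤ k ^ d * (k ^ (u + 1) * (k ^ u) ^ ρ) := by gcongr
      _ = k ^ (u + 1 + d) * (k ^ u) ^ ρ := by ring
      _ = (k ^ (u + 1)) ^ ρ := by rw [← hρ, ← mul_pow, ← pow_succ']
      _ ≤ (B ^ 8 * n) ^ ρ := by gcongr
      _ = _ := mul_pow _ _ _

theorem equiv_of_lt (s t f : ℕ) (hs : 2 ≤ s) (h : (Nat.log 2 (s + t) + 2) ^ (70 * s) ≤ s + t)
    (hf : f * t < ramsey (s + t) (s + 1)) :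
    3 ≤ t ∧ RamseyEquiv (⊤ : SimpleGraph (Fin (s + t))) (cliquePlus (s + t) f t) := by
  classical
  set k := s + t with hkd
  set b := Nat.log 2 k + 2 with hbd
  have b2 : 2 ≤ b := by omega
  have hk : k ≤ 2 ^ (b - 1) := (Nat.lt_pow_succ_log_self one_lt_two k).le
  have sb : 70 * s ≤ b - 1 :=
    (Nat.pow_le_pow_iff_right one_lt_two).1 (((Nat.pow_le_pow_left b2 _).trans h).trans hk)
  have pw : ∀ a, a ≤ 70 * s → b ^ a ≤ k := fun a ha =>
    (Nat.pow_le_pow_right (by omega) ha).trans h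
  have k3 : b * b * b ≤ k := le_trans (le_of_eq (by ring)) (pw 3 (by omega))
  have bb : 140 * b ≤ b * b := Nat.mul_le_mul_right _ (by omega)
  have bbb : 140 * (b * b) ≤ b * b * b := by
    rw [mul_comm (b * b)]
    exact Nat.mul_le_mul_right _ (by omega)
  have ss : s * s ≤ b * b := Nat.mul_le_mul (by omega) (by omega)
  refine ⟨by omega, ?_⟩
  obtain ⟨u, hu⟩ : ∃ u, s = u + 1 := ⟨s - 1, by omega⟩
  obtain ⟨l, hl⟩ : ∃ l, k = l + 1 := ⟨k - 1, by omega⟩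
  have r1 := lb u k b (by omega) hk (by omega) (pw 7 (by omega))
  have r2 : ramsey (u + 2) k ≤ k ^ (u + 1) := by
    rw [hl]
    exact ramsey_le_pow (u + 1) l
  have r3 : ramsey (u + 1) k ≤ k ^ u := by
    rw [hl]
    exact ramsey_le_pow u l
  rw [ramsey_comm, hu] at hf
  obtain ⟨n, hn⟩ : ∃ n, ramsey (u + 2) k = n + 1 := ⟨ramsey (u + 2) k - 1, by
    have : ramsey (u + 1 + 1) k = ramsey (u + 2) k := rfl
    omega⟩
  have B2 : 2 ≤ b ^ s := b2.trans (Nat.le_self_pow (by omega) b)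
  have Bk : (b ^ s) ^ 70 ≤ k := by rwa [← pow_mul, mul_comm]
  have r4 : k ^ (u + 1) ≤ (b ^ s) ^ 7 * (n + 1) := by rwa [← hn, ← pow_mul, mul_comm s, hu]
  have n0 : 0 < n := by
    by_contra c
    rw [show n = 0 by omega, zero_add, mul_one] at r4
    have c1 : (b ^ s) ^ 7 < (b ^ s) ^ 70 := Nat.pow_lt_pow_right B2 (by norm_num)
    have c2 : k ≤ k ^ (u + 1) := Nat.le_self_pow (by omega) k
    omega
  have r5 : k ^ (u + 1) ≤ (b ^ s) ^ 8 * n := by
    refine r4.trans ?_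
    rw [pow_succ _ 7, mul_assoc]
    exact Nat.mul_le_mul_left _ (by nlinarith)
  obtain ⟨H, H1, H2⟩ := exists_good_on (u + 2) k (univ : Finset (Fin n)) (by simp [hn])
  rw [coe_univ, cliqueFreeOn_univ] at H1 H2
  have : Nonempty (Fin n) := ⟨⟨0, n0⟩⟩
  obtain ⟨e, β, he, hβ⟩ : ∃ e β, (s = 2 ∧ e = 1 ∧ β = f ∨ 3 ≤ s ∧ e + 2 = s) ∧
      k ≤ 4 * (t - β) := by
    rcases hs.eq_or_lt with h2 | h2
    · refine ⟨1, f, Or.inl ⟨h2.symm, rfl, rfl⟩, ?_⟩
      have c1 : ramsey (u + 2) k ≤ (2 + l).choose 2 := by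
        rw [show u = 1 by omega, hl]
        exact ramsey_le_choose 2 l
      have c2 : (2 + l).choose 2 * 2 ≤ (2 + l) * (2 + l - 1) := by
        rw [Nat.choose_two_right]
        exact Nat.div_mul_le_self _ _
      rw [show 2 + l - 1 = t + 2 by omega, show 2 + l = t + 3 by omega] at c2
      rw [show 2 + l = t + 3 by omega] at c1
      have c3 : f * t < ramsey (u + 2) k := hf
      have c4 : 2 * f < t + 6 := by
        refine lt_of_mul_lt_mul_right (a := t) ?_ (Nat.zero_le _)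
        have : 6 ≤ t := by omega
        nlinarith
      omega
    · exact ⟨s - 2, 0, Or.inr ⟨h2, by omega⟩, by omega⟩
  have es : e + 1 ≤ s := by omega
  have se : s * (e + 1) ≤ s * s := Nat.mul_le_mul_left _ es
  have hm : ((2 * e + 1) * (2 * e + 1) + 1) ^ (2 * e + 1) * (s + s * (e + 1)) ≤ (b ^ s) ^ 6 := by
    have c1 : (2 * e + 1) * (2 * e + 1) + 1 ≤ b ^ 3 := by
      have : (2 * e + 1) * (2 * e + 1) ≤ b * b := Nat.mul_le_mul (by omega) (by omega)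
      rw [show b ^ 3 = b * b * b by ring]
      omega
    have c2 : s + s * (e + 1) ≤ b ^ 3 := by
      rw [show b ^ 3 = b * b * b by ring]
      omega
    calc _ ≤ (b ^ 3) ^ (2 * e + 1) * b ^ 3 := by gcongr
      _ = b ^ (6 * (e + 1)) := by ring_nf
      _ ≤ b ^ (s * 6) := Nat.pow_le_pow_right (by omega) (by omega)
      _ = _ := pow_mul _ _ _
  obtain ⟨s1, s2⟩ := num_spread k u (b ^ s) n _ _ (2 * (e + 1)) B2 Bk (by omega) r5 le_rfl r3
    (2 * (e + 1) - s) (by omega) (by omega) (by omega)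
  have hS : Spr H (2 * (e + 1)) ((b ^ s) ^ 6) := by
    refine spread H (ramsey (u + 1) k) _ _ (fun v X hX => ?_) (by rwa [Fintype.card_fin])
      (by rwa [Fintype.card_fin])
    have a : ∀ x ∈ X.erase v, H.Adj v x := fun x hx =>
      (hX x (mem_of_mem_erase hx)).resolve_left (ne_of_mem_erase hx).symm
    have c1 := ramsey_set H (u + 1) k (X.erase v) (fun K hK hc =>
      H1 (insert v K) (hc.insert fun x hx => a x (hK hx))) H2.cliqueFreeOn
    have c2 := pred_card_le_card_erase (s := X) (a := v)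
    omega
  refine equiv_exact (W := Fin n) (by rwa [hu]) H2 hS he (by omega) hm (by
    have : f * t < ramsey (u + 2) k := hf
    rw [Fintype.card_fin]
    omega) ?_
  have c0 : t - β ≤ k := by omega
  have c1 : b ^ 7 * 4 ≤ b ^ 8 := by
    rw [pow_succ _ 7]
    exact Nat.mul_le_mul_left _ (by omega)
  have c2 := pw 8 (by omega)
  have c3 := lb 1 (t - β) b (by omega) (c0.trans hk) (by omega) (by omega)
  refine lt_of_mul_lt_mul_left (a := 16 * b ^ 14) ?_ (Nat.zero_le _)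
  calc 16 * b ^ 14 * (2 * (s * k)) = 32 * s * b ^ 14 * k := by ring
    _ < b * b * b ^ 14 * k := by
      have c4 : 0 < b := by omega
      have c5 : 0 < k := by omega
      exact Nat.mul_lt_mul_of_pos_right (Nat.mul_lt_mul_of_pos_right (by omega)
        (pow_pos c4 _)) c5
    _ = b ^ 16 * k := by ring
    _ ≤ k * k := Nat.mul_le_mul_right _ (pw 16 (by omega))
    _ ≤ 4 * (t - β) * (4 * (t - β)) := Nat.mul_le_mul hβ hβ
    _ = 16 * (t - β) ^ (1 + 1) := by ring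
    _ ≤ 16 * (b ^ (7 * (1 + 1)) * ramsey (1 + 2) (t - β)) := Nat.mul_le_mul_left _ c3
    _ = _ := by ring

theorem fkt_exact (s t : ℕ) (hs : 2 ≤ s) (h : (Nat.log 2 (s + t) + 2) ^ (70 * s) ≤ s + t) :
    fkt (s + t) t = (ramsey (s + t) (s + 1) - 1) / t := by
  have hp : 0 < ramsey (s + t) (s + 1) := ramsey_pos (by omega) (by omega)
  have h1 := Nat.div_mul_le_self (ramsey (s + t) (s + 1) - 1) t
  obtain ⟨ht, h2⟩ := equiv_of_lt s t ((ramsey (s + t) (s + 1) - 1) / t) hs h (by omega)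
  have h3 := fkt_upper s t ht hs
  exact le_antisymm ((Nat.le_div_iff_mul_le (by omega)).2 (by omega))
    (le_csSup (fkt_bdd s t ht hs) h2)

end Pool.Agent.Lib.MP_904cf4_co.EXA
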