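import Pool.Agent.Lib.MP_904cf4_co.RamseyLower

set_option autoImplicit false

namespace Pool.Agent.Lib.MP_904cf4_co

open SimpleGraph Filter Topology

lemma drc {V : Type} [Fintype V] (G : SimpleGraph V) (a b l d h m : ℕ) (ha : 0 < a)
    (hm1 : ramsey a l ≤ m) (hm2 : ramsey b l ≤ m) (h1 : G.CliqueFree (a + b))
    (h2 : Gᶜ.CliqueFree l) (hd : ∀ v, d ≤ (G.neighborSet v).ncard) :
    Fintype.card V * d ^ h ≤ Fintype.card V ^ a * m ^ h + m * Fintype.card V ^ h := by
  classical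
  let N : Finset V → Finset V := fun S => Finset.univ.filter (fun w => ∀ v ∈ S, G.Adj v w)
  let U : (Fin h → V) → Finset V := fun T => Finset.univ.filter (fun v => ∀ i, G.Adj v (T i))
  let Bad : Finset (Finset V) := (Finset.univ.powersetCard a).filter (fun S => (N S).card < m)
  let F : (Fin h → V) → Finset (Finset V) := fun T => Bad.filter (fun S => S ⊆ U T)
  have cnt : ∀ S : Finset V, (Finset.univ.filter (fun T : Fin h → V => S ⊆ U T)).card =
      (N S).card ^ h := by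
    intro S
    rw [← Fintype.card_piFinset_const]
    congr 1
    ext T
    simp only [U, N, Finset.mem_filter, Finset.mem_univ, true_and, Fintype.mem_piFinset,
      Finset.subset_iff]
    exact ⟨fun H i v hv => H hv i, fun H v hv i => H i v hv⟩
  have s1 : Fintype.card V * d ^ h ≤ ∑ T, (U T).card := by
    have : ∑ T, (U T).card = ∑ v, (N {v}).card ^ h := by
      simp only [← cnt, Finset.card_filter]
      rw [Finset.sum_comm]
      refine Finset.sum_congr rfl (fun T _ => ?_)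
      simp only [Finset.singleton_subset_iff]
      rw [← Finset.card_filter]
      congr 1
      ext v
      simp
    rw [this, ← Finset.card_univ, ← smul_eq_mul, ← Finset.sum_const]
    refine Finset.sum_le_sum (fun v _ => Nat.pow_le_pow_left ((hd v).trans (le_of_eq ?_)) _)
    rw [← Set.ncard_coe_finset]
    congr 1
    ext w
    simp [N]
  have s2 : ∑ T, (F T).card ≤ Fintype.card V ^ a * m ^ h := by
    have : ∑ T, (F T).card = ∑ S ∈ Bad, (N S).card ^ h := by
      simp only [F, ← cnt, Finset.card_filter]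
      rw [Finset.sum_comm]
    rw [this]
    calc ∑ S ∈ Bad, (N S).card ^ h ≤ ∑ _S ∈ Bad, m ^ h := Finset.sum_le_sum (fun S hS =>
          Nat.pow_le_pow_left (Finset.mem_filter.1 hS).2.le _)
      _ = Bad.card * m ^ h := by simp
      _ ≤ _ := by
        refine Nat.mul_le_mul_right _ ((Finset.card_filter_le _ _).trans ?_)
        rw [Finset.card_powersetCard, Finset.card_univ]
        exact Nat.choose_le_pow _ _
  have s3 : ∀ T, (U T).card ≤ (F T).card + m := by
    intro T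
    obtain ⟨U', hU1, hU2, hU3⟩ := deletion (U T) (F T) (fun S hS => by
      rw [← Finset.card_pos, (Finset.mem_powersetCard.1
        (Finset.mem_filter.1 (Finset.mem_filter.1 hS).1).1).2]
      exact ha)
    have : U'.card < ramsey a l := by
      refine ramsey_set G a l U' (fun S hS hc => ?_) h2.cliqueFreeOn
      refine hU3 S (Finset.mem_filter.2 ⟨Finset.mem_filter.2 ⟨Finset.mem_powersetCard.2
        ⟨Finset.subset_univ _, hc.2⟩, lt_of_lt_of_le ?_ hm2⟩, fun v hv => hU1 (hS hv)⟩) hS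
      refine ramsey_set G b l (N S) (fun K hK hK' => ?_) h2.cliqueFreeOn
      have hadj : ∀ v ∈ S, ∀ w ∈ K, G.Adj v w := fun v hv w hw =>
        (Finset.mem_filter.1 (Finset.mem_coe.1 (hK hw))).2 v hv
      have hdis : Disjoint S K := Finset.disjoint_left.2 (fun v hv hw => (hadj v hv v hw).ne rfl)
      refine h1 (S ∪ K) ⟨?_, by rw [Finset.card_union_of_disjoint hdis, hc.2, hK'.2]⟩
      intro x hx y hy hxy
      rcases Finset.mem_union.1 (Finset.mem_coe.1 hx) with hx | hx <;>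
        rcases Finset.mem_union.1 (Finset.mem_coe.1 hy) with hy | hy
      · exact hc.1 hx hy hxy
      · exact hadj x hx y hy
      · exact (hadj y hy x hx).symm
      · exact hK'.1 hx hy hxy
    omega
  have s4 : ∑ T, (U T).card ≤ ∑ T, ((F T).card + m) := Finset.sum_le_sum (fun T _ => s3 T)
  rw [Finset.sum_add_distrib, Finset.sum_const, Finset.card_univ, Fintype.card_fun,
    Fintype.card_fin, smul_eq_mul, mul_comm _ m] at s4
  omega

lemma ramsey_le_pow (a l : ℕ) : ramsey (a + 1) (l + 1) ≤ (l + 1) ^ a := by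
  refine (ramsey_le_choose a l).trans ?_
  rw [add_comm a l]
  exact Nat.choose_add_le_add_one_pow l a

lemma drc_ramsey (q l h z n : ℕ) (hq : 3 ≤ q) (hz : l < (z + 1) ^ (2 * q + 2))
    (hn : n + 1 = ramsey q (l + 1)) :
    n * (n - ramsey q l) ^ h ≤
      n ^ q * ((z + 1) ^ (q ^ 2 - 1)) ^ h + (z + 1) ^ (q ^ 2 - 1) * n ^ h := by
  classical
  obtain ⟨G, hG1, hG2⟩ := exists_good_on q (l + 1) (Finset.univ : Finset (Fin n))
    (by rw [Finset.card_univ, Fintype.card_fin]; omega)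
  rw [Finset.coe_univ, cliqueFreeOn_univ] at hG1 hG2
  have hm : ∀ c, 2 * c ≤ q - 1 → ramsey (c + 1) (l + 1) ≤ (z + 1) ^ (q ^ 2 - 1) := by
    intro c hc
    refine (ramsey_le_pow c l).trans ((Nat.pow_le_pow_left hz c).trans ?_)
    rw [← pow_mul]
    refine Nat.pow_le_pow_right (by omega) ?_
    obtain ⟨p, rfl⟩ : ∃ p, q = p + 1 := ⟨q - 1, by omega⟩
    rw [show (p + 1) ^ 2 - 1 = p ^ 2 + 2 * p by rw [add_sq]; omega]
    simp only [Nat.add_sub_cancel] at hc
    nlinarith
  have := drc G ((q - 1) / 2 + 1) (q / 2 - 1 + 1) (l + 1) (n - ramsey q l) h _ (by omega)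
    (hm _ (by omega)) (hm _ (by omega))
    (by rwa [show (q - 1) / 2 + 1 + (q / 2 - 1 + 1) = q by omega]) hG2 (fun v => ?_)
  · rw [Fintype.card_fin] at this
    refine this.trans (Nat.add_le_add_right (Nat.mul_le_mul_right _ ?_) _)
    rcases Nat.eq_zero_or_pos n with rfl | h0
    · simp
    · exact Nat.pow_le_pow_right h0 (by omega)
  · have h1 : (Gᶜ.neighborFinset v).card < ramsey q l := by
      refine ramsey_set G q l _ hG1.cliqueFreeOn (fun K hK hc => ?_)
      refine hG2 (insert v K) (hc.insert (fun w hw => ?_))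
      simpa using hK hw
    have h2 := G.degree_compl v
    rw [card_neighborFinset_eq_degree] at h1
    rw [Fintype.card_fin] at h2
    have h3 : (G.neighborSet v).ncard = G.degree v := by
      rw [← card_neighborFinset_eq_degree, ← Set.ncard_coe_finset, coe_neighborFinset]
    omega

lemma exists_root (q l Z : ℕ) (hl : Z ^ (2 * q + 2) ≤ l) :
    ∃ z, Z ≤ z ∧ z ^ (2 * q + 2) ≤ l ∧ l < (z + 1) ^ (2 * q + 2) :=
  ⟨Nat.nthRoot (2 * q + 2) l, (Nat.le_nthRoot_iff (by omega)).2 hl,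
    (Nat.le_nthRoot_iff (by omega)).1 le_rfl, Nat.lt_pow_nthRoot_add_one (by omega) l⟩

lemma ratio_step (q : ℕ) (hq : 3 ≤ q) (ε : ℝ) (hε : 0 < ε) (hε1 : ε < 1) :
    ∀ᶠ l in atTop, (1 - ε) * ((ramsey q (l + 1) : ℝ) - 1) ≤ ramsey q l := by
  set h := 2 * q ^ 3 + 2 * q ^ 2 + 1 with hh
  set C : ℝ := 4 * 2 ^ (q ^ 2 - 1) with hC
  obtain ⟨Z, hZ⟩ := exists_nat_gt ((2 ^ (h - 1) * C ^ h + C) / ε ^ h)
  refine eventually_atTop.2 ⟨(max (Z + 1) (4 * q ^ 2)) ^ (2 * q + 2), fun l hl => ?_⟩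
  obtain ⟨z, hz1, hz2, hz3⟩ := exists_root q l _ hl
  have hz4 := le_of_max_le_left hz1
  have hz5 := le_of_max_le_right hz1
  have hq2 : 9 ≤ q ^ 2 := by nlinarith
  have hz0 : 0 < z := by omega
  have hlow : z ^ (q ^ 2) ≤ 2 * ramsey q l :=
    (ramsey_lower q z hq hz5).trans (Nat.mul_le_mul_left _ (ramsey_mono le_rfl hz2))
  have hN : 4 ≤ z ^ (q ^ 2) := by
    calc 4 ≤ z := by omega
      _ = z ^ 1 := (pow_one z).symm
      _ ≤ _ := Nat.pow_le_pow_right hz0 (by omega)
  have hmono : ramsey q l ≤ ramsey q (l + 1) := ramsey_mono le_rfl (by omega)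
  obtain ⟨n, hn⟩ : ∃ n, n + 1 = ramsey q (l + 1) := ⟨ramsey q (l + 1) - 1, by omega⟩
  have hn4 : z ^ (q ^ 2) ≤ 4 * n := by omega
  have hn0 : 0 < n := by omega
  have hup : n ^ q ≤ (2 * z) ^ (h - 1) := by
    have e1 : ramsey q (l + 1) ≤ (l + 1) ^ q := by
      obtain ⟨p, rfl⟩ : ∃ p, q = p + 1 := ⟨q - 1, by omega⟩
      exact (ramsey_le_pow p l).trans (Nat.pow_le_pow_right (by omega) (by omega))
    have e2 : n ≤ ((2 * z) ^ (2 * q + 2)) ^ q :=
      le_trans (by omega) (e1.trans (Nat.pow_le_pow_left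
        (le_trans hz3 (Nat.pow_le_pow_left (by omega) _)) _))
    refine (Nat.pow_le_pow_left e2 q).trans (le_of_eq ?_)
    rw [← pow_mul, ← pow_mul, hh]
    congr 1
    simp only [Nat.add_sub_cancel]
    ring
  have main := drc_ramsey q l h z n hq hz3 hn
  rw [← hn]
  push_cast
  rw [add_sub_cancel_right]
  by_contra hcon
  push Not at hcon
  have hn' : (0 : ℝ) < n := by exact_mod_cast hn0
  have hz' : (0 : ℝ) < z := by exact_mod_cast hz0
  have hd : ε * n ≤ ((n - ramsey q l : ℕ) : ℝ) := by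
    have : (ramsey q l : ℝ) ≤ n := by nlinarith
    rw [Nat.cast_sub (by exact_mod_cast this)]
    linarith
  set m : ℕ := (z + 1) ^ (q ^ 2 - 1) with hm
  have hmn : (m : ℝ) ≤ C / z * n := by
    have e1 : m * z ≤ 2 ^ (q ^ 2 - 1) * z ^ (q ^ 2) := by
      calc m * z ≤ (2 * z) ^ (q ^ 2 - 1) * z :=
            Nat.mul_le_mul_right _ (Nat.pow_le_pow_left (by omega) _)
        _ = _ := by
          rw [mul_pow, mul_assoc, ← pow_succ, show q ^ 2 - 1 + 1 = q ^ 2 by omega]
    have e2 : m * z ≤ 4 * 2 ^ (q ^ 2 - 1) * n := by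
      calc m * z ≤ 2 ^ (q ^ 2 - 1) * (4 * n) := e1.trans (Nat.mul_le_mul_left _ hn4)
        _ = _ := by ring
    rw [div_mul_eq_mul_div, le_div_iff₀ hz', hC]
    exact_mod_cast e2
  have main' : (n : ℝ) * ((n - ramsey q l : ℕ) : ℝ) ^ h ≤ n ^ q * m ^ h + m * n ^ h := by
    exact_mod_cast main
  have hup' : (n : ℝ) ^ q ≤ (2 * z) ^ (h - 1) := by exact_mod_cast hup
  have hn1 : (1 : ℝ) ≤ n := by exact_mod_cast hn0
  have f1 : (n : ℝ) * (ε * n) ^ h ≤ (2 * z) ^ (h - 1) * (C / z * n) ^ h * n + C / z * n * n ^ h := by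
    calc (n : ℝ) * (ε * n) ^ h ≤ n * ((n - ramsey q l : ℕ) : ℝ) ^ h := by gcongr
      _ ≤ _ := main'
      _ ≤ (2 * z) ^ (h - 1) * (C / z * n) ^ h + C / z * n * n ^ h := by gcongr
      _ ≤ _ := by
        have : (0 : ℝ) ≤ (2 * z) ^ (h - 1) * (C / z * n) ^ h := by positivity
        nlinarith
  have f2 : (2 * (z : ℝ)) ^ (h - 1) * (C / z * n) ^ h * n + C / z * n * n ^ h =
      (2 ^ (h - 1) * C ^ h + C) / z * (n * n ^ h) := by
    have e : (z : ℝ) ^ h = z ^ (h - 1) * z := by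
      rw [← pow_succ, show h - 1 + 1 = h by omega]
    rw [mul_pow, mul_pow, div_pow, e]
    field_simp
  rw [f2, mul_pow, show (n : ℝ) * (ε ^ h * n ^ h) = ε ^ h * (n * n ^ h) by ring] at f1
  have f3 := le_of_mul_le_mul_right f1 (by positivity)
  rw [le_div_iff₀ hz'] at f3
  rw [div_lt_iff₀ (by positivity)] at hZ
  have : (Z : ℝ) ≤ z := by exact_mod_cast (show Z ≤ z by omega)
  have : (Z : ℝ) * ε ^ h ≤ z * ε ^ h := by gcongr
  linarith

lemma ramsey_superlinear (q : ℕ) (hq : 3 ≤ q) :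
    Tendsto (fun l : ℕ => ((l : ℝ) + 1) / ramsey q l) atTop (𝓝 0) := by
  rw [Metric.tendsto_atTop]
  intro ε hε
  obtain ⟨Z, hZ⟩ := exists_nat_gt (2 * 2 ^ (2 * q + 2) / ε)
  refine ⟨(max (Z + 1) (4 * q ^ 2)) ^ (2 * q + 2), fun l hl => ?_⟩
  obtain ⟨z, hz1, hz2, hz3⟩ := exists_root q l _ hl
  have hz4 := le_of_max_le_left hz1
  have hz5 := le_of_max_le_right hz1
  have hz0 : 0 < z := by omega
  have hlow : z ^ (q ^ 2) ≤ 2 * ramsey q l :=
    (ramsey_lower q z hq hz5).trans (Nat.mul_le_mul_left _ (ramsey_mono le_rfl hz2))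
  have hpos : 0 < ramsey q l := by
    have : 0 < z ^ (q ^ 2) := by positivity
    omega
  have e1 : (l + 1) * z ≤ 2 * 2 ^ (2 * q + 2) * ramsey q l := by
    calc (l + 1) * z ≤ (2 * z) ^ (2 * q + 2) * z :=
          Nat.mul_le_mul_right _ (le_trans hz3 (Nat.pow_le_pow_left (by omega) _))
      _ = 2 ^ (2 * q + 2) * z ^ (2 * q + 2 + 1) := by rw [mul_pow, mul_assoc, ← pow_succ]
      _ ≤ 2 ^ (2 * q + 2) * z ^ (q ^ 2) :=
          Nat.mul_le_mul_left _ (Nat.pow_le_pow_right hz0 (by nlinarith))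
      _ ≤ 2 ^ (2 * q + 2) * (2 * ramsey q l) := Nat.mul_le_mul_left _ hlow
      _ = _ := by ring
  have e2 : ((l : ℝ) + 1) * z ≤ 2 * 2 ^ (2 * q + 2) * ramsey q l := by exact_mod_cast e1
  have hpos' : (0 : ℝ) < ramsey q l := by exact_mod_cast hpos
  rw [Real.dist_eq, sub_zero, abs_of_nonneg (by positivity), div_lt_iff₀ hpos']
  rw [div_lt_iff₀ hε] at hZ
  have e3 : (Z : ℝ) ≤ z := by exact_mod_cast (show Z ≤ z by omega)
  have hz' : (0 : ℝ) < z := by exact_mod_cast hz0
  refine lt_of_mul_lt_mul_right (e2.trans_lt ?_) hz'.le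
  have : (Z : ℝ) * ε ≤ z * ε := by gcongr
  nlinarith

lemma ramsey_pos_ev (q : ℕ) (hq : 3 ≤ q) : ∀ᶠ l in atTop, (0 : ℝ) < ramsey q l := by
  refine eventually_atTop.2 ⟨1, fun l hl => ?_⟩
  have := ramsey_set (⊥ : SimpleGraph Unit) q l ∅ (by simp; omega) (by simp; omega)
  exact_mod_cast this

lemma ramsey_ratio_one (q : ℕ) (hq : 3 ≤ q) :
    Tendsto (fun l : ℕ => (ramsey q l : ℝ) / ramsey q (l + 1)) atTop (𝓝 1) := by
  have h0 : Tendsto (fun l : ℕ => (1 : ℝ) / ramsey q (l + 1)) atTop (𝓝 0) := by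
    refine squeeze_zero (fun l => by positivity) (fun l => ?_)
      ((ramsey_superlinear q hq).comp (tendsto_add_atTop_nat 1))
    simp only [Function.comp]
    gcongr
    have : (0 : ℝ) ≤ ((l + 1 : ℕ) : ℝ) := by positivity
    linarith
  rw [tendsto_order]
  constructor
  · intro c hc
    obtain ⟨ε, hε, hε1, hεc⟩ : ∃ ε : ℝ, 0 < ε ∧ ε < 1 ∧ c < 1 - 2 * ε :=
      ⟨min (1 / 2) ((1 - c) / 4), lt_min (by norm_num) (by linarith),
        (min_le_left _ _).trans_lt (by norm_num), by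
          have := min_le_right (1 / 2 : ℝ) ((1 - c) / 4); linarith⟩
    filter_upwards [ratio_step q hq ε hε hε1, (tendsto_order.1 h0).2 ε hε,
      (tendsto_add_atTop_nat 1).eventually (ramsey_pos_ev q hq)] with l h1 h2 h3
    rw [div_lt_iff₀ h3] at h2
    rw [lt_div_iff₀ h3]
    nlinarith
  · intro c hc
    filter_upwards [(tendsto_add_atTop_nat 1).eventually (ramsey_pos_ev q hq)] with l h3
    rw [div_lt_iff₀ h3]
    have : (ramsey q l : ℝ) ≤ ramsey q (l + 1) := by
      exact_mod_cast ramsey_mono le_rfl (Nat.le_succ l)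
    nlinarith

lemma ramsey_ratio (q : ℕ) (hq : 3 ≤ q) (s : ℕ) :
    Tendsto (fun l : ℕ => (ramsey q l : ℝ) / ramsey q (l + s)) atTop (𝓝 1) := by
  induction s with
  | zero =>
    refine tendsto_const_nhds.congr' ?_
    filter_upwards [ramsey_pos_ev q hq] with l h
    rw [add_zero, div_self h.ne']
  | succ s ih =>
    have := ih.mul ((ramsey_ratio_one q hq).comp (tendsto_add_atTop_nat s))
    rw [mul_one] at this
    refine this.congr' ?_
    filter_upwards [(tendsto_add_atTop_nat s).eventually (ramsey_pos_ev q hq)] with l h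
    simp only [Function.comp]
    rw [div_mul_div_cancel₀ h.ne', add_assoc]

end Pool.Agent.Lib.MP_904cf4_co
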