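import Pool.Agent.Lib.MP_904cf4_co.UpperEquiv
import Pool.Agent.Lib.MP_904cf4_co.Ratio

set_option autoImplicit false

namespace Pool.Agent.Lib.MP_904cf4_co

open SimpleGraph Filter Topology

lemma fkt_bdd (s t : ℕ) (ht : 3 ≤ t) (hs : 2 ≤ s) :
    BddAbove {f | RamseyEquiv (⊤ : SimpleGraph (Fin (s + t))) (cliquePlus (s + t) f t)} := by
  refine ⟨ramsey (s + t) (s + 1), fun f hf => ?_⟩
  by_contra h
  exact not_equiv s t f ht hs (by nlinarith) hf

lemma fkt_upper (s t : ℕ) (ht : 3 ≤ t) (hs : 2 ≤ s) :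
    fkt (s + t) t * t < ramsey (s + t) (s + 1) := by
  by_contra h
  have hp : 0 < ramsey (s + t) (s + 1) := ramsey_pos (by omega) (by omega)
  rcases Set.eq_empty_or_nonempty
    {f | RamseyEquiv (⊤ : SimpleGraph (Fin (s + t))) (cliquePlus (s + t) f t)} with he | he
  · rw [fkt, he] at h
    simp at h
    omega
  · exact not_equiv s t _ ht hs (not_lt.1 h) (Nat.sSup_mem he (fkt_bdd s t ht hs))

lemma fkt_lower (s t : ℕ) (ht : 3 ≤ t) (hs : 2 ≤ s) :
    (ramsey (s + t) (s + 1) + ramsey t (s + 1) - 2 - 2 * s) / (2 * t) ≤ fkt (s + t) t := by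
  set f := (ramsey (s + t) (s + 1) + ramsey t (s + 1) - 2 - 2 * s) / (2 * t) with hf
  rcases Nat.eq_zero_or_pos f with h0 | h0
  · omega
  refine le_csSup (fkt_bdd s t ht hs) (equiv_of_le s t f (by omega) ?_)
  have h1 : f * (2 * t) ≤ _ := Nat.div_mul_le_self _ _
  have h2 : 0 < f * (2 * t) := by positivity
  have h3 : f * (2 * t) = 2 * (f * t) := by ring
  omega

lemma fkt_lower' (s t : ℕ) (ht : 3 ≤ t) (hs : 2 ≤ s) :
    ramsey (s + t) (s + 1) + ramsey t (s + 1) ≤ 2 * (fkt (s + t) t * t) + 2 * (s + t + 1) := by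
  have h1 := fkt_lower s t ht hs
  have h2 := Nat.lt_mul_div_succ (ramsey (s + t) (s + 1) + ramsey t (s + 1) - 2 - 2 * s)
    (show 0 < 2 * t by omega)
  have h3 := Nat.mul_le_mul_left (2 * t) (Nat.add_le_add_right h1 1)
  have h4 : 2 * t * (fkt (s + t) t + 1) = 2 * (fkt (s + t) t * t) + 2 * t := by ring
  omega

theorem fkt_tendsto (s : ℕ) (hs : 2 ≤ s) :
    Tendsto (fun t : ℕ => (fkt (s + t) t : ℝ) * t / ramsey (s + t) (s + 1)) atTop (𝓝 1) := by
  have h1 := ramsey_ratio (s + 1) (by omega) s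
  have h2 := (ramsey_superlinear (s + 1) (by omega)).comp (tendsto_add_atTop_nat s)
  have h3 := ((h1.const_add 1).div_const 2).sub h2
  rw [show ((1 : ℝ) + 1) / 2 - 0 = 1 by norm_num] at h3
  refine tendsto_of_tendsto_of_tendsto_of_le_of_le' h3 tendsto_const_nhds ?_ ?_
  · filter_upwards [eventually_ge_atTop 3] with t ht
    have hp : (0 : ℝ) < ramsey (s + t) (s + 1) := by
      exact_mod_cast ramsey_pos (by omega) (by omega)
    have h4 : (ramsey (s + t) (s + 1) : ℝ) + ramsey t (s + 1) ≤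
        2 * (fkt (s + t) t * t) + 2 * (s + t + 1) := by exact_mod_cast fkt_lower' s t ht hs
    simp only [Function.comp]
    rw [add_comm t s, ramsey_comm (s + 1) (s + t), ramsey_comm (s + 1) t]
    push_cast
    rw [le_div_iff₀ hp]
    field_simp
    linarith
  · filter_upwards [eventually_ge_atTop 3] with t ht
    have hp : (0 : ℝ) < ramsey (s + t) (s + 1) := by
      exact_mod_cast ramsey_pos (by omega) (by omega)
    rw [div_le_one hp]
    exact_mod_cast (fkt_upper s t ht hs).le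

end Pool.Agent.Lib.MP_904cf4_co
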