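import Mathlib
import Pool.Agent.Lib.MP_904cf4_co.Basic

set_option autoImplicit false

namespace Pool.Agent.Lib.MP_904cf4_co

open SimpleGraph

lemma top_le_cliquePlus (k f t : ℕ) :
    (⊤ : SimpleGraph (Fin k)).IsContained (cliquePlus k f t) :=
  ⟨⟨⟨Sum.inl, fun h => h⟩, Sum.inl_injective⟩⟩

lemma contained_of_family {V : Type} (Γ : SimpleGraph V) (k f t : ℕ) (S : Finset V)
    (T : ℕ → Finset V) (hS : Γ.IsNClique k S) (hT : ∀ i < f, Γ.IsNClique t (T i) ∧ Disjoint S (T i))
    (hTT : ∀ i < f, ∀ j < f, i ≠ j → Disjoint (T i) (T j)) :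
    (cliquePlus k f t).IsContained Γ := by
  let eS : Fin k → V := fun a => ((S.equivFinOfCardEq hS.2).symm a).1
  let eT : Fin f → Fin t → V := fun i b => (((T i).equivFinOfCardEq (hT i i.2).1.2).symm b).1
  have mS : ∀ a, eS a ∈ S := fun a => ((S.equivFinOfCardEq hS.2).symm a).2
  have mT : ∀ (i : Fin f) b, eT i b ∈ T i := fun i b => (((T i).equivFinOfCardEq (hT i i.2).1.2).symm b).2
  have iS : Function.Injective eS := fun a b h =>
    (S.equivFinOfCardEq hS.2).symm.injective (Subtype.ext h)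
  have iT : ∀ i, Function.Injective (eT i) := fun i a b h =>
    ((T i).equivFinOfCardEq (hT i i.2).1.2).symm.injective (Subtype.ext h)
  refine ⟨⟨⟨Sum.elim eS (fun p => eT p.1 p.2), ?_⟩, ?_⟩⟩
  · rintro (a | ⟨i, x⟩) (b | ⟨j, y⟩) h
    · exact hS.1 (mS a) (mS b) (iS.ne h)
    · exact absurd h (by simp [cliquePlus])
    · exact absurd h (by simp [cliquePlus])
    · have h' : x ≠ y ∧ i = j := by simpa [cliquePlus] using h
      obtain ⟨h1, rfl⟩ := h'
      exact (hT i i.2).1.1 (mT i x) (mT i y) ((iT i).ne h1)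
  · rintro (a | ⟨i, x⟩) (b | ⟨j, y⟩) h
    · rw [iS h]
    · have h' : eS a = eT j y := h
      exact absurd (h' ▸ mS a) (Finset.disjoint_right.1 (hT j j.2).2 (mT j y))
    · have h' : eT i x = eS b := h
      exact absurd (h' ▸ mS b) (Finset.disjoint_right.1 (hT i i.2).2 (mT i x))
    · have h' : eT i x = eT j y := h
      by_cases e : i = j
      · subst e
        rw [iT i h']
      · exact absurd (h' ▸ mT i x) (Finset.disjoint_right.1
          (hTT i i.2 j j.2 (fun e' => e (Fin.ext e'))) (mT j y))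

lemma exists_cover {V : Type} (Γ : SimpleGraph V) (k f t : ℕ) (h1 : ¬ Γ.CliqueFree k)
    (h2 : ¬ (cliquePlus k f t).IsContained Γ) :
    ∃ A : Finset V, A.card + t ≤ k + f * t ∧ Γ.CliqueFreeOn (A : Set V)ᶜ t := by
  classical
  by_contra hcon
  push Not at hcon
  obtain ⟨S, hS⟩ : ∃ S, Γ.IsNClique k S := by
    by_contra h
    push Not at h
    exact h1 h
  have key : ∀ j ≤ f, ∃ T : ℕ → Finset V, (∀ i < j, Γ.IsNClique t (T i) ∧ Disjoint S (T i)) ∧
      ∀ i < j, ∀ i' < j, i ≠ i' → Disjoint (T i) (T i') := by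
    intro j
    induction j with
    | zero => intro _; exact ⟨fun _ => ∅, by simp, by simp⟩
    | succ j ih =>
      intro hj
      obtain ⟨T, hT1, hT2⟩ := ih (by omega)
      set A := S ∪ (Finset.range j).biUnion T with hA
      have hAc : A.card ≤ k + j * t := by
        refine (Finset.card_union_le _ _).trans ?_
        have : ((Finset.range j).biUnion T).card ≤ j * t := by
          refine Finset.card_biUnion_le.trans ?_
          rw [Finset.sum_congr rfl (fun i hi => (hT1 i (Finset.mem_range.1 hi)).1.2)]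
          simp
        have := hS.2
        omega
      have h3 : (j + 1) * t ≤ f * t := Nat.mul_le_mul_right t hj
      have h4 := hcon A (by rw [Nat.succ_mul] at h3; omega)
      obtain ⟨K, hK1, hK2⟩ : ∃ K : Finset V, (K : Set V) ⊆ (A : Set V)ᶜ ∧ Γ.IsNClique t K := by
        by_contra h
        push Not at h
        exact h4 (fun K h1 => h K h1)
      have hd : ∀ B : Finset V, B ⊆ A → Disjoint B K := by
        intro B hB
        rw [Finset.disjoint_left]
        intro x h1 h2
        exact hK1 h2 (hB h1)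
      have hsub : ∀ i < j, T i ⊆ A := fun i hi => (Finset.subset_biUnion_of_mem T
        (Finset.mem_range.2 hi)).trans Finset.subset_union_right
      refine ⟨Function.update T j K, ?_, ?_⟩
      · intro i hi
        by_cases e : i = j
        · subst e
          rw [Function.update_self]
          exact ⟨hK2, hd S Finset.subset_union_left⟩
        · rw [Function.update_of_ne e]
          exact hT1 i (by omega)
      · intro i hi i' hi' hne
        by_cases e : i = j
        · subst e
          rw [Function.update_self, Function.update_of_ne hne.symm]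
          exact (hd _ (hsub i' (by omega))).symm
        · by_cases e' : i' = j
          · subst e'
            rw [Function.update_self, Function.update_of_ne e]
            exact hd _ (hsub i (by omega))
          · rw [Function.update_of_ne e, Function.update_of_ne e']
            exact hT2 i (by omega) i' (by omega) hne
  obtain ⟨T, hT1, hT2⟩ := key f le_rfl
  exact h2 (contained_of_family Γ k f t S T hS hT1 hT2)

/-- the recolouring step -/
lemma recolour {V : Type} (G R : SimpleGraph V) (s t : ℕ) (A B : Finset V)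
    (hA : A.card < ramsey (s + t) (s + 1)) (hB : B.card < ramsey (s + 1) t)
    (hW1 : (G \ R).CliqueFreeOn ((A : Set V) ∪ B)ᶜ t)
    (hW2 : R.CliqueFreeOn ((A : Set V) ∪ B)ᶜ (s + t))
    (hW3 : B = ∅ ∨ R.CliqueFreeOn ((A : Set V) ∪ B)ᶜ t) (_hR : R ≤ G) :
    ∃ R' : SimpleGraph V, R' ≤ G ∧ R'.CliqueFree (s + t) ∧ (G \ R').CliqueFree (s + t) := by
  classical
  obtain ⟨P, hP1, hP2⟩ := exists_good_on _ _ A hA
  obtain ⟨Q, hQ1, hQ2⟩ := exists_good_on _ _ B hB
  let R' : SimpleGraph V :=
    { Adj := fun u v => G.Adj u v ∧ ((u ∈ A ∧ v ∈ A ∧ P.Adj u v) ∨ (u ∉ A ∧ v ∉ A ∧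
        ((u ∈ B ∧ v ∈ B ∧ Q.Adj u v) ∨ (u ∈ B ∧ v ∉ B) ∨ (u ∉ B ∧ v ∈ B) ∨
          (u ∉ B ∧ v ∉ B ∧ R.Adj u v))))
      symm := ⟨fun u v h => by
        refine ⟨h.1.symm, ?_⟩
        rcases h.2 with ⟨h1, h2, h3⟩ | ⟨h1, h2, ⟨h3, h4, h5⟩ | ⟨h3, h4⟩ | ⟨h3, h4⟩ | ⟨h3, h4, h5⟩⟩
        · exact Or.inl ⟨h2, h1, h3.symm⟩
        · exact Or.inr ⟨h2, h1, Or.inl ⟨h4, h3, h5.symm⟩⟩
        · exact Or.inr ⟨h2, h1, Or.inr (Or.inr (Or.inl ⟨h4, h3⟩))⟩
        · exact Or.inr ⟨h2, h1, Or.inr (Or.inl ⟨h4, h3⟩)⟩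
        · exact Or.inr ⟨h2, h1, Or.inr (Or.inr (Or.inr ⟨h4, h3, h5.symm⟩))⟩⟩
      loopless := ⟨fun u h => G.irrefl h.1⟩ }
  refine ⟨R', fun u v h => h.1, ?_, ?_⟩
  · intro K hK
    by_cases h1 : ∃ a ∈ K, a ∈ A
    · obtain ⟨a, ha, haA⟩ := h1
      have hsub : ∀ u ∈ K, u ∈ A := by
        intro u hu
        by_cases e : a = u
        · exact e ▸ haA
        · rcases (hK.1 ha hu e).2 with h | h
          · exact h.2.1
          · exact absurd haA h.1
      refine hP1 (t := K) hsub ⟨?_, hK.2⟩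
      intro u hu v hv huv
      rcases (hK.1 hu hv huv).2 with h | h
      · exact h.2.2
      · exact absurd (hsub u hu) h.1
    · push Not at h1
      have c1 : (K.filter (· ∈ B)).card < s + 1 := by
        refine card_lt_of_clique hQ1 (fun u hu => (Finset.mem_filter.1 hu).2) ?_
        intro u hu v hv huv
        obtain ⟨u1, u2⟩ := Finset.mem_filter.1 hu
        obtain ⟨v1, v2⟩ := Finset.mem_filter.1 hv
        rcases (hK.1 u1 v1 huv).2 with h | ⟨-, -, h | h | h | h⟩
        · exact absurd h.1 (h1 u u1)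
        · exact h.2.2
        · exact absurd v2 h.2
        · exact absurd u2 h.1
        · exact absurd u2 h.1
      have c2 : R.IsClique (K.filter (· ∉ B)) := by
        intro u hu v hv huv
        obtain ⟨u1, u2⟩ := Finset.mem_filter.1 hu
        obtain ⟨v1, v2⟩ := Finset.mem_filter.1 hv
        rcases (hK.1 u1 v1 huv).2 with h | ⟨-, -, h | h | h | h⟩
        · exact absurd h.1 (h1 u u1)
        · exact absurd h.1 u2
        · exact absurd h.1 u2
        · exact absurd h.2 v2
        · exact h.2.2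
      have c3 : ((K.filter (· ∉ B) : Finset V) : Set V) ⊆ ((A : Set V) ∪ B)ᶜ := by
        intro u hu
        obtain ⟨u1, u2⟩ := Finset.mem_filter.1 hu
        have := h1 u u1
        simp [*]
      have c4 := Finset.card_filter_add_card_filter_not (s := K) (· ∈ B)
      have c5 := hK.2
      rcases hW3 with h | h
      · have c6 := card_lt_of_clique hW2 c3 c2
        have c7 : (K.filter (· ∈ B)).card = 0 := by simp [h]
        omega
      · have c6 := card_lt_of_clique h c3 c2
        omega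
  · intro K hK
    have hb : ∀ u ∈ K, ∀ v ∈ K, u ≠ v → G.Adj u v ∧ ¬ R'.Adj u v := fun u hu v hv huv =>
      hK.1 hu hv huv
    have c1 : (K.filter (· ∈ A)).card < s + 1 := by
      refine card_lt_of_clique hP2 (fun u hu => (Finset.mem_filter.1 hu).2) ?_
      intro u hu v hv huv
      obtain ⟨u1, u2⟩ := Finset.mem_filter.1 hu
      obtain ⟨v1, v2⟩ := Finset.mem_filter.1 hv
      obtain ⟨h1, h2⟩ := hb u u1 v v1 huv
      exact ⟨huv, fun h => h2 ⟨h1, Or.inl ⟨u2, v2, h⟩⟩⟩
    have c2 : (K.filter (· ∉ A)).card < t := by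
      by_cases h1 : ∃ b ∈ K.filter (· ∉ A), b ∈ B
      · obtain ⟨b, hb1, hbB⟩ := h1
        obtain ⟨b1, b2⟩ := Finset.mem_filter.1 hb1
        have hsub : ∀ u ∈ K.filter (· ∉ A), u ∈ B := by
          intro u hu
          obtain ⟨u1, u2⟩ := Finset.mem_filter.1 hu
          by_contra hu'
          have e : b ≠ u := fun e => hu' (e ▸ hbB)
          obtain ⟨h1, h2⟩ := hb b b1 u u1 e
          exact h2 ⟨h1, Or.inr ⟨b2, u2, Or.inr (Or.inl ⟨hbB, hu'⟩)⟩⟩
        refine card_lt_of_clique hQ2 hsub ?_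
        intro u hu v hv huv
        obtain ⟨u1, u2⟩ := Finset.mem_filter.1 hu
        obtain ⟨v1, v2⟩ := Finset.mem_filter.1 hv
        obtain ⟨h1, h2⟩ := hb u u1 v v1 huv
        exact ⟨huv, fun h => h2 ⟨h1, Or.inr ⟨u2, v2, Or.inl ⟨hsub u hu, hsub v hv, h⟩⟩⟩⟩
      · push Not at h1
        refine card_lt_of_clique hW1 ?_ ?_
        · intro u hu
          have := h1 u hu
          obtain ⟨u1, u2⟩ := Finset.mem_filter.1 hu
          simp [*]
        · intro u hu v hv huv
          obtain ⟨u1, u2⟩ := Finset.mem_filter.1 hu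
          obtain ⟨v1, v2⟩ := Finset.mem_filter.1 hv
          obtain ⟨h2, h3⟩ := hb u u1 v v1 huv
          exact ⟨h2, fun h => h3 ⟨h2, Or.inr ⟨u2, v2,
            Or.inr (Or.inr (Or.inr ⟨h1 u hu, h1 v hv, h⟩))⟩⟩⟩
    have c4 := Finset.card_filter_add_card_filter_not (s := K) (· ∈ A)
    have c5 := hK.2
    omega

lemma ramsey_pos {a b : ℕ} (ha : 0 < a) (hb : 0 < b) : 0 < ramsey a b := by
  have := ramsey_set (⊥ : SimpleGraph Unit) a b ∅ (by simp; omega) (by simp; omega)
  simpa using this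

theorem equiv_of_le (s t f : ℕ) (ht : 0 < t)
    (h : 2 * (s + f * t) + 2 ≤ ramsey (s + t) (s + 1) + ramsey t (s + 1)) :
    RamseyEquiv (⊤ : SimpleGraph (Fin (s + t))) (cliquePlus (s + t) f t) := by
  classical
  intro V _ G
  have hmono : ramsey t (s + 1) ≤ ramsey (s + t) (s + 1) := ramsey_mono (by omega) le_rfl
  have hpos : 0 < ramsey (s + 1) t := ramsey_pos (by omega) ht
  constructor
  · intro hG R hR
    by_contra hcon
    obtain ⟨n1, n2⟩ := not_or.1 hcon
    have fin : ∀ R' : SimpleGraph V, R' ≤ G → R'.CliqueFree (s + t) →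
        (G \ R').CliqueFree (s + t) → False := by
      intro R' h1 h2 h3
      rcases hG R' h1 with h | h
      · exact (not_cliqueFree_iff_top_isContained _).2 h h2
      · exact (not_cliqueFree_iff_top_isContained _).2 h h3
    have one : ∀ R : SimpleGraph V, R ≤ G → R.CliqueFree (s + t) →
        ¬ (cliquePlus (s + t) f t).IsContained (G \ R) → False := by
      intro R hR h1 h2
      obtain ⟨A, hA1, hA2⟩ := exists_cover (G \ R) (s + t) f t (fin R hR h1) h2
      obtain ⟨R', r1, r2, r3⟩ := recolour G R s t A ∅ (by omega) (by simpa using hpos)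
        (by simpa using hA2) h1.cliqueFreeOn (Or.inl rfl) hR
      exact fin R' r1 r2 r3
    by_cases h1 : R.CliqueFree (s + t)
    · exact one R hR h1 n2
    by_cases h2 : (G \ R).CliqueFree (s + t)
    · exact one (G \ R) sdiff_le h2 (by rwa [sdiff_sdiff_eq_self hR])
    obtain ⟨A1, a1, a2⟩ := exists_cover R (s + t) f t h1 n1
    obtain ⟨A2, b1, b2⟩ := exists_cover (G \ R) (s + t) f t h2 n2
    have hc := Finset.card_union_le A1 A2
    obtain ⟨A, hA1, hA2⟩ := Finset.exists_subset_card_eq (s := A1 ∪ A2)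
      (n := min (A1 ∪ A2).card (ramsey (s + t) (s + 1) - 1)) (min_le_left _ _)
    have hB := Finset.card_sdiff_of_subset hA1
    have hU : ((A : Set V) ∪ ((A1 ∪ A2) \ A : Finset V)) = (A1 : Set V) ∪ A2 := by
      rw [← Finset.coe_union, Finset.union_sdiff_of_subset hA1, Finset.coe_union]
    have s1 : ((A1 : Set V) ∪ A2)ᶜ ⊆ (A1 : Set V)ᶜ := Set.compl_subset_compl.2 Set.subset_union_left
    have s2 : ((A1 : Set V) ∪ A2)ᶜ ⊆ (A2 : Set V)ᶜ :=
      Set.compl_subset_compl.2 Set.subset_union_right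
    obtain ⟨R', r1, r2, r3⟩ := recolour G R s t A ((A1 ∪ A2) \ A) (by omega)
      (by rw [ramsey_comm] at hpos ⊢; omega)
      (by rw [hU]; exact CliqueFreeOn.subset _ s2 b2)
      (by rw [hU]; exact CliqueFreeOn.mono _ (by omega) (CliqueFreeOn.subset _ s1 a2))
      (Or.inr (by rw [hU]; exact CliqueFreeOn.subset _ s1 a2)) hR
    exact fin R' r1 r2 r3
  · intro hG R hR
    rcases hG R hR with h | h
    · exact Or.inl ((top_le_cliquePlus _ _ _).trans h)
    · exact Or.inr ((top_le_cliquePlus _ _ _).trans h)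

end Pool.Agent.Lib.MP_904cf4_co
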