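import Mathlib

set_option autoImplicit false

namespace Pool.Agent.Lib.MP_904cf4_co

/-- a labelled partite graph whose label cliques are bounded -/
structure LG {α V : Type} (bd : Bool → ℕ) (π : V → α) (R : Bool → V → V → Prop) : Prop where
  symm : ∀ σ u w, R σ u w → R σ w u
  ne : ∀ σ u w, R σ u w → π u ≠ π w
  excl : ∀ σ τ u w, R σ u w → R τ u w → σ = τ
  small : ∀ σ (K : Finset V), (∀ u ∈ K, ∀ w ∈ K, u ≠ w → R σ u w) → K.card ≤ bd σ

/-- an admissible labelled complete graph on `S` -/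
def GoodLab {α : Type} (bd : Bool → ℕ) (S : Finset α) (lab : α → α → Bool) : Prop :=
  (∀ a b, lab a b = lab b a) ∧
    ∀ σ (K : Finset α), K ⊆ S → (∀ a ∈ K, ∀ b ∈ K, a ≠ b → lab a b = σ) → K.card ≤ bd σ

def Canon {α V κ : Type} (bd : Bool → ℕ) (π : V → α) (R : Bool → V → V → Prop)
    (D : List (α × α × Bool)) : Prop :=
  ∀ c : V → V → κ, ∃ γ : α → α → Bool → κ, ∀ S lab, GoodLab bd S lab → ∃ ψ : α → V,
    (∀ a, π (ψ a) = a) ∧ (∀ a ∈ S, ∀ b ∈ S, a ≠ b → R (lab a b) (ψ a) (ψ b)) ∧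
      ∀ a ∈ S, ∀ b ∈ S, a ≠ b → (a, b, lab a b) ∈ D → c (ψ a) (ψ b) = γ a b (lab a b)

lemma partite_base (α κ : Type) [Finite α] [Nonempty κ] (bd : Bool → ℕ) (hbd : ∀ σ, 2 ≤ bd σ) :
    ∃ (V : Type) (_ : Finite V) (π : V → α) (R : Bool → V → V → Prop),
      LG bd π R ∧ Canon (κ := κ) bd π R [] := by
  classical
  have := Fintype.ofFinite α
  refine ⟨(Finset α × (α → α → Bool)) × α, inferInstance, Prod.snd,
    fun σ u w => u.1 = w.1 ∧ GoodLab bd u.1.1 u.1.2 ∧ u.2 ∈ u.1.1 ∧ w.2 ∈ u.1.1 ∧ u.2 ≠ w.2 ∧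
      u.1.2 u.2 w.2 = σ, ⟨?_, ?_, ?_, ?_⟩, ?_⟩
  · rintro σ ⟨x, a⟩ ⟨y, b⟩ ⟨h1, h2, h3, h4, h5, h6⟩
    simp only at h1 h2 h3 h4 h5 h6
    subst h1
    exact ⟨rfl, h2, h4, h3, h5.symm, (h2.1 b a).trans h6⟩
  · rintro σ u w h
    exact h.2.2.2.2.1
  · rintro σ τ u w h1 h2
    exact h1.2.2.2.2.2.symm.trans h2.2.2.2.2.2
  · intro σ K hK
    by_cases h2 : K.card ≤ 1
    · have := hbd σ; omega
    obtain ⟨u, hu, w, hw, huw⟩ := Finset.one_lt_card.1 (not_le.1 h2)
    have h3 := hK u hu w hw huw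
    have h4 : ∀ v ∈ K, v.1 = u.1 ∧ v.2 ∈ u.1.1 := by
      intro v hv
      by_cases e : u = v
      · subst e; exact ⟨rfl, h3.2.2.1⟩
      · have := hK u hu v hv e
        exact ⟨this.1.symm, this.2.2.2.1⟩
    have h5 : (K.image Prod.snd).card = K.card := by
      refine Finset.card_image_of_injOn (fun v hv v' hv' e => ?_)
      exact Prod.ext ((h4 v hv).1.trans (h4 v' hv').1.symm) e
    rw [← h5]
    refine h3.2.1.2 σ _ ?_ ?_
    · intro a ha
      obtain ⟨v, hv, rfl⟩ := Finset.mem_image.1 ha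
      exact (h4 v hv).2
    · intro a ha b hb hab
      obtain ⟨v, hv, rfl⟩ := Finset.mem_image.1 ha
      obtain ⟨v', hv', rfl⟩ := Finset.mem_image.1 hb
      have := hK v hv v' hv' (fun e => hab (by rw [e]))
      rw [← (h4 v hv).1]
      exact this.2.2.2.2.2
  · intro c
    refine ⟨fun _ _ _ => Classical.arbitrary κ, fun S lab h => ⟨fun a => ((S, lab), a),
      fun _ => rfl, fun a ha b hb hab => ⟨rfl, h, ha, hb, hab, rfl⟩, ?_⟩⟩
    intro a _ b _ _ hm
    simp at hm

lemma partite_step {α κ : Type} [Finite κ] (bd : Bool → ℕ) (hbd : ∀ σ, 2 ≤ bd σ)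
    {V : Type} [Finite V] (π : V → α) (R : Bool → V → V → Prop) (D : List (α × α × Bool))
    (hL : LG bd π R) (hC : Canon (κ := κ) bd π R D) (i j : α) (hij : i ≠ j) (σ : Bool) :
    ∃ (V' : Type) (_ : Finite V') (π' : V' → α) (R' : Bool → V' → V' → Prop),
      LG bd π' R' ∧ Canon (κ := κ) bd π' R' ((i, j, σ) :: D) := by
  classical
  let E : Type := {p : V × V // π p.1 = i ∧ π p.2 = j ∧ R σ p.1 p.2}
  obtain ⟨ι, _, hι⟩ := Combinatorics.Line.exists_mono_in_high_dimension E κ
  let L : Type := {l : ι → Option E // ∃ a, l a = none}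
  let φ : L → V → (ι → V) ⊕ (V × L) := fun l v =>
    if π v = i then Sum.inl (fun a => ((l.1 a).map (fun e => e.1.1)).getD v)
    else if π v = j then Sum.inl (fun a => ((l.1 a).map (fun e => e.1.2)).getD v)
    else Sum.inr (v, l)
  let π' : (ι → V) ⊕ (V × L) → α :=
    Sum.elim (fun x => if ∀ a, π (x a) = i then i else j) (fun p => π p.1)
  have φi : ∀ l v, π v = i →
      φ l v = Sum.inl (fun a => ((l.1 a).map (fun e => e.1.1)).getD v) := by
    intro l v h; simp only [φ, h, if_true]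
  have φj : ∀ l v, π v = j →
      φ l v = Sum.inl (fun a => ((l.1 a).map (fun e => e.1.2)).getD v) := by
    intro l v h
    have : π v ≠ i := by rw [h]; exact hij.symm
    simp only [φ, if_neg this, if_pos h]
  have φo : ∀ l v, π v ≠ i → π v ≠ j → φ l v = Sum.inr (v, l) := by
    intro l v h1 h2; simp only [φ, if_neg h1, if_neg h2]
  have hπ : ∀ l v, π' (φ l v) = π v := by
    intro l v
    by_cases h1 : π v = i
    · rw [φi l v h1]
      have : ∀ a, π (((l.1 a).map (fun e => e.1.1)).getD v) = i := by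
        intro a
        rcases l.1 a with _ | e
        · exact h1
        · exact e.2.1
      simp only [π', Sum.elim_inl, this, implies_true, if_true, h1]
    · by_cases h2 : π v = j
      · rw [φj l v h2]
        obtain ⟨a, ha⟩ := l.2
        have : ¬ ∀ a, π (((l.1 a).map (fun e => e.1.2)).getD v) = i := by
          intro h
          have := h a
          rw [ha] at this
          exact h1 this
        simp only [π', Sum.elim_inl, if_neg this, h2]
      · rw [φo l v h1 h2]; rfl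
  have hinj : ∀ l u w, φ l u = φ l w → u = w := by
    intro l u w h
    have e : π u = π w := by rw [← hπ l u, h, hπ]
    obtain ⟨a, ha⟩ := l.2
    by_cases h1 : π u = i
    · rw [φi l u h1, φi l w (e ▸ h1)] at h
      have := congrFun (Sum.inl.inj h) a
      simpa [ha] using this
    · by_cases h2 : π u = j
      · rw [φj l u h2, φj l w (e ▸ h2)] at h
        have := congrFun (Sum.inl.inj h) a
        simpa [ha] using this
      · rw [φo l u h1 h2, φo l w (e ▸ h1) (e ▸ h2)] at h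
        exact (Prod.ext_iff.1 (Sum.inr.inj h)).1
  have hother : ∀ l l' u u', π u ≠ i → π u ≠ j → φ l' u' = φ l u → l' = l := by
    intro l l' u u' h1 h2 h
    have e : π u' = π u := by rw [← hπ l' u', h, hπ]
    rw [φo l u h1 h2, φo l' u' (e ▸ h1) (e ▸ h2)] at h
    exact (Prod.ext_iff.1 (Sum.inr.inj h)).2
  let R' : Bool → (ι → V) ⊕ (V × L) → (ι → V) ⊕ (V × L) → Prop := fun τ u' w' =>
    ∃ l u w, R τ u w ∧ φ l u = u' ∧ φ l w = w'
  have hmain : ∀ τ l l' u w u1 w1, π u = i → π w = j → R τ u1 w1 → φ l' u1 = φ l u →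
      φ l' w1 = φ l w → R τ u w := by
    intro τ l l' u w u1 w1 h1 h2 hR e1 e2
    have p1 : π u1 = i := by rw [← hπ l' u1, e1, hπ, h1]
    have p2 : π w1 = j := by rw [← hπ l' w1, e2, hπ, h2]
    rw [φi l' u1 p1, φi l u h1] at e1
    rw [φj l' w1 p2, φj l w h2] at e2
    have f1 := congrFun (Sum.inl.inj e1)
    have f2 := congrFun (Sum.inl.inj e2)
    obtain ⟨a, ha⟩ := l.2
    obtain ⟨a', ha'⟩ := l'.2
    have g1 := f1 a'
    have g2 := f2 a'
    rcases hl : l.1 a' with _ | e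
    · simp only [ha', hl, Option.map_none, Option.getD_none] at g1 g2
      rw [← g1, ← g2]; exact hR
    · simp only [ha', hl, Option.map_none, Option.getD_none, Option.map_some,
        Option.getD_some] at g1 g2
      have hτ : τ = σ := hL.excl τ σ u1 w1 hR (by rw [g1, g2]; exact e.2.2.2)
      have g3 := f1 a
      have g4 := f2 a
      rcases hl' : l'.1 a with _ | e'
      · simp only [ha, hl', Option.map_none, Option.getD_none] at g3 g4
        rw [← g3, ← g4]; exact hR
      · simp only [ha, hl', Option.map_none, Option.getD_none, Option.map_some,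
          Option.getD_some] at g3 g4
        rw [hτ, ← g3, ← g4]; exact e'.2.2.2
  have hind : ∀ τ l u w, R' τ (φ l u) (φ l w) → R τ u w := by
    rintro τ l u w ⟨l', u1, w1, hR, e1, e2⟩
    have p1 : π u1 = π u := by rw [← hπ l' u1, e1, hπ]
    have p2 : π w1 = π w := by rw [← hπ l' w1, e2, hπ]
    have hne : π u ≠ π w := by rw [← p1, ← p2]; exact hL.ne _ _ _ hR
    have same : l' = l → R τ u w := by
      rintro rfl
      rw [← hinj _ _ _ e1, ← hinj _ _ _ e2]; exact hR
    by_cases h1 : π u = i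
    · by_cases h2 : π w = j
      · exact hmain τ l l' u w u1 w1 h1 h2 hR e1 e2
      · exact same (hother l l' w w1 (fun e => hne (h1.trans e.symm)) h2 e2)
    · by_cases h2 : π u = j
      · by_cases h3 : π w = i
        · exact hL.symm _ _ _ (hmain τ l l' w u w1 u1 h3 h2 (hL.symm _ _ _ hR) e2 e1)
        · exact same (hother l l' w w1 h3 (fun e => hne (h2.trans e.symm)) e2)
      · exact same (hother l l' u u1 h1 h2 e1)
  have hne' : ∀ τ u' w', R' τ u' w' → π' u' ≠ π' w' := by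
    rintro τ u' w' ⟨l, u, w, hR, rfl, rfl⟩
    rw [hπ, hπ]; exact hL.ne _ _ _ hR
  refine ⟨(ι → V) ⊕ (V × L), inferInstance, π', R', ⟨?_, hne', ?_, ?_⟩, ?_⟩
  · rintro τ u' w' ⟨l, u, w, hR, e1, e2⟩
    exact ⟨l, w, u, hL.symm _ _ _ hR, e2, e1⟩
  · rintro τ τ' u' w' ⟨l, u, w, hR, rfl, rfl⟩ h2
    exact hL.excl _ _ _ _ hR (hind _ _ _ _ h2)
  · intro τ K hK
    by_cases h2 : K.card ≤ 2
    · exact h2.trans (hbd τ)
    have hz : ∃ z ∈ K, π' z ≠ i ∧ π' z ≠ j := by
      by_contra hcon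
      push Not at hcon
      refine h2 (le_trans (Finset.card_le_card_of_injOn π' (t := {i, j}) ?_ ?_)
        Finset.card_le_two)
      · intro z hz
        by_cases e : π' z = i
        · simp [e]
        · simp [hcon z hz e]
      · intro z hz z' hz' e
        by_contra hne
        exact hne' τ z z' (hK z hz z' hz' hne) e
    obtain ⟨z, hz, z1, z2⟩ := hz
    obtain ⟨y, hy, hyz⟩ := Finset.exists_mem_ne (by omega : 1 < K.card) z
    obtain ⟨l, u, w, -, e1, -⟩ := hK z hz y hy hyz.symm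
    have hall : ∀ x ∈ K, ∃ v, φ l v = x := by
      intro x hx
      by_cases e : z = x
      · exact ⟨u, e ▸ e1⟩
      · obtain ⟨l', u1, w1, -, f1, f2⟩ := hK z hz x hx e
        have pu : π u = π' z := by rw [← e1, hπ]
        have := hother l l' u u1 (pu ▸ z1) (pu ▸ z2) (f1.trans e1.symm)
        exact ⟨w1, this ▸ f2⟩
    have hc : (K.preimage (φ l) (fun a _ b _ h => hinj l a b h)).card = K.card := by
      rw [Finset.card_preimage, Finset.filter_true_of_mem]
      exact hall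
    rw [← hc]
    refine hL.small τ _ (fun a ha b hb hab => hind τ l a b ?_)
    exact hK _ (Finset.mem_preimage.1 ha) _ (Finset.mem_preimage.1 hb)
      (fun e => hab (hinj l a b e))
  · intro c
    obtain ⟨l0, g, hg⟩ := hι (fun x => c (Sum.inl (fun a => (x a).1.1)) (Sum.inl (fun a => (x a).1.2)))
    let l : L := ⟨l0.idxFun, l0.proper⟩
    obtain ⟨γ, hγ⟩ := hC (fun u w => c (φ l u) (φ l w))
    refine ⟨fun a b τ => if (a, b, τ) = (i, j, σ) then g else γ a b τ, fun S lab hS => ?_⟩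
    obtain ⟨ψ, h1, h2, h3⟩ := hγ S lab hS
    refine ⟨fun a => φ l (ψ a), fun a => by rw [hπ, h1],
      fun a ha b hb hab => ⟨l, _, _, h2 a ha b hb hab, rfl, rfl⟩, ?_⟩
    intro a ha b hb hab hm
    by_cases e : (a, b, lab a b) = (i, j, σ)
    · simp only [e, if_true]
      obtain ⟨e1, e2⟩ := Prod.ext_iff.1 e
      obtain ⟨e3, e4⟩ := Prod.ext_iff.1 e2
      simp only at e1 e3 e4
      have p1 : π (ψ a) = i := (h1 a).trans e1
      have p2 : π (ψ b) = j := (h1 b).trans e3
      let x : E := ⟨(ψ a, ψ b), p1, p2, e4 ▸ h2 a ha b hb hab⟩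
      rw [φi l _ p1, φj l _ p2, ← hg x]
      congr 2
      · funext t
        show _ = ((l0.idxFun t).getD x).1.1
        show ((l0.idxFun t).map _).getD _ = _
        rcases l0.idxFun t with _ | e <;> rfl
      · funext t
        show _ = ((l0.idxFun t).getD x).1.2
        show ((l0.idxFun t).map _).getD _ = _
        rcases l0.idxFun t with _ | e <;> rfl
    · simp only [if_neg e]
      exact h3 a ha b hb hab ((List.mem_cons.1 hm).resolve_left e)

theorem partite (α κ : Type) [Finite α] [Finite κ] [Nonempty κ] (bd : Bool → ℕ)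
    (hbd : ∀ σ, 2 ≤ bd σ) :
    ∃ (V : Type) (_ : Finite V) (π : V → α) (R : Bool → V → V → Prop), LG bd π R ∧
      ∀ c : V → V → κ, ∃ γ : α → α → Bool → κ, ∀ S lab, GoodLab bd S lab → ∃ ψ : α → V,
        (∀ a, π (ψ a) = a) ∧ ∀ a ∈ S, ∀ b ∈ S, a ≠ b →
          R (lab a b) (ψ a) (ψ b) ∧ c (ψ a) (ψ b) = γ a b (lab a b) := by
  classical
  have key : ∀ D : List (α × α × Bool), ∃ (V : Type) (_ : Finite V) (π : V → α)
      (R : Bool → V → V → Prop), LG bd π R ∧ Canon (κ := κ) bd π R D := by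
    intro D
    induction D with
    | nil => exact partite_base α κ bd hbd
    | cons d D ih =>
      obtain ⟨V, _, π, R, h1, h2⟩ := ih
      obtain ⟨i, j, σ⟩ := d
      by_cases hij : i = j
      · refine ⟨V, inferInstance, π, R, h1, fun c => ?_⟩
        obtain ⟨γ, hγ⟩ := h2 c
        refine ⟨γ, fun S lab hS => ?_⟩
        obtain ⟨ψ, p1, p2, p3⟩ := hγ S lab hS
        refine ⟨ψ, p1, p2, fun a ha b hb hab hm => p3 a ha b hb hab ?_⟩
        refine (List.mem_cons.1 hm).resolve_left (fun e => hab ?_)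
        obtain ⟨e1, e2⟩ := Prod.ext_iff.1 e
        obtain ⟨e3, -⟩ := Prod.ext_iff.1 e2
        simp only at e1 e3
        rw [e1, e3, hij]
      · exact partite_step bd hbd π R D h1 h2 i j hij σ
  have := Fintype.ofFinite α
  obtain ⟨V, _, π, R, h1, h2⟩ := key (Finset.univ : Finset (α × α × Bool)).toList
  refine ⟨V, inferInstance, π, R, h1, fun c => ?_⟩
  obtain ⟨γ, hγ⟩ := h2 c
  refine ⟨γ, fun S lab hS => ?_⟩
  obtain ⟨ψ, p1, p2, p3⟩ := hγ S lab hS
  exact ⟨ψ, p1, fun a ha b hb hab => ⟨p2 a ha b hb hab, p3 a ha b hb hab (by simp)⟩⟩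

end Pool.Agent.Lib.MP_904cf4_co
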