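import Pool.Agent.Lib.MP_904cf4_co.Basic

set_option autoImplicit false

namespace Pool.Agent.Lib.MP_904cf4_co

open SimpleGraph

lemma deletion {V : Type} (U : Finset V) (F : Finset (Finset V)) (hF : ∀ S ∈ F, S.Nonempty) :
    ∃ U' ⊆ U, U.card ≤ U'.card + F.card ∧ ∀ S ∈ F, ¬ S ⊆ U' := by
  classical
  choose g hg using hF
  refine ⟨U \ F.attach.image (fun S => g S.1 S.2), Finset.sdiff_subset, ?_, fun S hS h => ?_⟩
  · have h1 := Finset.le_card_sdiff (F.attach.image (fun S => g S.1 S.2)) U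
    have h2 := Finset.card_image_le (s := F.attach) (f := fun S => g S.1 S.2)
    rw [Finset.card_attach] at h2
    omega
  · exact (Finset.mem_sdiff.1 (h (hg S hS))).2
      (Finset.mem_image.2 ⟨⟨S, hS⟩, Finset.mem_attach _ _, rfl⟩)

lemma card_forced {ι β : Type} [Fintype ι] [DecidableEq ι] [Fintype β] [DecidableEq β]
    (P : Finset ι) (B : Finset β) :
    (Finset.univ.filter (fun ω : ι → β => ∀ e ∈ P, ω e ∈ B)).card * Fintype.card β ^ P.card =
      B.card ^ P.card * Fintype.card β ^ Fintype.card ι := by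
  have h1 : Finset.univ.filter (fun ω : ι → β => ∀ e ∈ P, ω e ∈ B) =
      Fintype.piFinset (fun e => if e ∈ P then B else Finset.univ) := by
    ext ω
    simp only [Finset.mem_filter, Finset.mem_univ, true_and, Fintype.mem_piFinset]
    refine forall_congr' (fun e => ?_)
    split_ifs with h <;> simp [h]
  rw [h1, Fintype.card_piFinset]
  simp only [apply_ite Finset.card, Finset.card_univ]
  rw [Finset.prod_ite, Finset.prod_const, Finset.prod_const, mul_assoc, ← pow_add]
  have h2 : Finset.univ.filter (fun e => e ∈ P) = P := by ext; simp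
  have h3 := Finset.card_filter_add_card_filter_not (s := (Finset.univ : Finset ι)) (fun e => e ∈ P)
  rw [h2, Finset.card_univ] at h3
  rw [h2, add_comm, h3]

lemma alteration (N r q l D : ℕ) (hr : 0 < r) (hq : 0 < q) (hl : 0 < l)
    (h : (N.choose q : ℝ) * (1 / r) ^ q.choose 2 + N.choose l * (1 - 1 / r) ^ l.choose 2 < D + 1) :
    N < ramsey q l + D := by
  classical
  let o : Fin r := ⟨0, hr⟩
  let G : (Fin N × Fin N → Fin r) → SimpleGraph (Fin N) := fun ω =>
    fromRel (fun a b => a < b ∧ ω (a, b) = o)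
  let P : Finset (Fin N) → Finset (Fin N × Fin N) := fun K => (K ×ˢ K).filter (fun e => e.1 < e.2)
  let F1 : (Fin N × Fin N → Fin r) → Finset (Finset (Fin N)) := fun ω =>
    (Finset.univ.powersetCard q).filter (fun K => ∀ e ∈ P K, ω e ∈ ({o} : Finset (Fin r)))
  let F2 : (Fin N × Fin N → Fin r) → Finset (Finset (Fin N)) := fun ω =>
    (Finset.univ.powersetCard l).filter (fun K => ∀ e ∈ P K, ω e ∈ ({o}ᶜ : Finset (Fin r)))
  have hr' : (0 : ℝ) < r := by exact_mod_cast hr
  have key : ∀ (c : ℕ) (B : Finset (Fin r)),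
      ∑ ω : Fin N × Fin N → Fin r, (((Finset.univ.powersetCard c).filter
        (fun K => ∀ e ∈ P K, ω e ∈ B)).card : ℝ) =
      N.choose c * ((B.card : ℝ) / r) ^ c.choose 2 * r ^ (N * N) := by
    intro c B
    simp only [Finset.card_filter, Nat.cast_sum]
    rw [Finset.sum_comm]
    rw [Finset.sum_congr rfl (g := fun _ => ((B.card : ℝ) / r) ^ c.choose 2 * r ^ (N * N))]
    · simp [mul_assoc]
    · intro K hK
      have h1 := card_forced (P K) B
      have h2 : (P K).card = c.choose 2 := by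
        rw [Finset.card_product_filter_lt, (Finset.mem_powersetCard.1 hK).2]
      rw [h2, Finset.card_filter] at h1
      simp only [Fintype.card_fin, Fintype.card_prod] at h1
      have h3 := congrArg (Nat.cast : ℕ → ℝ) h1
      push_cast at h3 ⊢
      rw [div_pow, div_mul_eq_mul_div, eq_div_iff (by positivity)]
      convert h3 using 3
  have hsum : ∑ ω : Fin N × Fin N → Fin r, (((F1 ω).card : ℝ) + (F2 ω).card) <
      ∑ _ω : Fin N × Fin N → Fin r, ((D : ℝ) + 1) := by
    rw [Finset.sum_add_distrib, key, key]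
    simp only [Finset.card_singleton, Finset.card_compl, Fintype.card_fin, Finset.sum_const,
      Finset.card_univ, Fintype.card_fun, Fintype.card_prod, nsmul_eq_mul]
    rw [Nat.cast_sub hr, sub_div, div_self hr'.ne', ← add_mul, mul_comm]
    push_cast
    exact mul_lt_mul_of_pos_left h (by positivity)
  obtain ⟨ω, -, hω⟩ := Finset.exists_lt_of_sum_lt hsum
  have hω' : (F1 ω).card + (F2 ω).card < D + 1 := by exact_mod_cast hω
  obtain ⟨U, -, hU1, hU2⟩ := deletion Finset.univ (F1 ω ∪ F2 ω) (fun S hS => by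
    rw [← Finset.card_pos]
    rcases Finset.mem_union.1 hS with h | h
    · rw [(Finset.mem_powersetCard.1 (Finset.mem_filter.1 h).1).2]; exact hq
    · rw [(Finset.mem_powersetCard.1 (Finset.mem_filter.1 h).1).2]; exact hl)
  have h1 := Finset.card_union_le (F1 ω) (F2 ω)
  rw [Finset.card_univ, Fintype.card_fin] at hU1
  have h2 : U.card < ramsey q l := by
    refine ramsey_set (G ω) q l U (fun K hK hc => ?_) (fun K hK hc => ?_)
    · refine hU2 K (Finset.mem_union_left _ (Finset.mem_filter.2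
        ⟨Finset.mem_powersetCard.2 ⟨Finset.subset_univ _, hc.2⟩, fun e he => ?_⟩)) hK
      obtain ⟨he1, he2⟩ := Finset.mem_filter.1 he
      obtain ⟨he3, he4⟩ := Finset.mem_product.1 he1
      have := hc.1 he3 he4 he2.ne
      simp only [G, fromRel_adj] at this
      rcases this.2 with h | h
      · exact Finset.mem_singleton.2 h.2
      · exact absurd h.1 he2.not_gt
    · refine hU2 K (Finset.mem_union_right _ (Finset.mem_filter.2
        ⟨Finset.mem_powersetCard.2 ⟨Finset.subset_univ _, hc.2⟩, fun e he => ?_⟩)) hK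
      obtain ⟨he1, he2⟩ := Finset.mem_filter.1 he
      obtain ⟨he3, he4⟩ := Finset.mem_product.1 he1
      have := (hc.1 he3 he4 he2.ne).2
      simp only [G, fromRel_adj] at this
      rw [Finset.mem_compl, Finset.mem_singleton]
      exact fun h => this ⟨he2.ne, Or.inl ⟨he2, h⟩⟩
  omega

lemma ramsey_lower (q z : ℕ) (hq : 3 ≤ q) (hz : 4 * q ^ 2 ≤ z) :
    z ^ (q ^ 2) ≤ 2 * ramsey q (z ^ (2 * q + 2)) := by
  have hq2 : 9 ≤ q ^ 2 := by nlinarith
  have hz0 : 0 < z := by omega
  have hz1 : (1 : ℝ) ≤ z := by exact_mod_cast hz0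
  have hN : 6 ≤ z ^ (q ^ 2) := by
    calc 6 ≤ z := by omega
      _ = z ^ 1 := (pow_one z).symm
      _ ≤ _ := Nat.pow_le_pow_right hz0 (by omega)
  have := alteration (z ^ (q ^ 2)) (z ^ (2 * q)) q (z ^ (2 * q + 2)) (z ^ (q ^ 2) / 2)
    (by positivity) (by omega) (by positivity) ?_
  · omega
  have h1 : ((z ^ (q ^ 2)).choose q : ℝ) * (1 / ((z ^ (2 * q) : ℕ) : ℝ)) ^ q.choose 2 ≤
      (z : ℝ) ^ (q ^ 2) / 6 := by
    have e1 : ((z ^ (q ^ 2)).choose q : ℝ) ≤ ((z ^ (q ^ 2) : ℕ) : ℝ) ^ q / 6 := by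
      refine (Nat.choose_le_pow_div q _).trans ?_
      have : (6 : ℝ) ≤ (q.factorial : ℝ) := by exact_mod_cast Nat.factorial_le hq
      gcongr
    have e2 : q ^ 2 * q = q ^ 2 + 2 * q * q.choose 2 := by
      obtain ⟨p, rfl⟩ : ∃ p, q = p + 1 := ⟨q - 1, by omega⟩
      have := Nat.add_one_mul_choose_eq p 1
      simp only [Nat.choose_one_right] at this
      nlinarith
    refine (mul_le_mul_of_nonneg_right e1 (by positivity)).trans (le_of_eq ?_)
    push_cast
    rw [← pow_mul, e2, pow_add, one_div, inv_pow, ← pow_mul]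
    field_simp
  have h2 : ((z ^ (q ^ 2)).choose (z ^ (2 * q + 2)) : ℝ) *
      (1 - 1 / ((z ^ (2 * q) : ℕ) : ℝ)) ^ (z ^ (2 * q + 2)).choose 2 ≤ 1 := by
    set l := z ^ (2 * q + 2) with hl
    set r : ℝ := ((z ^ (2 * q) : ℕ) : ℝ) with hr
    have hr1 : 1 ≤ r := by rw [hr]; exact_mod_cast Nat.one_le_pow _ _ hz0
    have hlr : (l : ℝ) = r * z ^ 2 := by rw [hl, hr]; push_cast; ring
    have e1 : ((z ^ (q ^ 2)).choose l : ℝ) ≤ Real.exp (l * (q ^ 2 * z)) := by
      calc ((z ^ (q ^ 2)).choose l : ℝ) ≤ ((z : ℝ) ^ (q ^ 2)) ^ l := by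
            exact_mod_cast Nat.choose_le_pow _ _
        _ ≤ (Real.exp z ^ (q ^ 2)) ^ l := by
            have := Real.add_one_le_exp (z : ℝ)
            gcongr
            linarith
        _ = _ := by rw [← Real.exp_nat_mul, ← Real.exp_nat_mul]; push_cast; rfl
    have e2 : (1 - 1 / r) ^ l.choose 2 ≤ Real.exp (l.choose 2 * (-(1 / r))) := by
      rw [Real.exp_nat_mul]
      have h3 : 0 ≤ 1 - 1 / r := by
        rw [sub_nonneg, div_le_one (by linarith)]; exact hr1
      have := Real.add_one_le_exp (-(1 / r))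
      gcongr
      linarith
    have h3 : 0 ≤ 1 - 1 / r := by
      rw [sub_nonneg, div_le_one (by linarith)]; exact hr1
    refine (mul_le_mul e1 e2 (by positivity) (by positivity)).trans ?_
    rw [← Real.exp_add, Real.exp_le_one_iff, Nat.cast_choose_two, hlr]
    have hz' : 4 * (q : ℝ) ^ 2 ≤ z := by exact_mod_cast hz
    have e3 : r * z ^ 2 * (r * z ^ 2 - 1) / 2 * -(1 / r) = -(z ^ 2 * (r * z ^ 2 - 1) / 2) := by
      field_simp
    rw [e3]
    have e4 : r * (q ^ 2 * z) ≤ (r * z ^ 2 - 1) / 2 := by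
      have e5 : r * (4 * q ^ 2 * z) ≤ r * (z * z) := by gcongr
      have e6 : (2 : ℝ) ≤ r * (z * z) := by
        have : (2 : ℝ) ≤ z := by exact_mod_cast (show 2 ≤ z by omega)
        nlinarith
      nlinarith
    have e5 := mul_le_mul_of_nonneg_left e4 (show (0 : ℝ) ≤ z ^ 2 by positivity)
    nlinarith
  have h3 : (z : ℝ) ^ (q ^ 2) / 6 < ((z ^ (q ^ 2) / 2 : ℕ) : ℝ) := by
    rw [div_lt_iff₀ (by norm_num)]
    exact_mod_cast (show z ^ (q ^ 2) < z ^ (q ^ 2) / 2 * 6 by omega)
  linarith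

end Pool.Agent.Lib.MP_904cf4_co
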