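import Pool.Agent.Lib.MP_904cf4_co.Final

set_option autoImplicit false
set_option linter.unusedSectionVars false

namespace Pool.Agent.Lib.MP_904cf4_co

open SimpleGraph

variable {V : Type} [DecidableEq V]

/-- `j` disjoint `t`-cliques inside `U`. -/
def Pack (Γ : SimpleGraph V) (t : ℕ) : Finset V → ℕ → Prop
  | _, 0 => True
  | U, j + 1 => ∃ K ⊆ U, Γ.IsNClique t K ∧ Pack Γ t (U \ K) j

lemma Pack.mono {Γ : SimpleGraph V} {t : ℕ} : ∀ {j : ℕ} {U U' : Finset V}, U ⊆ U' →
    Pack Γ t U j → Pack Γ t U' j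
  | 0, _, _, _, _ => trivial
  | _ + 1, _, _, h, ⟨K, h1, h2, h3⟩ =>
    ⟨K, h1.trans h, h2, h3.mono (Finset.sdiff_subset_sdiff h le_rfl)⟩

lemma Pack.family {Γ : SimpleGraph V} {t : ℕ} : ∀ {j : ℕ} {U : Finset V}, Pack Γ t U j →
    ∃ T : ℕ → Finset V, (∀ i < j, Γ.IsNClique t (T i) ∧ T i ⊆ U) ∧
      ∀ i < j, ∀ i' < j, i ≠ i' → Disjoint (T i) (T i')
  | 0, _, _ => ⟨fun _ => ∅, by simp, by simp⟩
  | j + 1, U, ⟨K, h1, h2, h3⟩ => by
    obtain ⟨T, t1, t2⟩ := h3.family
    have hd : ∀ i < j, Disjoint (T i) K := fun i hi =>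
      Finset.disjoint_of_subset_left (t1 i hi).2 Finset.sdiff_disjoint
    refine ⟨Function.update T j K, fun i hi => ?_, fun i hi i' hi' hne => ?_⟩
    · by_cases e : i = j
      · subst e
        rw [Function.update_self]
        exact ⟨h2, h1⟩
      · rw [Function.update_of_ne e]
        exact ⟨(t1 i (by omega)).1, (t1 i (by omega)).2.trans Finset.sdiff_subset⟩
    · by_cases e : i = j
      · subst e
        rw [Function.update_self, Function.update_of_ne hne.symm]
        exact (hd _ (by omega)).symm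
      · by_cases e' : i' = j
        · subst e'
          rw [Function.update_self, Function.update_of_ne e]
          exact hd _ (by omega)
        · rw [Function.update_of_ne e, Function.update_of_ne e']
          exact t2 i (by omega) i' (by omega) hne

lemma sdiff_sdiff_eq_union (U K P : Finset V) : (U \ K) \ P = U \ (K ∪ P) := by
  ext x
  simp [and_assoc]

lemma cover_of_not_pack (Γ : SimpleGraph V) (t : ℕ) : ∀ (g : ℕ) (U : Finset V),
    ¬ Pack Γ t U (g + 1) → ∃ P ⊆ U, P.card ≤ t * g ∧ Γ.CliqueFreeOn (U \ P : Finset V) t ∧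
      ∀ x ∈ P, ∃ K ⊆ U, Γ.IsNClique t K ∧ x ∈ K := by
  intro g
  induction g with
  | zero =>
    intro U h
    exact ⟨∅, by simp, by simp, fun K hK hc => h ⟨K, by simpa using hK, hc, trivial⟩, by simp⟩
  | succ g ih =>
    intro U h
    by_cases h0 : ∃ K ⊆ U, Γ.IsNClique t K
    · obtain ⟨K, h1, h2⟩ := h0
      obtain ⟨P, p1, p2, p3, p4⟩ := ih (U \ K) fun h3 => h ⟨K, h1, h2, h3⟩
      refine ⟨K ∪ P, Finset.union_subset h1 (p1.trans Finset.sdiff_subset), ?_, ?_, fun x hx => ?_⟩
      · have := Finset.card_union_le K P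
        rw [h2.2] at this
        rw [Nat.mul_succ]
        omega
      · rwa [← sdiff_sdiff_eq_union]
      · rcases Finset.mem_union.1 hx with hx | hx
        · exact ⟨K, h1, h2, hx⟩
        · obtain ⟨K', k1, k2, k3⟩ := p4 x hx
          exact ⟨K', k1.trans Finset.sdiff_subset, k2, k3⟩
    · exact ⟨∅, by simp, by simp, fun K hK hc => h0 ⟨K, by simpa using hK, hc⟩, by simp⟩

/-- A proper colouring of `S` with `n` colours. -/
def Col (G : SimpleGraph V) (S : Finset V) (n : ℕ) : Prop :=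
  ∃ φ : V → ℕ, (∀ x ∈ S, φ x < n) ∧ ∀ x ∈ S, ∀ y ∈ S, G.Adj x y → φ x ≠ φ y

lemma Col.union {G : SimpleGraph V} {S : Finset V} {n : ℕ} (h : Col G S n) (I : Finset V)
    (hI : ∀ x ∈ I, ∀ y ∈ I, ¬ G.Adj x y) : Col G (I ∪ S) (n + 1) := by
  obtain ⟨φ, h1, h2⟩ := h
  refine ⟨fun x => if x ∈ S then φ x else n, fun x _ => ?_, fun x hx y hy hxy => ?_⟩
  · dsimp only
    split_ifs with e
    · exact (h1 x e).trans n.lt_succ_self
    · exact n.lt_succ_self
  · dsimp only
    split_ifs with e e' e'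
    · exact h2 x e y e' hxy
    · exact (h1 x e).ne
    · exact (h1 y e').ne'
    · exact absurd hxy (hI x ((Finset.mem_union.1 hx).resolve_right e) y
        ((Finset.mem_union.1 hy).resolve_right e'))

lemma Col.mono {G : SimpleGraph V} {S : Finset V} {n m : ℕ} (h : Col G S n) (hn : n ≤ m) :
    Col G S m := by
  obtain ⟨φ, h1, h2⟩ := h
  exact ⟨φ, fun x hx => (h1 x hx).trans_le hn, h2⟩

lemma Col.fresh {G : SimpleGraph V} {S : Finset V} {n : ℕ} (h : Col G S n) (T : Finset V) :
    Col G (T ∪ S) (n + T.card) := by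
  induction T using Finset.induction_on with
  | empty => simpa using h
  | insert a T ha ih =>
    rw [Finset.card_insert_of_notMem ha, Finset.insert_eq, Finset.union_assoc]
    exact ih.union {a} (by simp)

lemma col_empty (G : SimpleGraph V) : Col G ∅ 0 := ⟨fun _ => 0, by simp, by simp⟩

lemma col_half (G : SimpleGraph V) (w : ℕ) : ∀ (n : ℕ) (S : Finset V), S.card = n →
    (∀ K ⊆ S, G.IsClique K → K.card ≤ w) → Col G S ((n + w) / 2) := by
  intro n
  induction n using Nat.strong_induction_on with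
  | _ n ih =>
  intro S hS hw
  by_cases hc : G.IsClique S
  · have := hw S le_rfl hc
    have h2 := (col_empty G).fresh S
    rw [Finset.union_empty] at h2
    exact h2.mono (by omega)
  obtain ⟨x, hx, y, hy, hne, hxy⟩ : ∃ x ∈ S, ∃ y ∈ S, x ≠ y ∧ ¬ G.Adj x y := by
    by_contra h
    push Not at h
    exact hc fun x hx y hy hne => h x hx y hy hne
  have hsub : ({x, y} : Finset V) ⊆ S := by
    intro z hz
    rcases Finset.mem_insert.1 hz with rfl | hz
    · exact hx
    · rwa [Finset.mem_singleton.1 hz]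
  have hcard := Finset.card_sdiff_of_subset hsub
  have hle := Finset.card_le_card hsub
  rw [Finset.card_pair hne] at hcard hle
  have := (ih _ (by omega) (S \ {x, y}) rfl fun K hK =>
    hw K (hK.trans Finset.sdiff_subset)).union {x, y} (by
      intro a ha b hb hab
      simp only [Finset.mem_insert, Finset.mem_singleton] at ha hb
      rcases ha with rfl | rfl <;> rcases hb with rfl | rfl
      · exact G.irrefl hab
      · exact hxy hab
      · exact hxy hab.symm
      · exact G.irrefl hab)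
  rw [Finset.union_sdiff_of_subset hsub] at this
  exact this.mono (by omega)

lemma exists_tie {G R : SimpleGraph V} {t : ℕ} (ht : 2 ≤ t) {A B : Finset V}
    (hA : R.IsNClique (2 * t) A) (hB : (G \ R).IsNClique (2 * t) B)
    (hAB : G.IsClique (A ∪ B : Finset V)) : ∃ K ⊆ A ∪ B, ∃ L ⊆ A ∪ B, R.IsNClique t K ∧
      (G \ R).IsNClique t L ∧ ¬ Disjoint K L := by
  classical
  have ext : ∀ (Γ : SimpleGraph V) (C : Finset V) (x : V), Γ.IsNClique (2 * t) C → x ∈ C →
      ∃ K ⊆ C, Γ.IsNClique t K ∧ x ∈ K := by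
    intro Γ C x hC hx
    obtain ⟨K, k1, k2, k3⟩ := Finset.exists_subsuperset_card_eq (s := {x}) (t := C) (n := t)
      (by simpa) (by simp; omega) (by rw [hC.2]; omega)
    exact ⟨K, k2, ⟨hC.1.subset k2, k3⟩, k1 (by simp)⟩
  have add : ∀ (Γ : SimpleGraph V) (C : Finset V) (x : V) [DecidablePred (Γ.Adj x)],
      Γ.IsNClique (2 * t) C →
      t - 1 ≤ (C.filter (Γ.Adj x)).card → ∃ K ⊆ insert x C, Γ.IsNClique t K ∧ x ∈ K := by
    intro Γ C x _ hC hx
    obtain ⟨D, d1, d2⟩ := Finset.exists_subset_card_eq hx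
    have d3 : D ⊆ C := d1.trans (Finset.filter_subset _ _)
    have := (IsNClique.insert (G := Γ) (a := x) ⟨hC.1.subset d3, d2⟩
      fun b hb => (Finset.mem_filter.1 (d1 hb)).2)
    rw [Nat.sub_add_cancel (by omega)] at this
    exact ⟨_, Finset.insert_subset_insert x d3, this, Finset.mem_insert_self _ _⟩
  by_cases hd : Disjoint A B
  swap
  · obtain ⟨x, hx, hx'⟩ := Finset.not_disjoint_iff.1 hd
    obtain ⟨K, k1, k2, k3⟩ := ext _ _ x hA hx
    obtain ⟨L, l1, l2, l3⟩ := ext _ _ x hB hx'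
    exact ⟨K, k1.trans Finset.subset_union_left, L, l1.trans Finset.subset_union_right, k2, l2,
      Finset.not_disjoint_iff.2 ⟨x, k3, l3⟩⟩
  by_cases h1 : ∃ a ∈ A, t - 1 ≤ (B.filter ((G \ R).Adj a)).card
  · obtain ⟨a, ha, h⟩ := h1
    obtain ⟨K, k1, k2, k3⟩ := ext _ _ a hA ha
    obtain ⟨L, l1, l2, l3⟩ := add _ _ a hB h
    exact ⟨K, k1.trans Finset.subset_union_left, L, l1.trans (Finset.insert_subset
      (Finset.mem_union_left _ ha) Finset.subset_union_right), k2, l2,
      Finset.not_disjoint_iff.2 ⟨a, k3, l3⟩⟩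
  by_cases h2 : ∃ b ∈ B, t - 1 ≤ (A.filter (R.Adj b)).card
  · obtain ⟨b, hb, h⟩ := h2
    obtain ⟨K, k1, k2, k3⟩ := add _ _ b hA h
    obtain ⟨L, l1, l2, l3⟩ := ext _ _ b hB hb
    exact ⟨K, k1.trans (Finset.insert_subset (Finset.mem_union_right _ hb)
      Finset.subset_union_left), L, l1.trans Finset.subset_union_right, k2, l2,
      Finset.not_disjoint_iff.2 ⟨b, k3, l3⟩⟩
  exfalso
  push Not at h1 h2
  have := Finset.card_mul_le_card_mul (s := A) (t := B) (m := t + 1) (n := t) (fun a b => R.Adj b a)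
    (fun a ha => ?_) fun b hb => (h2 b hb).le.trans (Nat.sub_le _ _)
  · rw [hA.2, hB.2] at this
    nlinarith
  · have h3 := h1 a ha
    have h4 : B ⊆ B.filter ((G \ R).Adj a) ∪ B.filter (fun b => R.Adj b a) := by
      intro b hb
      have hne : a ≠ b := fun e => Finset.disjoint_left.1 hd ha (e ▸ hb)
      have hg := hAB (Finset.mem_coe.2 (Finset.mem_union_left _ ha))
        (Finset.mem_coe.2 (Finset.mem_union_right _ hb)) hne
      by_cases e : R.Adj b a
      · exact Finset.mem_union_right _ (Finset.mem_filter.2 ⟨hb, e⟩)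
      · exact Finset.mem_union_left _ (Finset.mem_filter.2 ⟨hb, hg, fun h => e h.symm⟩)
    have h5 := (Finset.card_le_card h4).trans (Finset.card_union_le _ _)
    rw [hB.2] at h5
    change t + 1 ≤ (B.filter fun b => R.Adj b a).card
    omega

lemma clique_card_lt {G R : SimpleGraph V} {a b : ℕ} {K : Finset V} (hK : G.IsClique K)
    (h1 : R.CliqueFreeOn K a) (h2 : (G \ R).CliqueFreeOn K b) : K.card < ramsey a b := by
  refine ramsey_set R a b K h1 fun L hL hc => h2 hL ⟨fun x hx y hy hne => ?_, hc.2⟩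
  exact ⟨hK (hL hx) (hL hy) hne, (hc.1 hx hy hne).2⟩

lemma col_of_not_pack {G R : SimpleGraph V} (hR : R ≤ G) {t : ℕ} (ht : 2 ≤ t) :
    ∀ (g : ℕ) (U : Finset V), ¬ Pack R t U (g + 1) → ¬ Pack (G \ R) t U (g + 1) →
      ∃ S ⊆ U, Col G S ((2 * t - 1) * g + ramsey t (2 * t)) ∧
        R.CliqueFreeOn (U \ S : Finset V) t ∧ (G \ R).CliqueFreeOn (U \ S : Finset V) t := by
  have base : ∀ (g : ℕ) (U : Finset V), ¬ Pack R t U (g + 1) → ¬ Pack (G \ R) t U (g + 1) →
      (∀ K ⊆ U, ∀ L ⊆ U, R.IsNClique t K → (G \ R).IsNClique t L → Disjoint K L) →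
      ∃ S ⊆ U, Col G S ((2 * t - 1) * g + ramsey t (2 * t)) ∧
        R.CliqueFreeOn (U \ S : Finset V) t ∧ (G \ R).CliqueFreeOn (U \ S : Finset V) t := by
    intro g U h1 h2 hT
    obtain ⟨P, p1, p2, p3, p4⟩ := cover_of_not_pack R t g U h1
    obtain ⟨Q, q1, q2, q3, q4⟩ := cover_of_not_pack (G \ R) t g U h2
    have hU : P ∪ Q ⊆ U := Finset.union_subset p1 q1
    refine ⟨P ∪ Q, hU, (col_half G (t * g + ramsey t (2 * t)) _ _ rfl fun K hK hc => ?_).mono ?_,
      CliqueFreeOn.subset _ (Finset.coe_subset.2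
        (Finset.sdiff_subset_sdiff le_rfl Finset.subset_union_left)) p3,
      CliqueFreeOn.subset _ (Finset.coe_subset.2
        (Finset.sdiff_subset_sdiff le_rfl Finset.subset_union_right)) q3⟩
    · by_cases hb : (G \ R).CliqueFreeOn K (2 * t)
      · have := clique_card_lt (K := K \ P) (hc.subset (by simp)) (CliqueFreeOn.subset _
          (Finset.coe_subset.2 (Finset.sdiff_subset_sdiff (hK.trans hU) le_rfl)) p3)
          (CliqueFreeOn.subset _ (by simp) hb)
        have h4 := Finset.le_card_sdiff P K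
        omega
      by_cases hr : R.CliqueFreeOn K (2 * t)
      · have := clique_card_lt (K := K \ Q) (hc.subset (by simp)) (CliqueFreeOn.subset _
          (by simp) hr) (CliqueFreeOn.subset _
          (Finset.coe_subset.2 (Finset.sdiff_subset_sdiff (hK.trans hU) le_rfl)) q3)
        have h4 := Finset.le_card_sdiff Q K
        rw [ramsey_comm] at this
        omega
      simp only [CliqueFreeOn, not_forall, not_not] at hb hr
      obtain ⟨B, b1, b2⟩ := hb
      obtain ⟨A, a1, a2⟩ := hr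
      have hAB : A ∪ B ⊆ K := Finset.union_subset a1 b1
      obtain ⟨K', k1, L, l1, k2, l2, h⟩ := exists_tie ht a2 b2 (hc.subset hAB)
      exact absurd (hT K' (k1.trans (hAB.trans (hK.trans hU))) L
        (l1.trans (hAB.trans (hK.trans hU))) k2 l2) h
    · have := Finset.card_union_le P Q
      obtain ⟨u, rfl⟩ := Nat.exists_eq_add_of_le ht
      have e : (2 * (2 + u) - 1) * g = 3 * g + 2 * (u * g) := by
        rw [show 2 * (2 + u) - 1 = 3 + 2 * u by omega]
        ring
      rw [add_mul] at p2 q2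
      rw [e, add_mul]
      omega
  intro g
  induction g with
  | zero =>
    intro U h1 h2
    exact base 0 U h1 h2 fun K hK _ _ hc _ => absurd ⟨K, hK, hc, trivial⟩ h1
  | succ g ih =>
    intro U h1 h2
    by_cases hT : ∀ K ⊆ U, ∀ L ⊆ U, R.IsNClique t K → (G \ R).IsNClique t L → Disjoint K L
    · exact base _ U h1 h2 hT
    push Not at hT
    obtain ⟨K, k1, L, l1, k2, l2, h⟩ := hT
    obtain ⟨S, s1, s2, s3, s4⟩ := ih (U \ (K ∪ L))
      (fun h3 => h1 ⟨K, k1, k2, h3.mono (Finset.sdiff_subset_sdiff le_rfl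
        Finset.subset_union_left)⟩)
      (fun h3 => h2 ⟨L, l1, l2, h3.mono (Finset.sdiff_subset_sdiff le_rfl
        Finset.subset_union_right)⟩)
    rw [sdiff_sdiff_eq_union] at s3 s4
    refine ⟨(K ∪ L) ∪ S, Finset.union_subset (Finset.union_subset k1 l1)
      (s1.trans Finset.sdiff_subset), (s2.fresh _).mono ?_, s3, s4⟩
    have h3 := Finset.card_union_add_card_inter K L
    have h4 := Finset.card_pos.2 (Finset.not_disjoint_iff_nonempty_inter.1 h)
    rw [k2.2, l2.2] at h3
    rw [Nat.mul_succ]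
    omega

lemma recolour_col [Fintype V] (G : SimpleGraph V) (k n : ℕ) (S : Finset V) (hS : Col G S n)
    (hn : n < ramsey (k + 1) k) (hW : G.CliqueFreeOn (Finset.univ \ S : Finset V) (k + 1)) :
    ∃ R' : SimpleGraph V, R' ≤ G ∧ R'.CliqueFree (k + 1) ∧ (G \ R').CliqueFree (k + 1) := by
  classical
  obtain ⟨φ, h1, h2⟩ := hS
  obtain ⟨c, c1, c2⟩ := exists_good_on (k + 1) k (Finset.range n) (by simpa using hn)
  let R' : SimpleGraph V :=
    { Adj := fun u v => G.Adj u v ∧ ((u ∉ S ∧ v ∉ S) ∨ (u ∈ S ∧ v ∈ S ∧ c.Adj (φ u) (φ v)))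
      symm := ⟨fun u v h => ⟨h.1.symm, h.2.imp And.symm fun h => ⟨h.2.1, h.1, h.2.2.symm⟩⟩⟩
      loopless := ⟨fun u h => G.irrefl h.1⟩ }
  have im : ∀ (c' : SimpleGraph ℕ) (m : ℕ) (K : Finset V), K ⊆ S → G.IsClique K →
      (∀ u ∈ K, ∀ v ∈ K, u ≠ v → c'.Adj (φ u) (φ v)) → c'.CliqueFreeOn (Finset.range n) m →
      K.card < m := by
    intro c' m K hK hc ha hf
    have hi : (K.image φ).card = K.card := Finset.card_image_of_injOn fun u hu v hv e => by
      by_contra hne
      exact h2 u (hK hu) v (hK hv) (hc hu hv hne) e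
    rw [← hi]
    refine card_lt_of_clique hf (fun x hx => ?_) fun x hx y hy hne => ?_
    · obtain ⟨u, hu, rfl⟩ := Finset.mem_image.1 hx
      simpa using h1 u (hK hu)
    · obtain ⟨u, hu, rfl⟩ := Finset.mem_image.1 hx
      obtain ⟨v, hv, rfl⟩ := Finset.mem_image.1 hy
      exact ha u hu v hv fun e => hne (e ▸ rfl)
  refine ⟨R', fun u v h => h.1, fun K hK => ?_, fun K hK => ?_⟩
  · have hc : G.IsClique K := fun u hu v hv hne => (hK.1 hu hv hne).1
    by_cases h : ∃ a ∈ K, a ∈ S
    · obtain ⟨a, ha, haS⟩ := h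
      have hsub : K ⊆ S := fun u hu => by
        by_cases e : a = u
        · exact e ▸ haS
        · exact ((hK.1 ha hu e).2.resolve_left fun h => h.1 haS).2.1
      have := im c _ K hsub hc (fun u hu v hv hne =>
        ((hK.1 hu hv hne).2.resolve_left fun h => h.1 (hsub hu)).2.2) c1
      exact this.ne hK.2
    · push Not at h
      exact hW (fun u hu => by simpa using h u hu) ⟨hc, hK.2⟩
  · have hc : G.IsClique K := fun u hu v hv hne => (hK.1 hu hv hne).1
    have e1 := im cᶜ _ (K.filter (· ∈ S)) (fun u hu => (Finset.mem_filter.1 hu).2)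
      (hc.subset (Finset.coe_subset.2 (Finset.filter_subset _ _))) (fun u hu v hv hne => by
        obtain ⟨u1, u2⟩ := Finset.mem_filter.1 hu
        obtain ⟨v1, v2⟩ := Finset.mem_filter.1 hv
        have := hK.1 u1 v1 hne
        exact ⟨h2 u u2 v v2 this.1, fun h => this.2 ⟨this.1, Or.inr ⟨u2, v2, h⟩⟩⟩) c2
    have e2 : (K.filter (· ∉ S)).card ≤ 1 := Finset.card_le_one.2 fun u hu v hv => by
      by_contra hne
      obtain ⟨u1, u2⟩ := Finset.mem_filter.1 hu
      obtain ⟨v1, v2⟩ := Finset.mem_filter.1 hv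
      have := hK.1 u1 v1 hne
      exact this.2 ⟨this.1, Or.inl ⟨u2, v2⟩⟩
    have e3 := Finset.card_filter_add_card_filter_not (s := K) (· ∈ S)
    have e4 := hK.2
    omega

theorem equiv_of_small (s t f : ℕ) (ht : 2 ≤ t) (h0 : ramsey t (2 * t) ≤ s + t)
    (h1 : s + f * t < ramsey (s + t) (s + 1))
    (h2 : (2 * t - 1) * f + 3 * (s + t) ≤ ramsey (s + t) (s + t - 1)) :
    RamseyEquiv (⊤ : SimpleGraph (Fin (s + t))) (cliquePlus (s + t) f t) := by
  classical
  intro V _ G
  have hpos : 0 < ramsey (s + 1) t := ramsey_pos (by omega) (by omega)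
  constructor
  · intro hG R hR
    by_contra hcon
    obtain ⟨n1, n2⟩ := not_or.1 hcon
    have fin : ∀ R' : SimpleGraph V, R' ≤ G → R'.CliqueFree (s + t) →
        (G \ R').CliqueFree (s + t) → False := by
      intro R' h1 h2 h3
      rcases hG R' h1 with h | h
      · exact (not_cliqueFree_iff_top_isContained _).2 h h2
      · exact (not_cliqueFree_iff_top_isContained _).2 h h3
    have one : ∀ R : SimpleGraph V, R ≤ G → R.CliqueFree (s + t) →
        ¬ (cliquePlus (s + t) f t).IsContained (G \ R) → False := by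
      intro R hR h1 h2
      obtain ⟨A, hA1, hA2⟩ := exists_cover (G \ R) (s + t) f t (fin R hR h1) h2
      obtain ⟨R', r1, r2, r3⟩ := recolour G R s t A ∅ (by omega) (by simpa using hpos)
        (by simpa using hA2) h1.cliqueFreeOn (Or.inl rfl) hR
      exact fin R' r1 r2 r3
    by_cases c1 : R.CliqueFree (s + t)
    · exact one R hR c1 n2
    by_cases c2 : (G \ R).CliqueFree (s + t)
    · exact one (G \ R) sdiff_le c2 (by rwa [sdiff_sdiff_eq_self hR])
    simp only [CliqueFree, not_forall, not_not] at c1 c2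
    obtain ⟨A, hA⟩ := c1
    obtain ⟨B, hB⟩ := c2
    have np : ∀ (Γ : SimpleGraph V) (C : Finset V), C ⊆ A ∪ B → Γ.IsNClique (s + t) C →
        ¬ (cliquePlus (s + t) f t).IsContained Γ → ¬ Pack Γ t (Finset.univ \ (A ∪ B)) f := by
      intro Γ C hC hc hn hp
      obtain ⟨T, t1, t2⟩ := hp.family
      exact hn (contained_of_family Γ _ f t C T hc (fun i hi => ⟨(t1 i hi).1,
        Finset.disjoint_of_subset_left hC (Finset.disjoint_of_subset_right (t1 i hi).2
          Finset.disjoint_sdiff)⟩) t2)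
    have p1 := np R A Finset.subset_union_left hA n1
    have p2 := np _ B Finset.subset_union_right hB n2
    rcases f with _ | g
    · exact p1 trivial
    obtain ⟨S, -, s2, s3, s4⟩ := col_of_not_pack hR ht g _ p1 p2
    rw [sdiff_sdiff_eq_union] at s3 s4
    obtain ⟨k, hk⟩ : ∃ k, s + t = k + 1 := ⟨s + t - 1, by omega⟩
    have hc := Finset.card_union_le A B
    rw [hA.2, hB.2] at hc
    rw [Nat.mul_succ] at h2
    rw [hk] at fin h2
    obtain ⟨R', r1, r2, r3⟩ := recolour_col G k _ _ (s2.fresh (A ∪ B))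
      (by rw [Nat.add_sub_cancel] at h2; omega) fun K hK hc => by
        have := clique_card_lt hc.1 (CliqueFreeOn.subset _ hK s3) (CliqueFreeOn.mono _
          (show t ≤ 2 * t by omega) (CliqueFreeOn.subset _ hK s4))
        have := hc.2
        omega
    exact fin R' r1 r2 r3
  · intro hG R hR
    rcases hG R hR with h | h
    · exact Or.inl ((top_le_cliquePlus _ _ _).trans h)
    · exact Or.inr ((top_le_cliquePlus _ _ _).trans h)

theorem fkt_small (s t : ℕ) (ht : 3 ≤ t) (hs : 2 ≤ s) (h0 : ramsey t (2 * t) ≤ s + t) :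
    min ((ramsey (s + t) (s + 1) - 1 - s) / t)
      ((ramsey (s + t) (s + t - 1) - 3 * (s + t)) / (2 * t - 1)) ≤ fkt (s + t) t := by
  set f := min ((ramsey (s + t) (s + 1) - 1 - s) / t)
      ((ramsey (s + t) (s + t - 1) - 3 * (s + t)) / (2 * t - 1)) with hf
  rcases Nat.eq_zero_or_pos f with e | e
  · omega
  have h1 := (Nat.le_div_iff_mul_le (show 0 < t by omega)).1 (hf ▸ min_le_left _ _ : f ≤ _)
  have h2 := (Nat.le_div_iff_mul_le (show 0 < 2 * t - 1 by omega)).1
    (hf ▸ min_le_right _ _ : f ≤ _)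
  have h3 : 0 < f * t := by positivity
  have h4 : 0 < f * (2 * t - 1) := Nat.mul_pos e (by omega)
  refine le_csSup (fkt_bdd s t ht hs) (equiv_of_small s t f (by omega) h0 (by omega) ?_)
  rw [mul_comm]
  omega

end Pool.Agent.Lib.MP_904cf4_co
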