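import Pool.Agent.Lib.MP_904cf4_co.LowerEquiv

/-! The structure of a graph without `K_k + f K_t`. -/

set_option autoImplicit false

namespace Pool.Agent.Lib.MP_904cf4_co.EXA

open Finset SimpleGraph

variable {V : Type} [DecidableEq V]

lemma greedy (Γ : SimpleGraph V) (a : ℕ) (B : Finset V) (c : ℕ) : ∃ g ≤ c, ∃ T : ℕ → Finset V,
    (∀ i < g, Γ.IsNClique a (T i) ∧ Disjoint B (T i)) ∧
    (∀ i < g, ∀ j < g, i ≠ j → Disjoint (T i) (T j)) ∧
    (g < c → ∀ X, Γ.IsNClique a X → Disjoint B X → ¬ ∀ i < g, Disjoint (T i) X) := by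
  induction c with
  | zero => exact ⟨0, le_rfl, fun _ => ∅, by simp, by simp, by simp⟩
  | succ c ih =>
    obtain ⟨g, hg, T, h1, h2, h3⟩ := ih
    by_cases h : ∀ X, Γ.IsNClique a X → Disjoint B X → ¬ ∀ i < g, Disjoint (T i) X
    · exact ⟨g, by omega, T, h1, h2, fun _ => h⟩
    have e : g = c := by
      by_contra e
      exact h (h3 (by omega))
    push Not at h
    obtain ⟨X, x1, x2, x3⟩ := h
    refine ⟨g + 1, by omega, fun i => if i < g then T i else X, fun i _ => ?_,
      fun i hi j hj hne => ?_, fun h => absurd h (by omega)⟩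
    · beta_reduce
      split_ifs with h
      · exact h1 i h
      · exact ⟨x1, x2⟩
    · beta_reduce
      split_ifs with h h' h'
      · exact h2 i h j h' hne
      · exact x3 i h
      · exact (x3 j h').symm
      · omega

omit [DecidableEq V] in
lemma two_fam (Γ : SimpleGraph V) (k f t s g : ℕ) (K X : Finset V) (L T : ℕ → Finset V)
    (hK : Γ.IsNClique k K) (hL : ∀ i < s, Γ.IsNClique t (L i) ∧ Disjoint K (L i))
    (hLL : ∀ i < s, ∀ j < s, i ≠ j → Disjoint (L i) (L j))
    (hT : ∀ i < g, Γ.IsNClique t (T i) ∧ Disjoint K (T i))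
    (hTT : ∀ i < g, ∀ j < g, i ≠ j → Disjoint (T i) (T j))
    (hLT : ∀ i < s, ∀ j < g, Disjoint (L i) (T j)) (hf : f ≤ s + g + 1)
    (hX : s + g < f → Γ.IsNClique t X ∧ Disjoint K X ∧ (∀ i < s, Disjoint (L i) X) ∧
      ∀ i < g, Disjoint (T i) X) : (cliquePlus k f t).IsContained Γ := by
  refine contained_of_family Γ k f t K
    (fun i => if i < s then L i else if i < s + g then T (i - s) else X) hK (fun i hi => ?_)
    fun i hi j hj hne => ?_
  · split_ifs with h h'
    · exact hL i h
    · exact hT _ (by omega)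
    · exact ⟨(hX (by omega)).1, (hX (by omega)).2.1⟩
  · split_ifs with h1 h2 h3 h4 h5 h6 h7 h8
    · exact hLL i h1 j h2 hne
    · exact hLT i h1 _ (by omega)
    · exact (hX (by omega)).2.2.1 i h1
    · exact (hLT j h5 _ (by omega)).symm
    · exact hTT _ (by omega) _ (by omega) (by omega)
    · exact (hX (by omega)).2.2.2 _ (by omega)
    · exact ((hX (by omega)).2.2.1 j h7).symm
    · exact ((hX (by omega)).2.2.2 _ (by omega)).symm
    · omega

/-- the structured case: outside `A` (and `Y`) large cliques use many vertices of `Z` -/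
def PS (Γ : SimpleGraph V) (s t ρ : ℕ) (Y A Z : Finset V) : Prop :=
  ∀ X : Finset V, Γ.IsClique X → Disjoint Y X → Disjoint A X → X.card < s + t ∧
    (A.Nonempty → (t ≤ X.card → 2 ≤ (X ∩ Z).card) ∧ (t + 1 ≤ X.card → ρ ≤ (X ∩ Z).card))

/-- the small case -/
def PL (Γ : SimpleGraph V) (k β : ℕ) (Y U : Finset V) : Prop :=
  (∀ X : Finset V, Γ.IsClique X → Disjoint Y X → X.card < k ∧ (Disjoint U X → X.card + 2 < k)) ∧
    ∀ X ⊆ U, (∀ x ∈ X, ∀ y ∈ X, ¬ Γ.Adj x y) → X.card ≤ β

lemma card_bi (T : ℕ → Finset V) (g a : ℕ) (h : ∀ i < g, (T i).card ≤ a) :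
    ((range g).biUnion T).card ≤ g * a := by
  have := card_biUnion_le_card_mul (range g) T a fun i hi => h i (mem_range.1 hi)
  rwa [card_range] at this

omit [DecidableEq V] in
lemma sub_clique {Γ : SimpleGraph V} {X : Finset V} (h : Γ.IsClique X) {a : ℕ} (ha : a ≤ X.card) :
    ∃ X' ⊆ X, Γ.IsNClique a X' := by
  obtain ⟨X', h1, h2⟩ := exists_subset_card_eq ha
  exact ⟨X', h1, h.subset (coe_subset.2 h1), h2⟩

lemma structured (Γ : SimpleGraph V) (s t e f : ℕ) (he : 1 ≤ e) (hs : 1 ≤ s) (hst : s * (e + 1) ≤ t)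
    (hΓ : ¬ (cliquePlus (s + t) f t).IsContained Γ) (K : Finset V) (hK : Γ.IsNClique (s + t) K)
    (L : ℕ → Finset V) (hL : ∀ i < s, Γ.IsNClique (t + e) (L i) ∧ Disjoint K (L i))
    (hLL : ∀ i < s, ∀ j < s, i ≠ j → Disjoint (L i) (L j)) :
    ∃ A Z : Finset V, A.card ≤ f * t ∧ Z.card ≤ s * (e + 1) ∧ PS Γ s t (2 * (e + 1)) ∅ A Z := by
  obtain ⟨g, hg, T, h1, h2, h3⟩ := greedy Γ t (K ∪ (range s).biUnion L) (f - s)
  have sub : ∀ i < s, L i ⊆ K ∪ (range s).biUnion L := fun i hi =>
    (subset_biUnion_of_mem L (mem_range.2 hi)).trans subset_union_right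
  have use : ∀ (L' : ℕ → Finset V) (X : Finset V), (∀ i < s, L' i ⊆ L i ∧ (L' i).card = t) →
      f ≤ s + g + 1 → (s + g < f → Γ.IsNClique t X ∧ Disjoint K X ∧
        (∀ i < s, Disjoint (L' i) X) ∧ ∀ i < g, Disjoint (T i) X) → False := by
    intro L' X a b c
    exact hΓ (two_fam Γ _ f t s g K X L' T hK
      (fun i hi => ⟨⟨(hL i hi).1.1.subset (coe_subset.2 (a i hi).1), (a i hi).2⟩,
        (hL i hi).2.mono_right (a i hi).1⟩)
      (fun i hi j hj hne => (hLL i hi j hj hne).mono (a i hi).1 (a j hj).1)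
      (fun i hi => ⟨(h1 i hi).1, (h1 i hi).2.mono_left subset_union_left⟩) h2
      (fun i hi j hj => (h1 j hj).2.mono_left ((a i hi).1.trans (sub i hi))) b c)
  have ht : 1 ≤ t := le_trans (by nlinarith) hst
  have hS : ∀ i, ∃ S : Finset V, i < s → S ⊆ L i ∧ S.card = e + 1 := by
    intro i
    by_cases hi : i < s
    · obtain ⟨S, a, b⟩ := exists_subset_card_eq (s := L i) (n := e + 1)
        (by rw [(hL i hi).1.2]; omega)
      exact ⟨S, fun _ => ⟨a, b⟩⟩
    · exact ⟨∅, fun h => absurd h hi⟩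
  choose S hS using hS
  have hx : ∀ i, ∃ x : V, i < s → x ∈ S i := by
    intro i
    by_cases hi : i < s
    · obtain ⟨x, hx⟩ := card_pos.1 (show 0 < (S i).card by rw [(hS i hi).2]; omega)
      exact ⟨x, fun _ => hx⟩
    · obtain ⟨x, _⟩ := card_pos.1 (show 0 < K.card by rw [hK.2]; omega)
      exact ⟨x, fun h => absurd h hi⟩
  have ins : ∀ x : ℕ → V, (∀ i < s, x i ∈ S i) → ∀ i < s,
      insert (x i) (L i \ S i) ⊆ L i ∧ (insert (x i) (L i \ S i)).card = t := by
    intro x hx i hi
    refine ⟨insert_subset ((hS i hi).1 (hx i hi)) sdiff_subset, ?_⟩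
    rw [card_insert_of_notMem fun h => (mem_sdiff.1 h).2 (hx i hi),
      card_sdiff_of_subset (hS i hi).1, (hL i hi).1.2, (hS i hi).2]
    omega
  choose x hx using hx
  have hlt : s + g < f := by
    by_contra h
    exact use _ ∅ (ins x hx) (by omega) fun h' => absurd h' h
  have cT := card_bi T g t fun i hi => (h1 i hi).1.2.le
  by_cases hc : s + g + 1 < f
  · refine ⟨(K ∪ (range s).biUnion L) ∪ (range g).biUnion T, ∅, ?_, by simp, fun X a _ b => ?_⟩
    · have c1 := card_bi L s (t + e) fun i hi => (hL i hi).1.2.le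
      have c2 := card_union_le (K ∪ (range s).biUnion L) ((range g).biUnion T)
      have c3 := card_union_le K ((range s).biUnion L)
      have c4 := hK.2
      have c5 : (s + g + 2) * t ≤ f * t := Nat.mul_le_mul_right _ hc
      nlinarith
    · have c : X.card < t := by
        by_contra c
        obtain ⟨X', x1, x2⟩ := sub_clique a (not_lt.1 c)
        exact h3 (by omega) X' x2 (b.mono subset_union_left x1) fun i hi =>
          b.mono ((subset_biUnion_of_mem T (mem_range.2 hi)).trans subset_union_right) x1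
      exact ⟨by omega, fun _ => ⟨fun h => by omega, fun h => by omega⟩⟩
  refine ⟨(K ∪ (range s).biUnion fun i => L i \ S i) ∪ (range g).biUnion T, (range s).biUnion S,
    ?_, card_bi S s _ fun i hi => (hS i hi).2.le, fun X a _ b => ?_⟩
  · have c1 := card_bi (fun i => L i \ S i) s (t - 1) fun i hi => by
      rw [card_sdiff_of_subset (hS i hi).1, (hL i hi).1.2, (hS i hi).2]
      omega
    have c2 := card_union_le (K ∪ (range s).biUnion fun i => L i \ S i) ((range g).biUnion T)
    have c3 := card_union_le K ((range s).biUnion fun i => L i \ S i)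
    have c4 := hK.2
    have c5 : f = s + g + 1 := by omega
    obtain ⟨u, rfl⟩ : ∃ u, t = u + 1 := ⟨t - 1, by omega⟩
    rw [Nat.add_sub_cancel] at c1
    rw [c5]
    nlinarith
  have key : ∀ X' ⊆ X, Γ.IsNClique t X' → ∃ i < s, S i ⊆ X' := by
    intro X' x1 x2
    by_contra hn
    push Not at hn
    have hy : ∀ i, ∃ y : V, i < s → y ∈ S i ∧ y ∉ X' := by
      intro i
      by_cases hi : i < s
      · obtain ⟨y, y1, y2⟩ := not_subset.1 (hn i hi)
        exact ⟨y, fun _ => ⟨y1, y2⟩⟩
      · exact ⟨x 0, fun h => absurd h hi⟩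
    choose y hy using hy
    refine use _ X' (ins y fun i hi => (hy i hi).1) (by omega) fun _ => ⟨x2,
      b.mono (subset_union_left.trans subset_union_left) x1, fun i hi => ?_, fun i hi =>
      b.mono ((subset_biUnion_of_mem T (mem_range.2 hi)).trans subset_union_right) x1⟩
    rw [disjoint_insert_left]
    exact ⟨(hy i hi).2, b.mono (((subset_biUnion_of_mem (fun i => L i \ S i)
      (mem_range.2 hi)).trans subset_union_right).trans subset_union_left) x1⟩
  set I := (range s).filter fun i => S i ⊆ X with hI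
  have c1 : X.card < t + I.card := by
    by_contra c
    have c2 := le_card_sdiff (I.image x) X
    have c3 : (I.image x).card ≤ I.card := card_image_le
    obtain ⟨X', x1, x2⟩ := sub_clique (a.subset (coe_subset.2 (sdiff_subset (t := I.image x))))
      (show t ≤ _ by omega)
    obtain ⟨i, hi, h⟩ := key X' (x1.trans sdiff_subset) x2
    exact (mem_sdiff.1 (x1 (h (hx i hi)))).2 (mem_image_of_mem x (mem_filter.2
      ⟨mem_range.2 hi, h.trans (x1.trans sdiff_subset)⟩))
  have c2 : I.card ≤ s := (card_filter_le _ _).trans (card_range s).le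
  have c3 : I.card * (e + 1) ≤ (X ∩ (range s).biUnion S).card := by
    have m : ∀ i ∈ I, i < s := fun i hi => mem_range.1 (mem_filter.1 hi).1
    calc I.card * (e + 1) = ∑ i ∈ I, (S i).card := by
          rw [sum_congr rfl fun i hi => (hS i (m i hi)).2, sum_const, smul_eq_mul]
      _ = (I.biUnion S).card := (card_biUnion fun i hi j hj hne =>
          (hLL i (m i hi) j (m j hj) hne).mono (hS i (m i hi)).1 (hS j (m j hj)).1).symm
      _ ≤ _ := card_le_card (biUnion_subset.2 fun i hi => subset_inter (mem_filter.1 hi).2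
          (subset_biUnion_of_mem S (mem_filter.1 hi).1))
  refine ⟨by omega, fun _ => ⟨fun h => le_trans ?_ c3, fun h => le_trans ?_ c3⟩⟩
  · have : 1 ≤ I.card := by omega
    nlinarith
  · exact Nat.mul_le_mul_right _ (by omega)

theorem dichotomy (Γ : SimpleGraph V) (s t e f β : ℕ)
    (he : s = 2 ∧ e = 1 ∧ β = f ∨ 3 ≤ s ∧ e + 2 = s) (hst : s * (e + 1) ≤ t)
    (hΓ : ¬ (cliquePlus (s + t) f t).IsContained Γ) :
    (∃ A Z : Finset V, A.card ≤ f * t ∧ Z.card ≤ s * (e + 1) ∧ PS Γ s t (2 * (e + 1)) ∅ A Z) ∨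
      ∃ Y U : Finset V, Y.card ≤ s * (s + t) ∧ PL Γ (s + t) β Y U := by
  by_cases h0 : Γ.CliqueFree (s + t)
  · refine Or.inl ⟨∅, ∅, by simp, by simp, fun X a _ _ => ⟨?_, fun h => absurd h (by simp)⟩⟩
    exact card_lt_of_clique (h0.cliqueFreeOn (s := Set.univ)) (Set.subset_univ _) a
  obtain ⟨K, hK⟩ : ∃ K, Γ.IsNClique (s + t) K := by
    by_contra h
    exact h0 fun K hK => h ⟨K, hK⟩
  obtain ⟨g, hg, L, h1, h2, h3⟩ := greedy Γ (t + e) K s
  rcases hg.eq_or_lt with rfl | hg
  · exact Or.inl (structured Γ g t e f (by omega) (by omega) hst hΓ K hK L h1 h2)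
  right
  have hY : (K ∪ (range g).biUnion L).card ≤ s * (s + t) := by
    have c1 := card_bi L g (s + t) fun i hi => by rw [(h1 i hi).1.2]; omega
    have c2 := card_union_le K ((range g).biUnion L)
    have c3 := hK.2
    have c4 : (g + 1) * (s + t) ≤ s * (s + t) := Nat.mul_le_mul_right _ hg
    nlinarith
  have hX : ∀ X : Finset V, Γ.IsClique X → Disjoint (K ∪ (range g).biUnion L) X →
      X.card < t + e := by
    intro X a b
    by_contra c
    obtain ⟨X', x1, x2⟩ := sub_clique a (not_lt.1 c)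
    exact h3 hg X' x2 (b.mono subset_union_left x1) fun i hi =>
      b.mono ((subset_biUnion_of_mem L (mem_range.2 hi)).trans subset_union_right) x1
  rcases he with ⟨rfl, rfl, rfl⟩ | he
  · obtain ⟨g', hg', T, t1, t2, t3⟩ := greedy Γ t K β
    have hlt : g' < β := by
      by_contra h
      exact hΓ (contained_of_family Γ _ β t K T hK (fun i hi => t1 i (by omega))
        fun i hi j hj => t2 i (by omega) j (by omega))
    refine ⟨_, (range g').biUnion T, hY, fun X a b => ⟨?_, fun c => ?_⟩, fun X a b => ?_⟩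
    · have := hX X a b
      omega
    · by_contra d
      obtain ⟨X', x1, x2⟩ := sub_clique a (show t ≤ X.card by omega)
      exact t3 hlt X' x2 (b.mono subset_union_left x1) fun i hi =>
        c.mono (subset_biUnion_of_mem T (mem_range.2 hi)) x1
    · have c1 := card_bi (fun i => X ∩ T i) g' 1 fun i hi => card_le_one.2 fun x hx y hy => by
        by_contra hne
        exact b x (mem_inter.1 hx).1 y (mem_inter.1 hy).1
          ((t1 i hi).1.1 (mem_inter.1 hx).2 (mem_inter.1 hy).2 hne)
      have c2 : X ⊆ (range g').biUnion fun i => X ∩ T i := fun x hx => by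
        obtain ⟨i, hi, h⟩ := mem_biUnion.1 (a hx)
        exact mem_biUnion.2 ⟨i, hi, mem_inter.2 ⟨hx, h⟩⟩
      have c3 := card_le_card c2
      omega
  · refine ⟨_, ∅, hY, fun X a b => ?_, fun X a _ => ?_⟩
    · have := hX X a b
      exact ⟨by omega, fun _ => by omega⟩
    · rw [subset_empty.1 a]
      exact Nat.zero_le _

end Pool.Agent.Lib.MP_904cf4_co.EXA
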