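import Pool.Agent.Lib.MP_904cf4_co.Final
import Pool.Agent.Lib.MP_904cf4_co.AntiFlag

/-! The ratio `R(q,l+1)/R(q,l)` for `q` growing with `l`. -/

set_option autoImplicit false

namespace Pool.Agent.Lib.MP_904cf4_co.Unif

open SimpleGraph Filter Topology

lemma drc2 {V : Type} [Fintype V] (G : SimpleGraph V) (a b l d h m m' : ℕ) (ha : 0 < a)
    (hm1 : ramsey a l ≤ m') (hm2 : ramsey b l ≤ m) (h1 : G.CliqueFree (a + b))
    (h2 : Gᶜ.CliqueFree l) (hd : ∀ v, d ≤ (G.neighborSet v).ncard) :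
    Fintype.card V * d ^ h ≤ Fintype.card V ^ a * m ^ h + m' * Fintype.card V ^ h := by
  classical
  let N : Finset V → Finset V := fun S => Finset.univ.filter (fun w => ∀ v ∈ S, G.Adj v w)
  let U : (Fin h → V) → Finset V := fun T => Finset.univ.filter (fun v => ∀ i, G.Adj v (T i))
  let Bad : Finset (Finset V) := (Finset.univ.powersetCard a).filter (fun S => (N S).card < m)
  let F : (Fin h → V) → Finset (Finset V) := fun T => Bad.filter (fun S => S ⊆ U T)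
  have cnt : ∀ S : Finset V, (Finset.univ.filter (fun T : Fin h → V => S ⊆ U T)).card =
      (N S).card ^ h := by
    intro S
    rw [← Fintype.card_piFinset_const]
    congr 1
    ext T
    simp only [U, N, Finset.mem_filter, Finset.mem_univ, true_and, Fintype.mem_piFinset,
      Finset.subset_iff]
    exact ⟨fun H i v hv => H hv i, fun H v hv i => H i v hv⟩
  have s1 : Fintype.card V * d ^ h ≤ ∑ T, (U T).card := by
    have : ∑ T, (U T).card = ∑ v, (N {v}).card ^ h := by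
      simp only [← cnt, Finset.card_filter]
      rw [Finset.sum_comm]
      refine Finset.sum_congr rfl (fun T _ => ?_)
      simp only [Finset.singleton_subset_iff]
      rw [← Finset.card_filter]
      congr 1
      ext v
      simp
    rw [this, ← Finset.card_univ, ← smul_eq_mul, ← Finset.sum_const]
    refine Finset.sum_le_sum (fun v _ => Nat.pow_le_pow_left ((hd v).trans (le_of_eq ?_)) _)
    rw [← Set.ncard_coe_finset]
    congr 1
    ext w
    simp [N]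
  have s2 : ∑ T, (F T).card ≤ Fintype.card V ^ a * m ^ h := by
    have : ∑ T, (F T).card = ∑ S ∈ Bad, (N S).card ^ h := by
      simp only [F, ← cnt, Finset.card_filter]
      rw [Finset.sum_comm]
    rw [this]
    calc ∑ S ∈ Bad, (N S).card ^ h ≤ ∑ _S ∈ Bad, m ^ h := Finset.sum_le_sum (fun S hS =>
          Nat.pow_le_pow_left (Finset.mem_filter.1 hS).2.le _)
      _ = Bad.card * m ^ h := by simp
      _ ≤ _ := by
        refine Nat.mul_le_mul_right _ ((Finset.card_filter_le _ _).trans ?_)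
        rw [Finset.card_powersetCard, Finset.card_univ]
        exact Nat.choose_le_pow _ _
  have s3 : ∀ T, (U T).card ≤ (F T).card + m' := by
    intro T
    obtain ⟨U', hU1, hU2, hU3⟩ := deletion (U T) (F T) (fun S hS => by
      rw [← Finset.card_pos, (Finset.mem_powersetCard.1
        (Finset.mem_filter.1 (Finset.mem_filter.1 hS).1).1).2]
      exact ha)
    have : U'.card < ramsey a l := by
      refine ramsey_set G a l U' (fun S hS hc => ?_) h2.cliqueFreeOn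
      refine hU3 S (Finset.mem_filter.2 ⟨Finset.mem_filter.2 ⟨Finset.mem_powersetCard.2
        ⟨Finset.subset_univ _, hc.2⟩, lt_of_lt_of_le ?_ hm2⟩, fun v hv => hU1 (hS hv)⟩) hS
      refine ramsey_set G b l (N S) (fun K hK hK' => ?_) h2.cliqueFreeOn
      have hadj : ∀ v ∈ S, ∀ w ∈ K, G.Adj v w := fun v hv w hw =>
        (Finset.mem_filter.1 (Finset.mem_coe.1 (hK hw))).2 v hv
      have hdis : Disjoint S K := Finset.disjoint_left.2 (fun v hv hw => (hadj v hv v hw).ne rfl)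
      refine h1 (S ∪ K) ⟨?_, by rw [Finset.card_union_of_disjoint hdis, hc.2, hK'.2]⟩
      intro x hx y hy hxy
      rcases Finset.mem_union.1 (Finset.mem_coe.1 hx) with hx | hx <;>
        rcases Finset.mem_union.1 (Finset.mem_coe.1 hy) with hy | hy
      · exact hc.1 hx hy hxy
      · exact hadj x hx y hy
      · exact (hadj y hy x hx).symm
      · exact hK'.1 hx hy hxy
    omega
  have s4 : ∑ T, (U T).card ≤ ∑ T, ((F T).card + m') := Finset.sum_le_sum (fun T _ => s3 T)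
  rw [Finset.sum_add_distrib, Finset.sum_const, Finset.card_univ, Fintype.card_fun,
    Fintype.card_fin, smul_eq_mul, mul_comm _ m'] at s4
  omega

lemma drc2_ramsey (a b l h n : ℕ) (ha : 0 < a) (hn : n + 1 = ramsey (a + b) (l + 1)) :
    n * (n - ramsey (a + b) l) ^ h ≤
      n ^ a * ramsey b (l + 1) ^ h + ramsey a (l + 1) * n ^ h := by
  classical
  obtain ⟨G, hG1, hG2⟩ := exists_good_on (a + b) (l + 1) (Finset.univ : Finset (Fin n))
    (by rw [Finset.card_univ, Fintype.card_fin]; omega)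
  rw [Finset.coe_univ, cliqueFreeOn_univ] at hG1 hG2
  have := drc2 G a b (l + 1) (n - ramsey (a + b) l) h _ _ ha le_rfl le_rfl hG1 hG2 (fun v => ?_)
  · rwa [Fintype.card_fin] at this
  · have h1 : (Gᶜ.neighborFinset v).card < ramsey (a + b) l := by
      refine ramsey_set G (a + b) l _ hG1.cliqueFreeOn (fun K hK hc => ?_)
      refine hG2 (insert v K) (hc.insert (fun w hw => ?_))
      simpa using hK hw
    have h2 := G.degree_compl v
    rw [card_neighborFinset_eq_degree] at h1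
    rw [Fintype.card_fin] at h2
    have h3 : (G.neighborSet v).ncard = G.degree v := by
      rw [← card_neighborFinset_eq_degree, ← Set.ncard_coe_finset, coe_neighborFinset]
    omega

lemma ub (c l : ℕ) (hc : 1 ≤ c) (hcl : c ≤ l) (w : ℝ) (h : 6 * (l : ℝ) ≤ c * w) :
    (ramsey c (l + 1) : ℝ) ≤ w ^ c := by
  have h1 : (ramsey c (l + 1) : ℝ) ≤ (c + l).choose c := by
    exact_mod_cast (ramsey_mono (Nat.le_succ c) le_rfl).trans (ramsey_le_choose c l)
  have h2 : ((c + l).choose c : ℝ) ≤ ((c + l : ℕ) : ℝ) ^ c / c.factorial :=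
    Nat.choose_le_pow_div c (c + l)
  have hc' : (0 : ℝ) < c := by exact_mod_cast hc
  have hf : (0 : ℝ) < c.factorial := by exact_mod_cast c.factorial_pos
  have h3 : (c : ℝ) ^ c / c.factorial ≤ 3 ^ c := by
    refine (Real.pow_div_factorial_le_exp _ hc'.le c).trans ?_
    rw [← Real.exp_one_pow]
    exact pow_le_pow_left₀ (Real.exp_pos 1).le Real.exp_one_lt_three.le c
  have hcl' : (c : ℝ) ≤ l := by exact_mod_cast hcl
  have h4 : ((c + l : ℕ) : ℝ) ≤ w / 3 * c := by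
    push_cast
    linarith
  have hw : 0 ≤ w / 3 := by
    by_contra h0
    have := mul_neg_of_neg_of_pos (not_le.1 h0) hc'
    have h5 : (0 : ℝ) ≤ ((c + l : ℕ) : ℝ) := Nat.cast_nonneg _
    linarith
  refine h1.trans (h2.trans ?_)
  calc ((c + l : ℕ) : ℝ) ^ c / c.factorial ≤ (w / 3 * c) ^ c / c.factorial := by gcongr
    _ = (w / 3) ^ c * ((c : ℝ) ^ c / c.factorial) := by rw [mul_pow, mul_div_assoc]
    _ ≤ (w / 3) ^ c * 3 ^ c := by gcongr
    _ = w ^ c := by rw [← mul_pow, div_mul_cancel₀ _ three_ne_zero]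

lemma lb (r l j : ℕ) (x y : ℝ) (hr : 5 ≤ r) (hl : (l : ℝ) = (r + 3) * y) (hx : 8 ≤ x)
    (hy : x ^ 2 ≤ y) (hj : l ≤ 2 ^ j) (h8 : 8 * (j : ℝ) ^ 2 ≤ x) :
    ∃ n : ℕ, n < ramsey (r + 3) l ∧ (y / x ^ 2) ^ r ≤ n := by
  have hx0 : 0 < x := by linarith
  have hr0 : (0 : ℝ) ≤ r := Nat.cast_nonneg r
  have h1 : 1 ≤ y / x ^ 2 := (one_le_div (by positivity)).2 hy
  have h2 : 1 ≤ y / x := (one_le_div hx0).2 (by nlinarith)
  have hy0 : 0 < y := by nlinarith
  obtain ⟨p, hp, hp1, hp2⟩ := Nat.exists_prime_lt_and_le_two_mul ⌈y / x⌉₊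
    (Nat.ceil_pos.2 (by linarith)).ne'
  have := Fact.mk hp
  have hp3 : y / x ≤ p := (Nat.le_ceil _).trans (by exact_mod_cast hp1.le)
  have hp4 : (p : ℝ) ≤ 4 * (y / x) := by
    have h3 : (p : ℝ) ≤ 2 * ⌈y / x⌉₊ := by exact_mod_cast hp2
    have h4 := Nat.ceil_lt_add_one (show 0 ≤ y / x by linarith)
    linarith
  have hp0 : (0 : ℝ) < p := by linarith
  have hp5 : (p : ℝ) * x ≤ 4 * y := by
    rw [← le_div_iff₀ hx0, mul_div_assoc]
    exact hp4
  have hpj : (p : ℝ) ≤ 2 ^ j := by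
    have h3 : (l : ℝ) ≤ 2 ^ j := by exact_mod_cast hj
    nlinarith
  refine ⟨⌈(y / x ^ 2) ^ r⌉₊, AF.lower (F := ZMod p) (τ := r + 2) (by omega)
    (2 * p * (j * (r + 2))) _ l ?_ ?_, Nat.le_ceil _⟩
  · rw [ZMod.card]
    have h3 : (1 - 1 / (2 * (p : ℝ))) ^ (2 * p) ≤ 1 / 2 := by
      have h4 := Real.one_sub_div_pow_le_exp_neg (n := 2 * p) (t := 1)
        (by exact_mod_cast (by have := hp.pos; omega : 1 ≤ 2 * p))
      push_cast at h4
      exact h4.trans Real.exp_neg_one_lt_half.le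
    have h4 : 0 ≤ (1 - 1 / (2 * (p : ℝ))) ^ (2 * p) := by
      rw [pow_mul]
      positivity
    rw [pow_mul]
    calc ((1 - 1 / (2 * (p : ℝ))) ^ (2 * p)) ^ (j * (r + 2)) * (p : ℝ) ^ (r + 2)
        ≤ (1 / 2) ^ (j * (r + 2)) * (2 ^ j) ^ (r + 2) := by gcongr
      _ = 1 := by rw [← pow_mul, ← mul_pow, one_div_mul_cancel two_ne_zero, one_pow]
  · rw [ZMod.card]
    set n := ⌈(y / x ^ 2) ^ r⌉₊
    have h3 : (n : ℝ) ≤ 2 * (p / x) ^ r := by
      have h4 := Nat.ceil_lt_add_one (show 0 ≤ (y / x ^ 2) ^ r by positivity)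
      have h5 : 1 ≤ (y / x ^ 2) ^ r := one_le_pow₀ h1
      have h6 : (y / x ^ 2) ^ r ≤ (p / x) ^ r := by
        refine pow_le_pow_left₀ (by linarith) ?_ r
        rw [sq, ← div_div]
        gcongr
      linarith
    have h4 : (n.choose l : ℝ) ≤ (2 * (p / x) ^ r) ^ l := by
      refine le_trans ?_ (pow_le_pow_left₀ (Nat.cast_nonneg n) h3 l)
      exact_mod_cast Nat.choose_le_pow n l
    have h5 : j * (r + 2) * (2 * p * (j * (r + 2))) ≤ (r + 3) * l := by
      have h6 : (p : ℝ) * (8 * (j : ℝ) ^ 2) ≤ 4 * y :=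
        (mul_le_mul_of_nonneg_left h8 hp0.le).trans hp5
      have h7 : ((r : ℝ) + 2) ^ 2 * (p * (8 * (j : ℝ) ^ 2)) ≤ (r + 3) ^ 2 * (4 * y) := by
        gcongr
        norm_num
      have h9 : (j : ℝ) * (r + 2) * (2 * p * (j * (r + 2))) ≤ (r + 3) * l := by
        rw [hl]
        linarith
      exact_mod_cast h9
    have h6 : ((p : ℝ) ^ (r + 2)) ^ (2 * p * (j * (r + 2))) ≤ (2 ^ (r + 3)) ^ l := by
      calc ((p : ℝ) ^ (r + 2)) ^ (2 * p * (j * (r + 2)))
          ≤ ((2 ^ j) ^ (r + 2)) ^ (2 * p * (j * (r + 2))) := by gcongr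
        _ ≤ _ := by
          rw [← pow_mul, ← pow_mul, ← pow_mul, ← mul_assoc]
          exact pow_le_pow_right₀ one_le_two h5
    have h7 : 2 * (p / x) ^ r * (20 * (p : ℝ) ^ 2 / (p : ℝ) ^ (r + 2)) * 2 ^ (r + 3) < 1 := by
      have e : 2 * (p / x) ^ r * (20 * (p : ℝ) ^ 2 / (p : ℝ) ^ (r + 2)) * 2 ^ (r + 3) =
          320 * 2 ^ r / x ^ r := by
        rw [div_pow]
        field_simp
        ring
      rw [e, div_lt_one (by positivity)]
      have h9 : (4 : ℝ) ^ 5 ≤ 4 ^ r := pow_le_pow_right₀ (by norm_num) hr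
      calc (320 : ℝ) * 2 ^ r < 4 ^ r * 2 ^ r := by
            gcongr
            linarith
        _ = 8 ^ r := by rw [← mul_pow]; norm_num
        _ ≤ x ^ r := by gcongr
    have hl0 : l ≠ 0 := by
      rintro rfl
      have : (0 : ℝ) < (r + 3) * y := by positivity
      rw [← hl, Nat.cast_zero] at this
      exact lt_irrefl _ this
    refine lt_of_le_of_lt ?_ (pow_lt_one₀ (by positivity) h7 hl0)
    rw [mul_pow _ _ l, mul_pow _ _ l]
    gcongr

lemma key (x y : ℝ) (hx : 2 < x) (G e u r : ℕ) (hy : x ^ G ≤ y) (h : e + 1 ≤ G * r) :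
    2 * (y ^ u * x ^ e) < y ^ (u + r) := by
  have hx0 : 0 < x := by linarith
  have hy0 : 0 < y := lt_of_lt_of_le (by positivity) hy
  calc 2 * (y ^ u * x ^ e) < x * (y ^ u * x ^ e) := by gcongr
    _ = y ^ u * x ^ (e + 1) := by ring
    _ ≤ y ^ u * (x ^ G) ^ r := by
      rw [← pow_mul]
      gcongr
      linarith
    _ ≤ y ^ u * y ^ r := by gcongr
    _ = _ := (pow_add _ _ _).symm

lemma num1 (M a u : ℕ) (hM : 2 ≤ M) (ha : 20 * M ≤ a) (h : 2 * M * a ≤ a + u + 3) :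
    a + 54 * M ^ 2 * (a + u + 3 + a) + 2 * (a + u) + 1 ≤ (54 * M ^ 2 + 108 * M) * u := by
  have h1 : 3 * M * a ≤ 2 * u + 6 := by nlinarith
  have h2 : 12 ≤ a := by omega
  have h3 : 106 * M * (3 * M * a) ≤ 106 * M * (2 * u + 6) := Nat.mul_le_mul_left _ h1
  have h4 : M ^ 2 * 12 ≤ M ^ 2 * a := Nat.mul_le_mul_left _ h2
  have h5 : 4 * a ≤ M ^ 2 * a := Nat.mul_le_mul_right _ (by nlinarith)
  have h6 : u ≤ M * u := Nat.le_mul_of_pos_left _ (by omega)
  have h7 : M ≤ M ^ 2 := by nlinarith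
  nlinarith

lemma num2 (M a q b r v : ℕ) (hM : 2 ≤ M) (ha : 20 * M ≤ a) (h : q ≤ 3 * M * a) (hb : a + b = q)
    (hr : r + 3 = q) (hv : v + 2 * q + 3 = a ^ 2) :
    b * (q + a) + 54 * M ^ 2 * (q + a) + 2 * (r * (q + 1)) + 1 ≤ (54 * M ^ 2 + 108 * M) * v := by
  have h1 : b * (q + a) ≤ q ^ 2 := by subst hb; nlinarith
  have h2 : r * (q + 1) + 1 ≤ q ^ 2 := by subst hr; nlinarith
  have h3 : q ^ 2 ≤ (3 * M * a) ^ 2 := Nat.pow_le_pow_left h 2
  have h4 : 20 * M * a ≤ a * a := Nat.mul_le_mul_right _ ha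
  have h5 : 2 * a ≤ M * a := Nat.mul_le_mul_right _ hM
  have h6 : a ^ 2 + 2 * (q + a) ≤ 2 * v := by nlinarith
  have h7 := Nat.mul_le_mul_left (27 * M ^ 2) h6
  nlinarith [Nat.zero_le (M * v)]

lemma core (M q l j : ℕ) (x : ℝ) (hM : 2 ≤ M) (hq : 40 * M ^ 2 ≤ q)
    (hql : q * x ^ (54 * M ^ 2 + 108 * M) ≤ l) (hj : l ≤ 2 ^ j) (h8 : 8 * (j : ℝ) ^ 2 ≤ x)
    (hx : 18 * (M : ℝ) ≤ x) :
    (ramsey q (l + 1) : ℝ) - 1 - ramsey q l ≤ ((ramsey q (l + 1) : ℝ) - 1) / x ^ (54 * M ^ 2) := by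
  have hM' : (2 : ℝ) ≤ M := by exact_mod_cast hM
  have hx0 : 0 < x := by linarith
  have hq1 : 160 ≤ q := by nlinarith
  have hq0 : (0 : ℝ) < q := by exact_mod_cast (by omega : 0 < q)
  set y : ℝ := l / q with hyd
  have hy : x ^ (54 * M ^ 2 + 108 * M) ≤ y := by rw [hyd, le_div_iff₀ hq0, mul_comm]; exact hql
  have hl : (l : ℝ) = q * y := by rw [hyd, mul_div_cancel₀ _ hq0.ne']
  have hy2 : x ^ 2 ≤ y := (pow_le_pow_right₀ (by linarith) (by nlinarith)).trans hy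
  have hy1 : 1 ≤ y := by nlinarith
  have hlq : q ≤ l := by
    have : (q : ℝ) ≤ l := by rw [hl]; nlinarith
    exact_mod_cast this
  obtain ⟨a, ha1, ha2⟩ : ∃ a, 2 * M * a ≤ q ∧ q < 2 * M * (a + 1) :=
    ⟨q / (2 * M), Nat.mul_div_le _ _, Nat.lt_mul_div_succ _ (by omega)⟩
  have ha3 : 20 * M ≤ a := by
    by_contra h
    have : 2 * M * (a + 1) ≤ 2 * M * (20 * M) := Nat.mul_le_mul_left _ (by omega)
    nlinarith
  have ha4 : q ≤ 3 * M * a := by nlinarith
  have ha5 : 4 * a ≤ q := by nlinarith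
  obtain ⟨u, hu⟩ : ∃ u, q = a + u + 3 := ⟨q - a - 3, by omega⟩
  obtain ⟨v, hv⟩ : ∃ v, v + 2 * q + 3 = a ^ 2 := ⟨a ^ 2 - (2 * q + 3), by
    have : 2 * q + 3 ≤ a ^ 2 := by nlinarith
    omega⟩
  have U : ∀ c, a ≤ c → c ≤ q → (ramsey c (l + 1) : ℝ) ≤ (y * x) ^ c := by
    intro c h1 h2
    refine ub c l (by omega) (by omega) _ ?_
    have h3 : (q : ℝ) ≤ 3 * M * c := by
      exact_mod_cast ha4.trans (Nat.mul_le_mul_left _ h1)
    have h4 : (0 : ℝ) ≤ c := Nat.cast_nonneg c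
    have h5 : 18 * (M : ℝ) * c ≤ x * c := by gcongr
    rw [hl]
    nlinarith
  obtain ⟨n0, hn0, L⟩ := lb (a + u) l j x y (by omega) (by rw [hl, hu]; push_cast; ring)
    (by linarith) hy2 hj h8
  rw [← hu] at hn0
  have hmono : ramsey q l ≤ ramsey q (l + 1) := ramsey_mono le_rfl (by omega)
  obtain ⟨n, hn⟩ : ∃ n, n + 1 = ramsey q (l + 1) := ⟨ramsey q (l + 1) - 1, by omega⟩
  replace L : (y / x ^ 2) ^ (a + u) ≤ n := L.trans (by exact_mod_cast (by omega : n0 ≤ n))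
  have hn' : (0 : ℝ) < n := lt_of_lt_of_le (by positivity) L
  have hb : a + (u + 3) = q := by omega
  have main := drc2_ramsey a (u + 3) l (q + a) n (by omega) (by rw [hb]; exact hn)
  rw [hb] at main
  rw [← hn]
  push_cast
  rw [add_sub_cancel_right]
  by_contra hcon
  push Not at hcon
  set N := 54 * M ^ 2
  have hd : n / x ^ N ≤ ((n - ramsey q l : ℕ) : ℝ) := by
    have h1 : (0 : ℝ) < n / x ^ N := by positivity
    have : (ramsey q l : ℝ) ≤ n := by linarith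
    rw [Nat.cast_sub (by exact_mod_cast this)]
    linarith
  have main' : (n : ℝ) * ((n - ramsey q l : ℕ) : ℝ) ^ (q + a) ≤
      n ^ a * (ramsey (u + 3) (l + 1) : ℝ) ^ (q + a) + ramsey a (l + 1) * n ^ (q + a) := by
    exact_mod_cast main
  have U1 := U a le_rfl (by omega)
  have U2 := U (u + 3) (by omega) (by omega)
  have f : (n : ℝ) * (n / x ^ N) ^ (q + a) ≤
      n ^ a * ((y * x) ^ (u + 3)) ^ (q + a) + (y * x) ^ a * n ^ (q + a) := by
    refine le_trans (by gcongr) (main'.trans ?_)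
    gcongr
  have k1 := key x y (by linarith) _ _ a u hy (num1 M a u hM ha3 (hu ▸ ha1))
  have k2 := key x y (by linarith) _ _ ((u + 3) * (q + a)) v hy
    (num2 M a q (u + 3) (a + u) v hM ha3 ha4 hb hu.symm hv)
  rw [← hu] at k1
  rw [show (u + 3) * (q + a) + v = (a + u) * (q + 1) by nlinarith] at k2
  have g1 : 2 * ((y * x) ^ a * (x ^ N) ^ (q + a)) < n := by
    refine lt_of_lt_of_le ?_ L
    rw [div_pow, lt_div_iff₀ (by positivity)]
    refine lt_of_eq_of_lt ?_ k1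
    rw [mul_pow, ← pow_mul, ← pow_mul, pow_add, pow_add]
    ring
  have g2 : 2 * (((y * x) ^ (u + 3)) ^ (q + a) * (x ^ N) ^ (q + a)) < (n : ℝ) ^ (q + 1) := by
    refine lt_of_lt_of_le ?_ (pow_le_pow_left₀ (by positivity) L (q + 1))
    rw [← pow_mul (y / x ^ 2), div_pow, lt_div_iff₀ (by positivity)]
    refine lt_of_eq_of_lt ?_ k2
    rw [← pow_mul (y * x), mul_pow, ← pow_mul, ← pow_mul, pow_add x, pow_add x]
    ring
  rw [div_pow, ← mul_div_assoc, div_le_iff₀ (by positivity)] at f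
  have g3 := mul_lt_mul_of_pos_right g1 (pow_pos hn' (q + a))
  have g4 := mul_lt_mul_of_pos_left g2 (pow_pos hn' a)
  rw [show (n : ℝ) ^ a * n ^ (q + 1) = n * n ^ (q + a) by ring] at g4
  linarith

lemma step_unif (M : ℕ) (hM : 2 ≤ M) : ∃ L : ℕ, ∀ l q : ℕ, L ≤ l → 40 * M ^ 2 ≤ q →
    q ^ (2 * M) * l ^ 2 ≤ l ^ M → ∀ w : ℝ, 0 < w → w ^ 2 ≤ l →
      (ramsey q (l + 1) : ℝ) ≤ ramsey q l + (1 + ramsey q (l + 1) / w) := by
  have h0 : 108 * M ^ 2 ≠ 0 := by positivity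
  obtain ⟨J, hJ⟩ := eventually_atTop.1 ((tendsto_order.1 (tendsto_pow_const_div_const_pow_of_one_lt
    (2 * (108 * M ^ 2)) (one_lt_two (α := ℝ)))).2 (1 / (2 * 8 ^ (108 * M ^ 2))) (by positivity))
  refine ⟨2 ^ (J + 3 * M), fun l q hl hq hql w hw hwl => ?_⟩
  have hl0 : l ≠ 0 := by
    have : 0 < 2 ^ (J + 3 * M) := by positivity
    omega
  have hj : J + 3 * M ≤ Nat.log 2 l := Nat.le_log_of_pow_le one_lt_two hl
  have h1 : (2 : ℝ) ^ Nat.log 2 l ≤ l := by exact_mod_cast Nat.pow_log_le_self 2 hl0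
  have h2 := (Nat.lt_pow_succ_log_self one_lt_two l).le
  set j := Nat.log 2 l
  have hl' : (0 : ℝ) < l := by exact_mod_cast Nat.pos_of_ne_zero hl0
  set x : ℝ := (l : ℝ) ^ (((108 * M ^ 2 : ℕ) : ℝ)⁻¹)
  have hx0 : 0 < x := Real.rpow_pos_of_pos hl' _
  have hx : x ^ (108 * M ^ 2) = l := Real.rpow_inv_natCast_pow hl'.le h0
  have h8 : 8 * ((j + 1 : ℕ) : ℝ) ^ 2 ≤ x := by
    refine le_of_pow_le_pow_left₀ h0 hx0.le ?_
    have h3 := hJ (j + 1) (by omega)
    rw [div_lt_div_iff₀ (by positivity) (by positivity), pow_succ (2 : ℝ) j] at h3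
    rw [hx, mul_pow, ← pow_mul]
    linarith
  have hM' : 3 * (M : ℝ) ≤ ((j + 1 : ℕ) : ℝ) := by exact_mod_cast (by omega : 3 * M ≤ j + 1)
  have hM2 : (2 : ℝ) ≤ M := by exact_mod_cast hM
  have h3 := core M q l (j + 1) x hM hq (by
    refine le_of_pow_le_pow_left₀ (by omega : 2 * M ≠ 0) hl'.le ?_
    have h4 : (q : ℝ) ^ (2 * M) * (l : ℝ) ^ 2 ≤ (l : ℝ) ^ M := by exact_mod_cast hql
    rw [mul_pow, ← pow_mul, show (54 * M ^ 2 + 108 * M) * (2 * M) = 108 * M ^ 2 * (2 + M) by ring,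
      pow_mul x, hx, pow_add, ← mul_assoc, two_mul M, pow_add (l : ℝ) M M, ← two_mul M]
    gcongr) h2 h8 (by nlinarith)
  have h4 : w ≤ x ^ (54 * M ^ 2) := by
    refine le_of_pow_le_pow_left₀ two_ne_zero (by positivity) ?_
    rwa [← pow_mul, show 54 * M ^ 2 * 2 = 108 * M ^ 2 by ring, hx]
  have h5 : ((ramsey q (l + 1) : ℝ) - 1) / x ^ (54 * M ^ 2) ≤ ramsey q (l + 1) / w := by
    gcongr
    linarith
  linarith

lemma tele (R : ℕ → ℝ) (c : ℝ) (t s : ℕ) (h : ∀ l, t ≤ l → l < t + s → R (l + 1) ≤ R l + c) :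
    R (t + s) ≤ R t + s * c := by
  induction s with
  | zero => simp
  | succ s ih =>
    have h1 := ih fun l h1 h2 => h l h1 (by omega)
    have h2 := h (t + s) (by omega) (by omega)
    rw [← add_assoc]
    push_cast
    linarith

theorem unif (m : ℕ) (ε : ℝ) (hε : 0 < ε) : ∃ T : ℕ, ∀ s t : ℕ, 2 * T ≤ s + t → 2 ≤ s →
    s ^ (2 * (m + 4)) ≤ (s + t) ^ m →
      |(fkt (s + t) t : ℝ) * t / ramsey (s + t) (s + 1) - 1| ≤ ε := by
  obtain ⟨L, hL⟩ := step_unif (m + 4) (by omega)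
  obtain ⟨T1, hT1⟩ := eventually_atTop.1 ((Filter.eventually_all_finset
    (Finset.Ico 2 (40 * (m + 4) ^ 2))).2 fun s hs =>
      (fkt_tendsto s (Finset.mem_Ico.1 hs).1).eventually (Metric.closedBall_mem_nhds 1 hε))
  obtain ⟨T2, hT2⟩ := eventually_atTop.1
    ((tendsto_order.1 (ramsey_superlinear 3 le_rfl)).2 (ε / 3) (by positivity))
  obtain ⟨T3, hT3⟩ := exists_nat_ge (2 ^ m / ε ^ (2 * (m + 4)))
  obtain ⟨T4, hT4⟩ : ∃ T4, 8 ^ (m + 4) ≤ T4 := ⟨_, le_rfl⟩
  refine ⟨L + T1 + T2 + T3 + T4 + 3, fun s t hT hs h => ?_⟩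
  have h1 : s ^ 2 ≤ s + t := by
    refine (Nat.pow_le_pow_iff_left (by omega : m + 4 ≠ 0)).1 ?_
    rw [← pow_mul]
    exact h.trans (Nat.pow_le_pow_right (by omega) (by omega))
  have h2 : s ≤ t := by nlinarith
  by_cases hq : s < 40 * (m + 4) ^ 2
  · exact hT1 t (by omega) s (Finset.mem_Ico.2 ⟨hs, hq⟩)
  have hs' : (0 : ℝ) < s := by exact_mod_cast (by omega : 0 < s)
  have hp : (0 : ℝ) < ramsey (s + 1) (t + s) := by
    exact_mod_cast ramsey_pos (by omega) (by omega)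
  have h3 := tele (fun l => ramsey (s + 1) l) (1 + ramsey (s + 1) (t + s) / (s / ε)) t s
    fun l h3 h4 => by
      have h5 : s ^ (2 * (m + 4)) ≤ 2 ^ m * l ^ m := by
        rw [← mul_pow]
        exact h.trans (Nat.pow_le_pow_left (by omega) _)
      have h6 : l ≤ l ^ 2 := Nat.le_self_pow two_ne_zero l
      have h7 : l ≤ l ^ 4 := Nat.le_self_pow (by omega) l
      refine (hL l (s + 1) (by omega) (by omega) ?_ (s / ε) (by positivity) ?_).trans ?_
      · calc (s + 1) ^ (2 * (m + 4)) * l ^ 2 ≤ (2 * s) ^ (2 * (m + 4)) * l ^ 2 := by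
              gcongr
              omega
          _ ≤ 4 ^ (m + 4) * (2 ^ (m + 4) * l ^ m) * l ^ 2 := by
              rw [mul_pow, pow_mul 2]
              gcongr
              · norm_num
              · exact h5.trans (Nat.mul_le_mul_right _ (Nat.pow_le_pow_right two_pos (by omega)))
          _ = 8 ^ (m + 4) * (l ^ m * l ^ 2) := by
              rw [show 8 = 4 * 2 by rfl, mul_pow]
              ring
          _ ≤ l ^ 2 * (l ^ m * l ^ 2) := Nat.mul_le_mul_right _ (hT4.trans (by omega))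
          _ = _ := by ring
      · refine le_of_pow_le_pow_left₀ (by omega : m + 4 ≠ 0) (Nat.cast_nonneg l) ?_
        have h8 : (s : ℝ) ^ (2 * (m + 4)) ≤ 2 ^ m * (l : ℝ) ^ m := by exact_mod_cast h5
        have h9 : (T3 : ℝ) ≤ (l : ℝ) ^ 4 := by exact_mod_cast (by omega : T3 ≤ l ^ 4)
        calc ((s / ε) ^ 2) ^ (m + 4) = (s : ℝ) ^ (2 * (m + 4)) / ε ^ (2 * (m + 4)) := by
              rw [← pow_mul, div_pow]
          _ ≤ 2 ^ m * (l : ℝ) ^ m / ε ^ (2 * (m + 4)) := by gcongr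
          _ = (l : ℝ) ^ m * (2 ^ m / ε ^ (2 * (m + 4))) := by ring
          _ ≤ (l : ℝ) ^ m * (l : ℝ) ^ 4 := by
              gcongr
              exact hT3.trans h9
          _ = _ := (pow_add _ _ _).symm
      · gcongr
        exact ramsey_mono le_rfl (by omega)
  have h4 : (s : ℝ) * (1 + ramsey (s + 1) (t + s) / (s / ε)) = s + ε * ramsey (s + 1) (t + s) := by
    field_simp
  have h5 := hT2 (t + s) (by omega)
  have h6 : (ramsey 3 (t + s) : ℝ) ≤ ramsey (s + 1) (t + s) := by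
    exact_mod_cast ramsey_mono (by omega) le_rfl
  have h7 : (0 : ℝ) < ramsey 3 (t + s) := by exact_mod_cast ramsey_pos (by omega) (by omega)
  rw [div_lt_iff₀ h7] at h5
  have h8 : (ramsey (s + t) (s + 1) : ℝ) + ramsey t (s + 1) ≤
      2 * (fkt (s + t) t * t) + 2 * (s + t + 1) := by exact_mod_cast fkt_lower' s t (by omega) hs
  have h9 : (fkt (s + t) t : ℝ) * t ≤ ramsey (s + t) (s + 1) := by
    exact_mod_cast (fkt_upper s t (by omega) hs).le
  rw [ramsey_comm (s + t), show ramsey (s + 1) (s + t) = ramsey (s + 1) (t + s) by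
    rw [add_comm s t]] at h8 h9 ⊢
  rw [ramsey_comm t] at h8
  rw [h4] at h3
  push_cast at h5
  have h10 := mul_le_mul_of_nonneg_left h6 hε.le
  have ht : (0 : ℝ) ≤ t := Nat.cast_nonneg t
  rw [abs_le, le_sub_iff_add_le, le_div_iff₀ hp, sub_le_iff_le_add, div_le_iff₀ hp]
  constructor
  · linarith
  · nlinarith

end Pool.Agent.Lib.MP_904cf4_co.Unif
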