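import Pool.Agent.Lib.MP_904cf4_co.LowerEquiv
import Pool.Agent.Lib.MP_904cf4_co.Partite
import Pool.Agent.Lib.MP_a46e5c_co.Radon

set_option autoImplicit false

namespace Pool.Agent.Lib.MP_904cf4_co

open SimpleGraph

lemma canon_cliques (κ : Type) [Finite κ] [Nonempty κ] (u m : ℕ) (hu : 2 ≤ u) (hm : 2 ≤ m) :
    ∃ (α V : Type) (_ : Finite V) (π : V → α) (R : Bool → V → V → Prop),
      LG (fun σ => if σ then u else m) π R ∧
      ∀ c : V → V → κ, ∃ (x y : κ) (ψ : ℕ → V), ∀ i j, i < j → j < m * u →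
        R (decide (i / u = j / u)) (ψ i) (ψ j) ∧
          c (ψ i) (ψ j) = if i / u = j / u then x else y := by
  classical
  have := Fintype.ofFinite κ
  obtain ⟨N, hN⟩ := Pool.Agent.Lib.MP_a46e5c_co.ramsey ℕ (κ × κ) (m * u)
  obtain ⟨V, hV, π, R, hL, hC⟩ := partite (Fin N) κ (fun σ => if σ then u else m)
    (fun σ => by cases σ <;> simp [hu, hm])
  refine ⟨Fin N, V, hV, π, R, hL, fun c => ?_⟩
  obtain ⟨γ, hγ⟩ := hC c
  obtain ⟨H, hH, hHc, c0, hc0⟩ := hN (fun a b => if h : a < N ∧ b < N then
    (γ ⟨a, h.1⟩ ⟨b, h.2⟩ true, γ ⟨a, h.1⟩ ⟨b, h.2⟩ false) else Classical.arbitrary _)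
    (Finset.range N) (by simp)
  obtain ⟨H', hH', hH'c⟩ := Finset.exists_subset_card_eq hHc
  have hpos : 0 < m * u := Nat.mul_pos (by omega) (by omega)
  have : Nonempty (Fin (m * u)) := ⟨⟨0, hpos⟩⟩
  let e := H'.orderEmbOfFin hH'c
  have he : ∀ i, e i ∈ H := fun i => hH' (H'.orderEmbOfFin_mem hH'c i)
  have heN : ∀ i, e i < N := fun i => Finset.mem_range.1 (hH (he i))
  let emb : Fin (m * u) → Fin N := fun i => ⟨e i, heN i⟩
  have hinj : Function.Injective emb := fun i j h => e.injective (congrArg Fin.val h)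
  let inv : Fin N → Fin (m * u) := Function.invFun emb
  have hinv : ∀ i, inv (emb i) = i := Function.leftInverse_invFun hinj
  obtain ⟨ψ, -, hψ⟩ := hγ (Finset.univ.image emb)
    (fun a b => decide ((inv a).1 / u = (inv b).1 / u)) (by
      refine ⟨fun a b => by simp [eq_comm], fun σ K hK hl => ?_⟩
      cases σ
      · simp only [Bool.false_eq_true, if_false]
        refine (Finset.card_le_card_of_injOn (t := Finset.range m) (fun a => (inv a).1 / u)
          (fun a _ => ?_) (fun a ha b hb hab => ?_)).trans (by simp)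
        · simp only [Finset.coe_range, Set.mem_Iio]
          exact Nat.div_lt_of_lt_mul ((inv a).2.trans_eq (mul_comm _ _))
        · by_contra hne
          have := hl a ha b hb hne
          simp only [decide_eq_false_iff_not] at this
          exact this hab
      · simp only [if_true]
        refine (Finset.card_le_card_of_injOn (t := Finset.range u) (fun a => (inv a).1 % u)
          (fun a _ => ?_) (fun a ha b hb hab => ?_)).trans (by simp)
        · simp only [Finset.coe_range, Set.mem_Iio]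
          exact Nat.mod_lt _ (by omega)
        · by_contra hne
          have h1 := hl a ha b hb hne
          simp only [decide_eq_true_eq] at h1
          obtain ⟨i, -, rfl⟩ := Finset.mem_image.1 (hK ha)
          obtain ⟨j, -, rfl⟩ := Finset.mem_image.1 (hK hb)
          simp only [hinv] at h1 hab
          apply hne
          congr 1
          apply Fin.ext
          rw [← Nat.div_add_mod i.1 u, ← Nat.div_add_mod j.1 u, h1, hab])
  refine ⟨c0.1, c0.2, fun i => if h : i < m * u then ψ (emb ⟨i, h⟩) else ψ (emb ⟨0, hpos⟩),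
    fun i j hij hj => ?_⟩
  have hi : i < m * u := hij.trans hj
  simp only [hi, hj, dif_pos]
  have hne : emb ⟨i, hi⟩ ≠ emb ⟨j, hj⟩ := fun h => by
    have := congrArg Fin.val (hinj h)
    simp only at this
    omega
  obtain ⟨h1, h2⟩ := hψ _ (Finset.mem_image_of_mem _ (Finset.mem_univ ⟨i, hi⟩)) _
    (Finset.mem_image_of_mem _ (Finset.mem_univ ⟨j, hj⟩)) hne
  simp only [hinv] at h1 h2
  refine ⟨h1, ?_⟩
  have h3 := hc0 _ (he ⟨i, hi⟩) _ (he ⟨j, hj⟩) (e.strictMono (show (⟨i, hi⟩ : Fin _) < ⟨j, hj⟩ from hij))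
  simp only [heN, and_self, dif_pos] at h3
  rw [h2, ← h3]
  by_cases hb : i / u = j / u
  · simp only [hb, decide_true, if_true]; rfl
  · simp only [hb, decide_false, if_false]; rfl

/-- the host graph -/
def hostG {V : Type} (h : ℕ) (R : Bool → V → V → Prop) : SimpleGraph (Fin h ⊕ V) :=
  fromRel (fun x y => x.isLeft ∨ ∃ v w σ, x = Sum.inr v ∧ y = Sum.inr w ∧ R σ v w)

/-- the red part of the bad colouring -/
def hostR {V : Type} (h : ℕ) (R : Bool → V → V → Prop) : SimpleGraph (Fin h ⊕ V) :=
  fromRel (fun x y => (x.isLeft ∧ y.isLeft) ∨ ∃ v w, x = Sum.inr v ∧ y = Sum.inr w ∧ R true v w)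

lemma hostR_le {V : Type} (h : ℕ) (R : Bool → V → V → Prop) : hostR h R ≤ hostG h R := by
  intro x y hxy
  simp only [hostR, hostG, fromRel_adj] at hxy ⊢
  refine ⟨hxy.1, ?_⟩
  rcases hxy.2 with (h1 | ⟨v, w, h1, h2, h3⟩) | (h1 | ⟨v, w, h1, h2, h3⟩)
  · exact Or.inl (Or.inl h1.1)
  · exact Or.inl (Or.inr ⟨v, w, true, h1, h2, h3⟩)
  · exact Or.inr (Or.inl h1.1)
  · exact Or.inr (Or.inr ⟨v, w, true, h1, h2, h3⟩)

lemma host_blue {α V : Type} (h u m : ℕ) (π : V → α) (R : Bool → V → V → Prop)
    (hL : LG (fun σ => if σ then u else m) π R) : (hostG h R \ hostR h R).CliqueFree (m + 2) := by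
  classical
  intro K hK
  have h1 : K.toLeft.card ≤ 1 := by
    refine Finset.card_le_one.2 (fun a ha b hb => ?_)
    by_contra hne
    have := hK.1 (Finset.mem_coe.2 (Finset.mem_toLeft.1 ha))
      (Finset.mem_coe.2 (Finset.mem_toLeft.1 hb)) (fun e => hne (Sum.inl_injective e))
    simp [hostR, hne] at this
  have h2 : K.toRight.card ≤ m := by
    refine hL.small false _ (fun a ha b hb hne => ?_)
    have := hK.1 (Finset.mem_coe.2 (Finset.mem_toRight.1 ha))
      (Finset.mem_coe.2 (Finset.mem_toRight.1 hb)) (fun e => hne (Sum.inr_injective e))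
    simp only [hostR, hostG, sdiff_adj, fromRel_adj] at this
    obtain ⟨⟨h3, h4⟩, h5⟩ := this
    have h6 : ¬ R true a b := fun h => h5 ⟨h3, Or.inl (Or.inr ⟨a, b, rfl, rfl, h⟩)⟩
    have h7 : ∃ σ, R σ a b := by
      rcases h4 with (h1 | ⟨v, w, σ, h1, h2, h3⟩) | (h1 | ⟨v, w, σ, h1, h2, h3⟩)
      · simp at h1
      · cases h1; cases h2; exact ⟨σ, h3⟩
      · simp at h1
      · cases h1; cases h2; exact ⟨σ, hL.symm _ _ _ h3⟩
    obtain ⟨σ, h7⟩ := h7
    cases σ
    · exact h7
    · exact absurd h7 h6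
  have h3 := Finset.card_toLeft_add_card_toRight (u := K)
  have h4 := hK.2
  omega

lemma host_red_clique {α V : Type} (h u m : ℕ) (π : V → α) (R : Bool → V → V → Prop)
    (hL : LG (fun σ => if σ then u else m) π R) (K : Finset (Fin h ⊕ V))
    (hK : (hostR h R).IsClique K) (hc : u < K.card) : ∀ x ∈ K, x.isLeft := by
  classical
  intro x hx
  rcases x with a | v
  · rfl
  exfalso
  have h1 : K.toLeft = ∅ := by
    refine Finset.eq_empty_of_forall_notMem (fun a ha => ?_)
    have := hK (Finset.mem_coe.2 (Finset.mem_toLeft.1 ha)) (Finset.mem_coe.2 hx) (by simp)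
    simp [hostR] at this
  have h2 : K.toRight.card ≤ u := by
    refine hL.small true _ (fun a ha b hb hne => ?_)
    have := hK (Finset.mem_coe.2 (Finset.mem_toRight.1 ha))
      (Finset.mem_coe.2 (Finset.mem_toRight.1 hb)) (fun e => hne (Sum.inr_injective e))
    simp only [hostR, fromRel_adj] at this
    rcases this.2 with (h1 | ⟨v, w, h1, h2, h3⟩) | (h1 | ⟨v, w, h1, h2, h3⟩)
    · simp at h1
    · cases h1; cases h2; exact h3
    · simp at h1
    · cases h1; cases h2; exact hL.symm _ _ _ h3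
  have h3 := Finset.card_toLeft_add_card_toRight (u := K)
  rw [h1, Finset.card_empty] at h3
  omega

lemma host_red {α V : Type} (h u m k f : ℕ) (π : V → α) (R : Bool → V → V → Prop)
    (hL : LG (fun σ => if σ then u else m) π R) (hk : u < k)
    (hc : (cliquePlus k f (u + 1)).IsContained (hostR h R)) : k + f * (u + 1) ≤ h := by
  classical
  obtain ⟨φ⟩ := hc
  have hφ : Function.Injective (fun x => φ x) := φ.injective
  have key : ∀ x, (φ x).isLeft := by
    rintro (a | ⟨i, b⟩)
    · refine host_red_clique h u m π R hL (Finset.univ.image (fun a => φ (Sum.inl a))) ?_ ?_ _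
        (Finset.mem_image_of_mem _ (Finset.mem_univ a))
      · intro x hx y hy hxy
        obtain ⟨a, -, rfl⟩ := Finset.mem_image.1 (Finset.mem_coe.1 hx)
        obtain ⟨b, -, rfl⟩ := Finset.mem_image.1 (Finset.mem_coe.1 hy)
        refine φ.toHom.map_rel' ?_
        have : a ≠ b := fun e => hxy (by rw [e])
        simpa [cliquePlus] using this
      · rw [Finset.card_image_of_injective _ (f := fun a => φ (Sum.inl a))
          (fun a b e => Sum.inl_injective (hφ e))]
        simpa using hk
    · refine host_red_clique h u m π R hL (Finset.univ.image (fun b => φ (Sum.inr (i, b)))) ?_ ?_ _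
        (Finset.mem_image_of_mem _ (Finset.mem_univ b))
      · intro x hx y hy hxy
        obtain ⟨a, -, rfl⟩ := Finset.mem_image.1 (Finset.mem_coe.1 hx)
        obtain ⟨b, -, rfl⟩ := Finset.mem_image.1 (Finset.mem_coe.1 hy)
        refine φ.toHom.map_rel' ?_
        have : a ≠ b := fun e => hxy (by rw [e])
        simpa [cliquePlus] using this
      · rw [Finset.card_image_of_injective _ (f := fun b => φ (Sum.inr (i, b)))
          (fun a b e => (Prod.mk.inj (Sum.inr_injective (hφ e))).2)]
        simp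
  have := Fintype.card_le_of_injective (fun x => (φ x).getLeft (key x)) (fun x y e => by
    apply hφ
    show φ x = φ y
    have h1 := Sum.inl_getLeft (φ x) (key x)
    have h2 := Sum.inl_getLeft (φ y) (key y)
    simp only at e
    rw [← h1, ← h2, e])
  simpa using this

lemma host_arrows {V : Type} (s u h : ℕ) (hs : 2 ≤ s) (hu : 2 ≤ u) {α : Type} (π : V → α)
    (R : Bool → V → V → Prop) (hL : LG (fun σ => if σ then u else s + u - 1) π R)
    (hC : ∀ c : V → V → Bool × (Fin h → Bool), ∃ (x y : Bool × (Fin h → Bool)) (ψ : ℕ → V),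
      ∀ i j, i < j → j < (s + u - 1) * u → R (decide (i / u = j / u)) (ψ i) (ψ j) ∧
          c (ψ i) (ψ j) = if i / u = j / u then x else y)
    (hh : ramsey (s + (u + 1)) (s + 1) + (s + u) ≤ h) :
    Arrows (hostG h R) (⊤ : SimpleGraph (Fin (s + (u + 1)))) := by
  classical
  intro Rr hR
  by_contra hcon
  obtain ⟨n1, n2⟩ := not_or.1 hcon
  set G := hostG h R with hG
  let Γ : Bool → SimpleGraph (Fin h ⊕ V) := fun b => if b then Rr else G \ Rr
  let col : Fin h ⊕ V → Fin h ⊕ V → Bool := fun x y => decide (Rr.Adj x y)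
  have hfree : ∀ b, (Γ b).CliqueFree (s + (u + 1)) := by
    intro b
    by_contra hb
    have := (not_cliqueFree_iff_top_isContained _).1 hb
    cases b
    · exact n2 this
    · exact n1 this
  have hcol : ∀ x y, G.Adj x y → (Γ (col x y)).Adj x y := by
    intro x y hxy
    by_cases e : Rr.Adj x y <;> simp [Γ, col, e, hxy]
  have hneg : ∀ b b' x y, b ≠ b' → G.Adj x y → ¬ (Γ b).Adj x y → (Γ b').Adj x y := by
    intro b b' x y hb hxy hn
    have := hcol x y hxy
    have h2 : col x y = b' := by
      by_contra h3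
      have h4 : col x y = b := by
        revert h3 hb; cases col x y <;> cases b <;> cases b' <;> simp
      exact hn (h4 ▸ this)
    rwa [h2] at this
  obtain ⟨x, y, ψ, hψ⟩ := hC (fun v w => (col (Sum.inr v) (Sum.inr w),
    fun a => col (Sum.inl a) (Sum.inr v)))
  set m := s + u - 1 with hm
  have hm2 : 3 ≤ m := by omega
  have hmu : 2 * m ≤ m * u := by nlinarith
  have hmu2 : 3 * u ≤ m * u := Nat.mul_le_mul_right _ hm2
  have hxy : x.2 = y.2 := by
    have h1 := (hψ 0 1 (by omega) (by omega)).2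
    have h2 := (hψ 0 u (by omega) (by omega)).2
    rw [if_pos (by rw [Nat.div_eq_of_lt (show 1 < u by omega)]; simp)] at h1
    rw [if_neg (by rw [Nat.div_self (show 0 < u by omega)]; simp)] at h2
    rw [← h1, ← h2]
  have hpat : ∀ i, i + 1 < m * u → ∀ a, col (Sum.inl a) (Sum.inr (ψ i)) = x.2 a := by
    intro i hi a
    have h1 := (hψ i (i + 1) (by omega) hi).2
    split_ifs at h1
    · rw [← h1]
    · rw [hxy, ← h1]
  have hGl : ∀ (a : Fin h) (z : Fin h ⊕ V), Sum.inl a ≠ z → G.Adj (Sum.inl a) z := by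
    intro a z hz
    simp [hG, hostG, hz]
  have hψne : ∀ i j, i < j → j < m * u → ψ i ≠ ψ j := by
    intro i j hij hj e
    exact hL.ne _ _ _ (hψ i j hij hj).1 (by rw [e])
  have hedge : ∀ i j, i < j → j < m * u →
      (Γ (if i / u = j / u then x.1 else y.1)).Adj (Sum.inr (ψ i)) (Sum.inr (ψ j)) := by
    intro i j hij hj
    obtain ⟨h1, h2⟩ := hψ i j hij hj
    have h3 : G.Adj (Sum.inr (ψ i)) (Sum.inr (ψ j)) := by
      simp only [hG, hostG, fromRel_adj]
      exact ⟨fun e => hψne i j hij hj (Sum.inr_injective e),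
        Or.inl (Or.inr ⟨_, _, _, rfl, rfl, h1⟩)⟩
    have h4 := hcol _ _ h3
    have h5 := congrArg Prod.fst h2
    simp only at h5
    rw [h5] at h4
    split_ifs at h4 ⊢ <;> exact h4
  have join : ∀ (b : Bool) (K : Finset (Fin h)) (I : Finset ℕ), (∀ i ∈ I, i + 1 < m * u) →
      (∀ i ∈ I, ∀ j ∈ I, i < j → (if i / u = j / u then x.1 else y.1) = b) →
      (∀ a ∈ K, ∀ i ∈ I, x.2 a = b) →
      (∀ a ∈ K, ∀ a' ∈ K, a ≠ a' → (Γ b).Adj (Sum.inl a) (Sum.inl a')) →
      K.card + I.card < s + (u + 1) := by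
    intro b K I h1 h2 h3 h4
    have h5 : (I.image ψ).card = I.card := by
      refine Finset.card_image_of_injOn (fun i hi j hj e => ?_)
      rcases lt_trichotomy i j with h | h | h
      · exact absurd e (hψne i j h (by have := h1 j hj; omega))
      · exact h
      · exact absurd e.symm (hψne j i h (by have := h1 i hi; omega))
    have h6 : ∀ a ∈ K, ∀ i ∈ I, (Γ b).Adj (Sum.inl a) (Sum.inr (ψ i)) := by
      intro a ha i hi
      have := hcol _ _ (hGl a (Sum.inr (ψ i)) (by simp))
      rwa [hpat i (h1 i hi), h3 a ha i hi] at this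
    have h7 : ∀ i ∈ I, ∀ j ∈ I, i < j → (Γ b).Adj (Sum.inr (ψ i)) (Sum.inr (ψ j)) := by
      intro i hi j hj hij
      have := hedge i j hij (by have := h1 j hj; omega)
      rwa [h2 i hi j hj hij] at this
    rw [← h5, ← Finset.card_disjSum]
    refine card_lt_of_clique (A := Set.univ) (hfree b).cliqueFreeOn (Set.subset_univ _) ?_
    intro z hz z' hz' hne
    rcases Finset.mem_disjSum.1 (Finset.mem_coe.1 hz) with ⟨a, ha, rfl⟩ | ⟨v, hv, rfl⟩ <;>
      rcases Finset.mem_disjSum.1 (Finset.mem_coe.1 hz') with ⟨a', ha', rfl⟩ | ⟨v', hv', rfl⟩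
    · exact h4 a ha a' ha' (fun e => hne (by rw [e]))
    · obtain ⟨i, hi, rfl⟩ := Finset.mem_image.1 hv'
      exact h6 a ha i hi
    · obtain ⟨i, hi, rfl⟩ := Finset.mem_image.1 hv
      exact (h6 a' ha' i hi).symm
    · obtain ⟨i, hi, rfl⟩ := Finset.mem_image.1 hv
      obtain ⟨j, hj, rfl⟩ := Finset.mem_image.1 hv'
      rcases lt_trichotomy i j with h | h | h
      · exact h7 i hi j hj h
      · exact absurd (by rw [h]) hne
      · exact (h7 j hj i hi h).symm
  by_cases hXY : x.1 = y.1
  · have := join x.1 ∅ (Finset.range (s + (u + 1)))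
      (fun i hi => by have := Finset.mem_range.1 hi; omega)
      (fun i _ j _ _ => by split_ifs; exacts [rfl, hXY.symm]) (by simp) (by simp)
    simp at this
  have jX : ∀ K : Finset (Fin h), (∀ a ∈ K, x.2 a = x.1) →
      (∀ a ∈ K, ∀ a' ∈ K, a ≠ a' → (Γ x.1).Adj (Sum.inl a) (Sum.inl a')) → K.card ≤ s := by
    intro K h1 h2
    have := join x.1 K (Finset.range u) (fun i hi => by have := Finset.mem_range.1 hi; omega)
      (fun i hi j hj _ => by
        rw [if_pos (by rw [Nat.div_eq_of_lt (Finset.mem_range.1 hi),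
          Nat.div_eq_of_lt (Finset.mem_range.1 hj)])])
      (fun a ha _ _ => h1 a ha) h2
    rw [Finset.card_range] at this
    omega
  have jY : ∀ K : Finset (Fin h), (∀ a ∈ K, x.2 a = y.1) →
      (∀ a ∈ K, ∀ a' ∈ K, a ≠ a' → (Γ y.1).Adj (Sum.inl a) (Sum.inl a')) → K.card ≤ 1 := by
    intro K h1 h2
    have := join y.1 K ((Finset.range m).image (fun i => i * u))
      (fun i hi => by
        obtain ⟨j, hj, rfl⟩ := Finset.mem_image.1 hi
        have h3 : (j + 1) * u ≤ m * u := Nat.mul_le_mul_right _ (Finset.mem_range.1 hj)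
        rw [add_mul] at h3
        omega)
      (fun i hi j hj hij => by
        obtain ⟨i', -, rfl⟩ := Finset.mem_image.1 hi
        obtain ⟨j', -, rfl⟩ := Finset.mem_image.1 hj
        rw [if_neg]
        rw [Nat.mul_div_cancel _ (by omega), Nat.mul_div_cancel _ (by omega)]
        rintro rfl
        omega)
      (fun a ha _ _ => h1 a ha) h2
    rw [Finset.card_image_of_injective _
      (fun a b e => Nat.eq_of_mul_eq_mul_right (show 0 < u by omega) e), Finset.card_range] at this
    omega
  have j0 : ∀ b, ∀ K : Finset (Fin h),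
      (∀ a ∈ K, ∀ a' ∈ K, a ≠ a' → (Γ b).Adj (Sum.inl a) (Sum.inl a')) → K.card < s + (u + 1) := by
    intro b K h2
    simpa using join b K ∅ (by simp) (by simp) (by simp) h2
  have hA : (Finset.univ.filter (fun a => x.2 a = x.1)).card < ramsey (s + (u + 1)) (s + 1) := by
    refine ramsey_set ((Γ y.1).comap Sum.inl) _ _ _ ?_ ?_
    · intro K _ hK
      have := j0 y.1 K (fun a ha a' ha' hne => hK.1 ha ha' hne)
      have := hK.2
      omega
    · intro K hKs hK
      have := jX K (fun a ha => by simpa using hKs ha) (fun a ha a' ha' hne => by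
        have := hK.1 ha ha' hne
        exact hneg y.1 x.1 _ _ (Ne.symm hXY) (hGl a _ (by simpa using hne)) this.2)
      have := hK.2
      omega
  have hB : (Finset.univ.filter (fun a => ¬ x.2 a = x.1)).card < s + (u + 1) := by
    refine j0 x.1 _ (fun a ha a' ha' hne => ?_)
    by_contra hn
    have h1 := hneg x.1 y.1 _ _ hXY (hGl a _ (by simpa using hne)) hn
    have h2 : ∀ c, ¬ x.2 c = x.1 → x.2 c = y.1 := by
      intro c
      revert hXY
      cases x.2 c <;> cases x.1 <;> cases y.1 <;> simp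
    have := jY {a, a'} (fun c hc => by
      rcases Finset.mem_insert.1 hc with rfl | hc
      · exact h2 _ (Finset.mem_filter.1 ha).2
      · rw [Finset.mem_singleton.1 hc]; exact h2 _ (Finset.mem_filter.1 ha').2)
      (fun c hc c' hc' hcc => by
        simp only [Finset.mem_insert, Finset.mem_singleton] at hc hc'
        rcases hc with rfl | rfl <;> rcases hc' with rfl | rfl
        · exact absurd rfl hcc
        · exact h1
        · exact h1.symm
        · exact absurd rfl hcc)
    rw [Finset.card_pair hne] at this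
    omega
  have := Finset.card_filter_add_card_filter_not (s := (Finset.univ : Finset (Fin h)))
    (fun a => x.2 a = x.1)
  rw [Finset.card_univ, Fintype.card_fin] at this
  omega

theorem not_equiv (s t f : ℕ) (ht : 3 ≤ t) (hs : 2 ≤ s) (h : ramsey (s + t) (s + 1) ≤ f * t) :
    ¬ RamseyEquiv (⊤ : SimpleGraph (Fin (s + t))) (cliquePlus (s + t) f t) := by
  classical
  obtain ⟨u, rfl⟩ : ∃ u, t = u + 1 := ⟨t - 1, by omega⟩
  intro hE
  obtain ⟨α, V, hV, π, R, hL, hC⟩ := canon_cliques
    (Bool × (Fin (ramsey (s + (u + 1)) (s + 1) + (s + u)) → Bool)) u (s + u - 1) (by omega) (by omega)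
  have := Fintype.ofFinite V
  have h1 := (hE _ _).1 (host_arrows s u _ hs (by omega) π R hL hC le_rfl)
  rcases h1 _ (hostR_le _ R) with h2 | h2
  · have := host_red _ u _ _ f π R hL (by omega) h2
    omega
  · have h3 := host_blue (ramsey (s + (u + 1)) (s + 1) + (s + u)) u _ π R hL
    rw [show s + u - 1 + 2 = s + (u + 1) by omega] at h3
    exact (not_cliqueFree_iff_top_isContained _).2 ((top_le_cliquePlus _ _ _).trans h2) h3

end Pool.Agent.Lib.MP_904cf4_co
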